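import Mathlib
import Pool.Agent.Helper872.LoadBal.Greedy

open Pool.Agent.Helper872.LoadBal

namespace Run7.h471.LB

variable {n : ℕ}

/-! ### constants -/

noncomputable def eta (n : ℕ) : ℝ := 1 / (100 * (n : ℝ) ^ 2)
noncomputable def Lc (n : ℕ) : ℝ := 2 - 1 / (n : ℝ) - eta n
noncomputable def tau (n : ℕ) : ℝ := 1 / 2 - 5 / (12 * (n : ℝ))
noncomputable def jlo (n : ℕ) : ℝ := 1 - 1 / (n : ℝ) - 2 * eta n
noncomputable def jhi (n : ℕ) : ℝ := 1 - 1 / (n : ℝ) + ((n : ℝ) - 1) * eta n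

lemma inv_facts (hn : 6 ≤ n) : (6 : ℝ) ≤ n ∧ 0 < 1 / (n : ℝ) ∧ 1 / (n : ℝ) ≤ 1 / 6 ∧
    (n : ℝ) * (1 / (n : ℝ)) = 1 ∧ 0 < eta n ∧ (n : ℝ) * eta n = (1 / (n : ℝ)) / 100 ∧
    (n : ℝ) * ((n : ℝ) * eta n) = 1 / 100 ∧ eta n ≤ (1 / (n : ℝ)) / 600 := by
  have h6 : (6 : ℝ) ≤ n := by exact_mod_cast hn
  have hp : (0 : ℝ) < n := by linarith
  refine ⟨h6, by positivity, ?_, by field_simp, by unfold eta; positivity, ?_, ?_, ?_⟩
  · exact one_div_le_one_div_of_le (by norm_num) h6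
  · unfold eta; field_simp
  · unfold eta; field_simp
  · unfold eta
    rw [div_div, div_le_div_iff₀ (by positivity) (by positivity)]
    nlinarith

lemma tau_eq : tau n = 1 / 2 - 5 / 12 * (1 / (n : ℝ)) := by
  unfold tau
  rw [div_mul_eq_div_div]
  ring

lemma num1 (hn : 6 ≤ n) : (n : ℝ) < ((n : ℝ) - 2) * Lc n - ((n : ℝ) - 3) * tau n := by
  obtain ⟨h6, r0, r6, nr, e0, ne, nne, e6⟩ := inv_facts hn
  rw [tau_eq]
  unfold Lc
  have h1 : ((n : ℝ) - 2) * (2 - 1 / (n : ℝ) - eta n) -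
      ((n : ℝ) - 3) * (1 / 2 - 5 / 12 * (1 / (n : ℝ))) =
      3 / 2 * (n : ℝ) - 5 / 2 - (7 / 12) * ((n : ℝ) * (1 / (n : ℝ))) + 3 / 4 * (1 / (n : ℝ))
        - (n : ℝ) * eta n + 2 * eta n := by
    ring
  rw [h1, nr, ne]
  have h2 : 1 / (n : ℝ) = 1 / 6 ∨ 1 / (n : ℝ) < 1 / 6 := r6.eq_or_lt
  have h3 : (n : ℝ) / 2 ≥ 3 := by linarith
  -- n/2 + 3/(4n) is increasing for n ≥ 6
  have h4 : (n : ℝ) / 2 + 3 / 4 * (1 / (n : ℝ)) ≥ 3 + 1 / 8 := by
    have h5 : 0 ≤ ((n : ℝ) - 6) * (1 / 2 - 1 / 8 * (1 / (n : ℝ))) := by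
      apply mul_nonneg
      · linarith
      · linarith
    have h6' : ((n : ℝ) - 6) * (1 / 2 - 1 / 8 * (1 / (n : ℝ))) =
        (n : ℝ) / 2 - 3 - 1 / 8 * ((n : ℝ) * (1 / (n : ℝ))) + 3 / 4 * (1 / (n : ℝ)) := by ring
    rw [h6', nr] at h5
    linarith
  linarith

lemma num2 (hn : 6 ≤ n) : (n : ℝ) < ((n : ℝ) - 2) * Lc n - ((n : ℝ) - 3) * jhi n + jlo n + tau n := by
  obtain ⟨h6, r0, r6, nr, e0, ne, nne, e6⟩ := inv_facts hn
  rw [tau_eq]
  unfold Lc jhi jlo
  have h1 : ((n : ℝ) - 2) * (2 - 1 / (n : ℝ) - eta n) -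
      ((n : ℝ) - 3) * (1 - 1 / (n : ℝ) + ((n : ℝ) - 1) * eta n) + (1 - 1 / (n : ℝ) - 2 * eta n) +
      (1 / 2 - 5 / 12 * (1 / (n : ℝ))) = (n : ℝ) + 1 / 2 - 29 / 12 * (1 / (n : ℝ)) -
      (n : ℝ) * ((n : ℝ) * eta n) + 3 * ((n : ℝ) * eta n) - 3 * eta n := by
    ring
  rw [h1, nne, ne]
  linarith

lemma num3 (hn : 6 ≤ n) : jhi n < 2 * tau n := by
  obtain ⟨h6, r0, r6, nr, e0, ne, nne, e6⟩ := inv_facts hn
  rw [tau_eq]
  unfold jhi
  have : ((n : ℝ) - 1) * eta n = (n : ℝ) * eta n - eta n := by ring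
  rw [this, ne]
  linarith

lemma num4 (hn : 6 ≤ n) : 2 * jhi n + eta n ≤ Lc n := by
  obtain ⟨h6, r0, r6, nr, e0, ne, nne, e6⟩ := inv_facts hn
  unfold jhi Lc
  have : ((n : ℝ) - 1) * eta n = (n : ℝ) * eta n - eta n := by ring
  rw [this, ne]
  linarith

lemma num5 (hn : 6 ≤ n) : (n : ℝ) - ((n : ℝ) - 1) * Lc n + ((n : ℝ) - 2) = jhi n := by
  obtain ⟨h6, r0, r6, nr, e0, ne, nne, e6⟩ := inv_facts hn
  unfold jhi Lc
  have h1 : (n : ℝ) - ((n : ℝ) - 1) * (2 - 1 / (n : ℝ) - eta n) + ((n : ℝ) - 2) =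
    (n : ℝ) * (1 / (n : ℝ)) - 1 / (n : ℝ) + ((n : ℝ) - 1) * eta n := by ring
  rw [h1, nr]

lemma num6 : Lc n - 1 - eta n = jlo n := by unfold Lc jlo; ring

lemma num7 (hn : 6 ≤ n) : tau n < jlo n := by
  obtain ⟨h6, r0, r6, nr, e0, ne, nne, e6⟩ := inv_facts hn
  rw [tau_eq]
  unfold jlo
  linarith

lemma num8 (hn : 6 ≤ n) : 0 < tau n ∧ eta n < tau n ∧ 1 < Lc n ∧ 0 < jlo n ∧ jlo n ≤ jhi n := by
  obtain ⟨h6, r0, r6, nr, e0, ne, nne, e6⟩ := inv_facts hn
  rw [tau_eq]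
  unfold Lc jlo jhi
  refine ⟨by linarith, by linarith, by linarith, by linarith, ?_⟩
  nlinarith

/-! ### loads -/

abbrev Stt (n : ℕ) := List (ℕ × ℝ × Fin n)

/-- load of machine `i` by tasks of weight at most `c` -/
noncomputable def sml (c : ℝ) (s : Stt n) (i : Fin n) : ℝ :=
  load (s.filter (fun x => decide (x.2.1 ≤ c))) i

/-- tasks on machine `i` of weight more than `c` -/
noncomputable def bigs (c : ℝ) (s : Stt n) (i : Fin n) : Stt n :=
  s.filter (fun x => decide (x.2.2 = i) && decide (c < x.2.1))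

/-- machine `i` has a task with weight in `[lo, hi]` -/
def bad (lo hi : ℝ) (s : Stt n) (i : Fin n) : Prop :=
  ∃ x ∈ s, x.2.2 = i ∧ lo ≤ x.2.1 ∧ x.2.1 ≤ hi

lemma sml_cons (c : ℝ) (x : ℕ × ℝ × Fin n) (s : Stt n) (i : Fin n) :
    sml c (x :: s) i = (if x.2.2 = i ∧ x.2.1 ≤ c then x.2.1 else 0) + sml c s i := by
  unfold sml
  rw [List.filter_cons]
  by_cases h : x.2.1 ≤ c
  · simp only [h, decide_true, if_true, and_true]
    rw [load_cons]
  · simp [h]

lemma load_decomp (c : ℝ) (s : Stt n) (i : Fin n) :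
    load s i = sml c s i + ((bigs c s i).map (fun x => x.2.1)).sum := by
  induction s with
  | nil => simp [sml, bigs, load]
  | cons a s ih =>
    rw [load_cons, sml_cons, ih]
    unfold bigs
    rw [List.filter_cons]
    by_cases h1 : a.2.2 = i
    · by_cases h2 : a.2.1 ≤ c
      · have h4 : (decide (a.2.2 = i) && decide (c < a.2.1)) = false := by
          rw [decide_eq_false (not_lt.2 h2), Bool.and_false]
        rw [h4, if_pos h1, if_pos ⟨h1, h2⟩]
        simp only [Bool.false_eq_true, if_false]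
        ring
      · have h4 : (decide (a.2.2 = i) && decide (c < a.2.1)) = true := by
          rw [decide_eq_true (not_le.1 h2), decide_eq_true h1, Bool.and_true]
        rw [h4, if_pos h1, if_neg (fun h => h2 h.2)]
        simp only [if_true, List.map_cons, List.sum_cons]
        ring
    · simp [h1]

lemma mem_bigs {c : ℝ} {s : Stt n} {i : Fin n} {x : ℕ × ℝ × Fin n} :
    x ∈ bigs c s i ↔ x ∈ s ∧ x.2.2 = i ∧ c < x.2.1 := by
  unfold bigs
  rw [List.mem_filter]
  simp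

lemma sum_bigs_ge (c : ℝ) (hc : 0 ≤ c) (l : Stt n) (h : ∀ x ∈ l, c < x.2.1) (hne : l ≠ []) :
    c ≤ (l.map (fun x => x.2.1)).sum := by
  cases l with
  | nil => exact absurd rfl hne
  | cons a t =>
    rw [List.map_cons, List.sum_cons]
    have h1 := h a (by simp)
    have h2 : 0 ≤ (t.map (fun x => x.2.1)).sum := by
      apply List.sum_nonneg
      intro y hy
      rw [List.mem_map] at hy
      obtain ⟨x, hx, rfl⟩ := hy
      have := h x (List.mem_cons_of_mem _ hx)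
      linarith
    linarith

/-- a machine whose load is between `η+` and `2τ` carries one big task -/
lemma one_big {c e l u : ℝ} (hc : 0 ≤ c) (s : Stt n) (i : Fin n)
    (h0 : 0 ≤ sml c s i) (h1 : sml c s i ≤ e) (hl : l < load s i) (hu : load s i ≤ u) (hel : e ≤ l)
    (huc : u < 2 * c) : bad (l - e) u s i := by
  have hd := load_decomp c s i
  rcases hb : bigs c s i with _ | ⟨x, _ | ⟨y, t⟩⟩
  · rw [hb] at hd
    simp at hd
    linarith
  · rw [hb] at hd
    simp at hd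
    have hx : x ∈ bigs c s i := by rw [hb]; simp
    rw [mem_bigs] at hx
    exact ⟨x, hx.1, hx.2.1, by linarith, by linarith⟩
  · exfalso
    rw [hb] at hd
    simp only [List.map_cons, List.sum_cons] at hd
    have hx : x ∈ bigs c s i := by rw [hb]; simp
    have hy : y ∈ bigs c s i := by rw [hb]; simp
    have ht : 0 ≤ (t.map (fun x => x.2.1)).sum := by
      apply List.sum_nonneg
      intro z hz
      rw [List.mem_map] at hz
      obtain ⟨x', hx', rfl⟩ := hz
      have : x' ∈ bigs c s i := by rw [hb]; simp [hx']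
      rw [mem_bigs] at this
      linarith [this.2.2]
    rw [mem_bigs] at hx hy
    linarith [hx.2.2, hy.2.2]

/-- a machine with a task of weight in `[lo, hi]` and load more than `hi + e` has another
big task -/
lemma two_big {c e lo hi : ℝ} (hc : 0 ≤ c) (s : Stt n) (i : Fin n)
    (h0 : 0 ≤ sml c s i) (h1 : sml c s i ≤ e) (hcl : c < lo) (hb : bad lo hi s i)
    (hl : hi + e < load s i) : lo + c ≤ load s i := by
  classical
  obtain ⟨x, hx, hxi, hx1, hx2⟩ := hb
  have hd := load_decomp c s i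
  have hxb : x ∈ bigs c s i := mem_bigs.2 ⟨hx, hxi, by linarith⟩
  have hp := List.perm_cons_erase hxb
  have hsum : ((bigs c s i).map (fun x => x.2.1)).sum =
      x.2.1 + (((bigs c s i).erase x).map (fun x => x.2.1)).sum := by
    rw [(hp.map (fun x => x.2.1)).sum_eq, List.map_cons, List.sum_cons]
  rw [hsum] at hd
  by_cases hne : (bigs c s i).erase x = []
  · rw [hne] at hd
    simp at hd
    linarith
  · have h2 := sum_bigs_ge c hc ((bigs c s i).erase x)
      (fun y hy => (mem_bigs.1 (List.mem_of_mem_erase hy)).2.2) hne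
    linarith

lemma sml_nonneg (c : ℝ) (s : Stt n) (h : ∀ x ∈ s, 0 < x.2.1) (i : Fin n) : 0 ≤ sml c s i := by
  unfold sml
  exact load_nonneg' _ (fun x hx => h x (List.mem_filter.1 hx).1) i

lemma vol2 (s : Stt n) (z0 z1 : Fin n) (hz : z0 ≠ z1) (c : ℝ)
    (h : ∀ i, i ≠ z0 → i ≠ z1 → c ≤ load s i) :
    ((n : ℝ) - 2) * c + load s z0 + load s z1 ≤ ∑ i, load s i := by
  have h1 := Finset.add_sum_erase Finset.univ (fun i => load s i) (Finset.mem_univ z0)
  have hm : z1 ∈ Finset.univ.erase z0 := Finset.mem_erase.2 ⟨hz.symm, Finset.mem_univ _⟩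
  have h2 := Finset.add_sum_erase (Finset.univ.erase z0) (fun i => load s i) hm
  have h3 : ((Finset.univ.erase z0).erase z1).card • c ≤
      ∑ i ∈ (Finset.univ.erase z0).erase z1, load s i := by
    apply Finset.card_nsmul_le_sum
    intro i hi
    rw [Finset.mem_erase, Finset.mem_erase] at hi
    exact h i hi.2.1 hi.1
  have hz0 : z0.val ≠ z1.val := fun h => hz (Fin.ext h)
  have hn2 : 2 ≤ n := by have := z0.2; have := z1.2; omega
  have h4 : ((Finset.univ.erase z0).erase z1).card = n - 2 := by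
    rw [Finset.card_erase_of_mem hm, Finset.card_erase_of_mem (Finset.mem_univ _)]
    simp
    omega
  rw [h4, nsmul_eq_mul, Nat.cast_sub hn2] at h3
  push_cast at h3
  linarith

lemma vol1 (s : Stt n) (z : Fin n) (c : ℝ)
    (h : ∀ i, i ≠ z → c ≤ load s i) :
    ((n : ℝ) - 1) * c + load s z ≤ ∑ i, load s i := by
  have h1 := Finset.add_sum_erase Finset.univ (fun i => load s i) (Finset.mem_univ z)
  have h3 : (Finset.univ.erase z).card • c ≤ ∑ i ∈ Finset.univ.erase z, load s i := by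
    apply Finset.card_nsmul_le_sum
    intro i hi
    rw [Finset.mem_erase] at hi
    exact h i hi.1
  have hn1 : 1 ≤ n := by have := z.2; omega
  have h4 : (Finset.univ.erase z).card = n - 1 := by
    rw [Finset.card_erase_of_mem (Finset.mem_univ _)]
    simp
  rw [h4, nsmul_eq_mul, Nat.cast_sub hn1] at h3
  push_cast at h3
  linarith

/-- the invariant at scale `K` with reserved machines `z0`, `z1` -/
structure Inv (K : ℝ) (z0 z1 : Fin n) (s : Stt n) : Prop where
  ld : ∀ i, load s i ≤ Lc n * K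
  sm0 : sml (tau n * K) s z0 ≤ eta n * K
  sm1 : sml (tau n * K) s z1 ≤ eta n * K
  nb : ¬ (bad (jlo n * K) (jhi n * K) s z0 ∧ bad (jlo n * K) (jhi n * K) s z1)

lemma Inv.symm {K : ℝ} {z0 z1 : Fin n} {s : Stt n} (h : Inv K z0 z1 s) : Inv K z1 z0 s :=
  ⟨h.ld, h.sm1, h.sm0, fun h' => h.nb ⟨h'.2, h'.1⟩⟩

lemma bad_cons {lo hi : ℝ} {x : ℕ × ℝ × Fin n} {s : Stt n} {i : Fin n} :
    bad lo hi (x :: s) i ↔ (x.2.2 = i ∧ lo ≤ x.2.1 ∧ x.2.1 ≤ hi) ∨ bad lo hi s i := by
  unfold bad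
  simp only [List.mem_cons]
  constructor
  · rintro ⟨y, rfl | hy, h⟩
    · exact Or.inl h
    · exact Or.inr ⟨y, hy, h⟩
  · rintro (h | ⟨y, hy, h⟩)
    · exact ⟨x, Or.inl rfl, h⟩
    · exact ⟨y, Or.inr hy, h⟩

/-- adding a task which is either put on an unreserved machine or is big -/
lemma Inv.cons {K : ℝ} {z0 z1 : Fin n} {s : Stt n} (h : Inv K z0 z1 s) (l : ℕ) (w : ℝ) (i : Fin n)
    (hf : load s i + w ≤ Lc n * K) (hi : (i ≠ z0 ∧ i ≠ z1) ∨ tau n * K < w)
    (hnb : ¬ (bad (jlo n * K) (jhi n * K) ((l, w, i) :: s) z0 ∧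
      bad (jlo n * K) (jhi n * K) ((l, w, i) :: s) z1)) : Inv K z0 z1 ((l, w, i) :: s) := by
  refine ⟨fun j => ?_, ?_, ?_, hnb⟩
  · rw [load_cons]
    by_cases hj : i = j
    · subst hj
      simp only [if_true]
      linarith
    · simp only [hj, if_false, zero_add]
      exact h.ld j
  · rw [sml_cons]
    have : ¬ (i = z0 ∧ w ≤ tau n * K) := by
      rintro ⟨h1, h2⟩
      rcases hi with hi | hi
      · exact hi.1 h1
      · linarith
    simp only [this, if_false, zero_add]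
    exact h.sm0
  · rw [sml_cons]
    have : ¬ (i = z1 ∧ w ≤ tau n * K) := by
      rintro ⟨h1, h2⟩
      rcases hi with hi | hi
      · exact hi.2 h1
      · linarith
    simp only [this, if_false, zero_add]
    exact h.sm1

/-- a task of weight in the critical window fits on a reserved machine that already has one -/
lemma pair_fits (hn : 6 ≤ n) {K : ℝ} (hK : 0 < K) {z0 z1 : Fin n} (hz : z0 ≠ z1) {s : Stt n}
    (hpos : ∀ x ∈ s, 0 < x.2.1) (h : Inv K z0 z1 s) {w : ℝ}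
    (hw2 : w ≤ jhi n * K)
    (htot : (∑ i, load s i) + w ≤ n * K)
    (hbl : ∀ i, i ≠ z0 → i ≠ z1 → Lc n * K < load s i + w)
    (hb : bad (jlo n * K) (jhi n * K) s z0) : load s z0 + w ≤ Lc n * K := by
  by_contra hcon
  push Not at hcon
  have hN : (6 : ℝ) ≤ n := by exact_mod_cast hn
  obtain ⟨t0, t1, L1, j0, jj⟩ := num8 hn
  have h1 := two_big (c := tau n * K) (e := eta n * K) (by positivity) s z0
    (sml_nonneg _ s hpos z0) h.sm0 (by have := num7 hn; nlinarith) hb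
    (by have := num4 hn; nlinarith)
  have h2 := vol2 s z0 z1 hz (Lc n * K - w) (fun i h1 h2 => by linarith [hbl i h1 h2])
  have h3 := load_nonneg' s hpos z1
  have h4 := num2 hn
  have h5 : ((n : ℝ) - 3) * w ≤ ((n : ℝ) - 3) * (jhi n * K) :=
    mul_le_mul_of_nonneg_left hw2 (by linarith)
  have h6 : (n : ℝ) * K < (((n : ℝ) - 2) * Lc n - ((n : ℝ) - 3) * jhi n + jlo n + tau n) * K :=
    mul_lt_mul_of_pos_right h4 hK
  nlinarith

/-- some reserved machine can take the task when all the others cannot -/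
lemma some_fits (hn : 6 ≤ n) {K : ℝ} (hK : 0 < K) {z0 z1 : Fin n} (hz : z0 ≠ z1) {s : Stt n}
    (hpos : ∀ x ∈ s, 0 < x.2.1) (h : Inv K z0 z1 s) {w : ℝ} (hwK : w ≤ K)
    (htot : (∑ i, load s i) + w ≤ n * K)
    (hbl : ∀ i, i ≠ z0 → i ≠ z1 → Lc n * K < load s i + w) :
    load s z0 + w ≤ Lc n * K ∨ load s z1 + w ≤ Lc n * K := by
  by_contra hcon
  push Not at hcon
  obtain ⟨hc0, hc1⟩ := hcon
  have hN : (6 : ℝ) ≤ n := by exact_mod_cast hn
  obtain ⟨t0, t1, L1, j0, jj⟩ := num8 hn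
  have hall : ∀ i, Lc n * K < load s i + w := by
    intro i
    by_cases h0 : i = z0
    · rw [h0]; exact hc0
    · by_cases h1 : i = z1
      · rw [h1]; exact hc1
      · exact hbl i h0 h1
  have hup : ∀ z, load s z ≤ jhi n * K := by
    intro z
    have h1 := vol1 s z (Lc n * K - w) (fun i _ => by linarith [hall i])
    have h2 := num5 hn
    have h3 : ((n : ℝ) - 2) * w ≤ ((n : ℝ) - 2) * K := mul_le_mul_of_nonneg_left hwK (by linarith)
    rw [← h2]
    nlinarith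
  have hbad : ∀ z, sml (tau n * K) s z ≤ eta n * K → bad (jlo n * K) (jhi n * K) s z := by
    intro z hs
    have h1 := one_big (c := tau n * K) (e := eta n * K) (l := (Lc n - 1) * K) (u := jhi n * K)
      (by positivity) s z (sml_nonneg _ s hpos z) hs (by have := hall z; linarith) (hup z)
      (by have := num6 (n := n); nlinarith) (by have := num3 hn; nlinarith)
    have h2 : (Lc n - 1) * K - eta n * K = jlo n * K := by rw [← num6 (n := n)]; ring
    rw [h2] at h1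
    exact h1
  exact h.nb ⟨hbad z0 h.sm0, hbad z1 h.sm1⟩

/-- **Step.** -/
theorem step_exists (hn : 6 ≤ n) {K : ℝ} (hK : 0 < K) {z0 z1 : Fin n} (hz : z0 ≠ z1) {s : Stt n}
    (hpos : ∀ x ∈ s, 0 < x.2.1) (h : Inv K z0 z1 s) {w : ℝ} (hw : 0 < w) (hwK : w ≤ K)
    (htot : (∑ i, load s i) + w ≤ n * K) : ∃ i, ∀ l, Inv K z0 z1 ((l, w, i) :: s) := by
  have hN : (6 : ℝ) ≤ n := by exact_mod_cast hn
  obtain ⟨t0, t1, L1, j0, jj⟩ := num8 hn
  by_cases hA : ∃ i, i ≠ z0 ∧ i ≠ z1 ∧ load s i + w ≤ Lc n * K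
  · obtain ⟨i, hi0, hi1, hf⟩ := hA
    refine ⟨i, fun l => h.cons l w i hf (Or.inl ⟨hi0, hi1⟩) ?_⟩
    rw [bad_cons, bad_cons]
    rintro ⟨h1 | h1, h2 | h2⟩
    · exact hi0 h1.1
    · exact hi0 h1.1
    · exact hi1 h2.1
    · exact h.nb ⟨h1, h2⟩
  · push Not at hA
    have hbl : ∀ i, i ≠ z0 → i ≠ z1 → Lc n * K < load s i + w := fun i h0 h1 => hA i h0 h1
    have hbig : tau n * K < w := by
      by_contra hc
      push Not at hc
      have h2 := vol2 s z0 z1 hz (Lc n * K - w) (fun i h1 h2 => by linarith [hbl i h1 h2])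
      have h3 := load_nonneg' s hpos z1
      have h3' := load_nonneg' s hpos z0
      have h4 := num1 hn
      have h5 : ((n : ℝ) - 3) * w ≤ ((n : ℝ) - 3) * (tau n * K) :=
        mul_le_mul_of_nonneg_left hc (by linarith)
      have h6 : (n : ℝ) * K < (((n : ℝ) - 2) * Lc n - ((n : ℝ) - 3) * tau n) * K :=
        mul_lt_mul_of_pos_right h4 hK
      nlinarith
    by_cases hJ : jlo n * K ≤ w ∧ w ≤ jhi n * K
    · by_cases hb0 : bad (jlo n * K) (jhi n * K) s z0
      · have hb1 : ¬ bad (jlo n * K) (jhi n * K) s z1 := fun hb1 => h.nb ⟨hb0, hb1⟩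
        refine ⟨z0, fun l => h.cons l w z0 (pair_fits hn hK hz hpos h hJ.2 htot hbl hb0)
          (Or.inr hbig) ?_⟩
        rw [bad_cons, bad_cons]
        rintro ⟨-, h2 | h2⟩
        · exact hz h2.1
        · exact hb1 h2
      · by_cases hb1 : bad (jlo n * K) (jhi n * K) s z1
        · refine ⟨z1, fun l => h.cons l w z1 (pair_fits hn hK hz.symm hpos h.symm hJ.2 htot
            (fun i h1 h2 => hbl i h2 h1) hb1) (Or.inr hbig) ?_⟩
          rw [bad_cons, bad_cons]
          rintro ⟨h2 | h2, -⟩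
          · exact hz h2.1.symm
          · exact hb0 h2
        · rcases some_fits hn hK hz hpos h hwK htot hbl with hf | hf
          · refine ⟨z0, fun l => h.cons l w z0 hf (Or.inr hbig) ?_⟩
            rw [bad_cons, bad_cons]
            rintro ⟨-, h2 | h2⟩
            · exact hz h2.1
            · exact hb1 h2
          · refine ⟨z1, fun l => h.cons l w z1 hf (Or.inr hbig) ?_⟩
            rw [bad_cons, bad_cons]
            rintro ⟨h2 | h2, -⟩
            · exact hz h2.1.symm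
            · exact hb0 h2
    · obtain ⟨i, hi⟩ : ∃ i, load s i + w ≤ Lc n * K := by
        rcases some_fits hn hK hz hpos h hwK htot hbl with hf | hf
        · exact ⟨z0, hf⟩
        · exact ⟨z1, hf⟩
      refine ⟨i, fun l => h.cons l w i hi (Or.inr hbig) ?_⟩
      rw [bad_cons, bad_cons]
      rintro ⟨h1 | h1, h2 | h2⟩
      · exact hJ h1.2
      · exact hJ h1.2
      · exact hJ h2.2
      · exact h.nb ⟨h1, h2⟩

/-- departures preserve the invariant -/
lemma Inv.filter {K : ℝ} {z0 z1 : Fin n} {s : Stt n} (hpos : ∀ x ∈ s, 0 < x.2.1)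
    (h : Inv K z0 z1 s) (p : ℕ × ℝ × Fin n → Bool) : Inv K z0 z1 (s.filter p) := by
  have hs : ∀ c i, sml c (s.filter p) i ≤ sml c s i := by
    intro c i
    unfold sml
    rw [List.filter_filter]
    have : (s.filter (fun x => (decide (x.2.1 ≤ c)) && p x)) =
        (s.filter (fun x => decide (x.2.1 ≤ c))).filter p := by
      rw [List.filter_filter]
      congr 1
      ext x
      rw [Bool.and_comm]
    rw [this]
    exact load_filter_le _ (fun x hx => hpos x (List.mem_filter.1 hx).1) p i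
  refine ⟨fun i => (load_filter_le s hpos p i).trans (h.ld i), (hs _ _).trans h.sm0,
    (hs _ _).trans h.sm1, ?_⟩
  rintro ⟨⟨x, hx, h1⟩, ⟨y, hy, h2⟩⟩
  exact h.nb ⟨⟨x, (List.mem_filter.1 hx).1, h1⟩, ⟨y, (List.mem_filter.1 hy).1, h2⟩⟩

/-- start of a phase -/
lemma Inv.start (hn : 6 ≤ n) {K : ℝ} (hK : 0 < K) {z0 z1 : Fin n} {s : Stt n}
    (hpos : ∀ x ∈ s, 0 < x.2.1) (hl : ∀ i, load s i ≤ eta n * K) : Inv K z0 z1 s := by
  obtain ⟨t0, t1, L1, j0, jj⟩ := num8 hn
  have hN : (6 : ℝ) ≤ n := by exact_mod_cast hn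
  obtain ⟨-, r0, r6, nr, e0, ne, nne, e6⟩ := inv_facts hn
  have hs : ∀ c i, sml c s i ≤ load s i := fun c i => load_filter_le s hpos _ i
  refine ⟨fun i => (hl i).trans ?_, (hs _ _).trans (hl _), (hs _ _).trans (hl _), ?_⟩
  · have : eta n ≤ Lc n := by linarith
    exact mul_le_mul_of_nonneg_right this hK.le
  · rintro ⟨⟨x, hx, hxz, h1, h2⟩, -⟩
    have h3 := le_load s hpos x hx
    have h4 := hl x.2.2
    have h5 := num7 hn
    have h6 : eta n * K < jlo n * K := mul_lt_mul_of_pos_right (by linarith) hK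
    linarith

end Run7.h471.LB
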