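import Mathlib
import Pool.Agent.Run7.h471.LBStep

open Pool.Agent.Helper872.LoadBal

namespace Run7.h471.LB

variable {n : ℕ}

/-! ### facts on the offline optimum -/

lemma OPT_attained (σ : List Ev) (hn : 0 < n) :
    ∃ b : List (Ev × Fin n), b.map Prod.fst = σ ∧ cost b = OPT n σ := by
  have hf : ({c | ∃ b : List (Ev × Fin n), b.map Prod.fst = σ ∧ c = cost b} : Set ℝ).Finite := by
    refine ((fin_ann (n := n) σ).image cost).subset ?_
    rintro c ⟨b, hb, rfl⟩
    exact ⟨b, hb, rfl⟩
  have hne : ({c | ∃ b : List (Ev × Fin n), b.map Prod.fst = σ ∧ c = cost b} : Set ℝ).Nonempty :=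
    ⟨_, σ.map (fun e => (e, ⟨0, hn⟩)), by simp [Function.comp_def], rfl⟩
  obtain ⟨b, hb, hc⟩ := hne.csInf_mem hf
  exact ⟨b, hb, hc.symm⟩

lemma OPT_nonneg (σ : List Ev) : 0 ≤ OPT n σ := by
  apply Real.sInf_nonneg
  rintro x ⟨b, -, rfl⟩
  exact cost_nonneg b

lemma OPT_mono (hn : 0 < n) (e : Ev) (h : List Ev) : OPT n h ≤ OPT n (e :: h) := by
  obtain ⟨b, hb, hc⟩ := OPT_attained (n := n) (e :: h) hn
  cases b with
  | nil => simp at hb
  | cons a b =>
    simp only [List.map_cons, List.cons.injEq] at hb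
    rw [← hc]
    exact (OPT_le b h hb.2).trans (le_max_left _ _)

lemma OPT_suffix (hn : 0 < n) {σ' σ : List Ev} (h : σ' <:+ σ) : OPT n σ' ≤ OPT n σ := by
  obtain ⟨t, rfl⟩ := h
  induction t with
  | nil => exact le_refl _
  | cons e t ih => exact ih.trans (OPT_mono hn e _)

lemma weight_le_OPT (hn : 0 < n) (σ : List Ev) (hv : Valid σ) (b : List (Ev × Fin n))
    (hb : b.map Prod.fst = σ) (x : ℕ × ℝ × Fin n) (hx : x ∈ st b) : x.2.1 ≤ OPT n σ := by
  obtain ⟨b', hb', hc⟩ := OPT_attained (n := n) σ hn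
  have h1 : (x.1, x.2.1) ∈ (st b).map (fun x => (x.1, x.2.1)) := List.mem_map.2 ⟨x, hx, rfl⟩
  rw [st_mapw, hb, ← hb', ← st_mapw, List.mem_map] at h1
  obtain ⟨y, hy, hyx⟩ := h1
  have h2 := le_load (st b') (fun z hz => st_pos b' σ hb' hv z hz) y hy
  have h3 : y.2.1 = x.2.1 := by
    have := congrArg Prod.snd hyx
    exact this
  rw [← h3, ← hc]
  exact h2.trans (load_le_cost' _ _)

lemma total_le_OPT (hn : 0 < n) (σ : List Ev) (b : List (Ev × Fin n))
    (hb : b.map Prod.fst = σ) : ∑ i, load (st b) i ≤ n * OPT n σ := by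
  obtain ⟨b', hb', hc⟩ := OPT_attained (n := n) σ hn
  have htot : ∑ i, load (st b) i = ∑ i, load (st b') i := by
    rw [sum_load, sum_load, st_mapw, st_mapw, hb, hb']
  rw [htot, ← hc]
  have hle : ∑ i, load (st b') i ≤ ∑ _i : Fin n, cost b' :=
    Finset.sum_le_sum (fun i _ => load_le_cost' _ i)
  simpa using hle

/-! ### the algorithm -/

/-- the machine for the event `e` in state `s` with phase parameter `K` -/
noncomputable def mv (hn : 0 < n) (K : ℝ) (z0 z1 : Fin n) (s : Stt n) : Ev → Fin n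
  | Ev.dep _ => z0
  | Ev.arr _ w =>
    open Classical in
    if h : 0 < K ∧ ∃ i, ∀ l, Inv K z0 z1 ((l, w, i) :: s) then h.2.choose else amin hn s

noncomputable def run (hn : 0 < n) (z0 z1 : Fin n) (P : List Ev → ℝ) : List Ev → List (Ev × Fin n)
  | [] => []
  | e :: h => (e, mv hn (P (e :: h)) z0 z1 (st (run hn z0 z1 P h)) e) :: run hn z0 z1 P h

/-- the online algorithm with phase parameter `P` -/
noncomputable def alg (hn : 0 < n) (z0 z1 : Fin n) (P : List Ev → ℝ) : List Ev → Fin n
  | [] => z0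
  | e :: h => mv hn (P (e :: h)) z0 z1 (st (run hn z0 z1 P h)) e

lemma ann_alg (hn : 0 < n) (z0 z1 : Fin n) (P : List Ev → ℝ) (σ : List Ev) :
    ann (alg hn z0 z1 P) σ = run hn z0 z1 P σ := by
  induction σ with
  | nil => rfl
  | cons e h ih => simp only [ann, run, ih, alg]

lemma run_fst (hn : 0 < n) (z0 z1 : Fin n) (P : List Ev → ℝ) (σ : List Ev) :
    (run hn z0 z1 P σ).map Prod.fst = σ := by
  rw [← ann_alg]; exact ann_fst _ _

lemma valid_tail {e : Ev} {h : List Ev} (hv : Valid (e :: h)) : Valid h := by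
  cases e with
  | arr l w => exact hv.1
  | dep l => exact hv.1

lemma run_pos (hn : 0 < n) (z0 z1 : Fin n) (P : List Ev → ℝ) (σ : List Ev) (hv : Valid σ) :
    ∀ x ∈ st (run hn z0 z1 P σ), 0 < x.2.1 := fun x hx =>
  st_pos _ σ (run_fst hn z0 z1 P σ) hv x hx

/-- one event in a reserved phase -/
lemma inv_event (hn : 6 ≤ n) {z0 z1 : Fin n} (hz : z0 ≠ z1) (P : List Ev → ℝ) (e : Ev)
    (h : List Ev) (hv : Valid (e :: h)) (hK : 0 < P (e :: h)) (hx : OPT n (e :: h) ≤ P (e :: h))
    (hI : Inv (P (e :: h)) z0 z1 (st (run (by omega) z0 z1 P h))) :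
    Inv (P (e :: h)) z0 z1 (st (run (by omega) z0 z1 P (e :: h))) := by
  have hn0 : 0 < n := by omega
  have hpos := run_pos hn0 z0 z1 P h (valid_tail hv)
  cases e with
  | dep l => exact hI.filter hpos _
  | arr l w =>
    have hw : 0 < w := hv.2.1
    set s := st (run hn0 z0 z1 P h) with hs
    -- weight and total
    have hmem : ((l, w, z0) : ℕ × ℝ × Fin n) ∈ st ((Ev.arr l w, z0) :: run hn0 z0 z1 P h) := by
      simp [st]
    have hb : ((Ev.arr l w, z0) :: run hn0 z0 z1 P h).map Prod.fst = Ev.arr l w :: h := by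
      simp [run_fst]
    have h1 := weight_le_OPT hn0 _ hv _ hb _ hmem
    have h2 := total_le_OPT hn0 _ _ hb
    have h3 : ∑ i, load (st ((Ev.arr l w, z0) :: run hn0 z0 z1 P h)) i = w + ∑ i, load s i := by
      change ∑ i, load ((l, w, z0) :: s) i = _
      simp only [load_cons, Finset.sum_add_distrib, Finset.sum_ite_eq, Finset.mem_univ, if_true]
    rw [h3] at h2
    have hnK : (n : ℝ) * OPT n (Ev.arr l w :: h) ≤ n * P (Ev.arr l w :: h) :=
      mul_le_mul_of_nonneg_left hx (Nat.cast_nonneg _)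
    have hst := step_exists hn hK hz hpos hI hw (h1.trans hx) (by linarith)
    change Inv _ z0 z1 ((l, w, mv hn0 (P (Ev.arr l w :: h)) z0 z1 s (Ev.arr l w)) :: s)
    have hc : 0 < P (Ev.arr l w :: h) ∧ ∃ i, ∀ l', Inv (P (Ev.arr l w :: h)) z0 z1
        ((l', w, i) :: s) := ⟨hK, hst⟩
    have hm : mv hn0 (P (Ev.arr l w :: h)) z0 z1 s (Ev.arr l w) = hc.2.choose := by
      unfold mv
      exact dif_pos hc
    rw [hm]
    exact hc.2.choose_spec l

/-- one greedy event -/
lemma greedy_event (hn : 0 < n) {z0 z1 : Fin n} (P : List Ev → ℝ) (e : Ev)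
    (h : List Ev) (hv : Valid (e :: h)) (hK : ¬ 0 < P (e :: h))
    (hl : ∀ i, load (st (run hn z0 z1 P h)) i ≤ (2 - 1 / (n : ℝ)) * OPT n (e :: h)) :
    ∀ i, load (st (run hn z0 z1 P (e :: h))) i ≤ (2 - 1 / (n : ℝ)) * OPT n (e :: h) := by
  have hpos := run_pos hn z0 z1 P h (valid_tail hv)
  have hnr : (1 : ℝ) ≤ n := by exact_mod_cast hn
  have hnp : (0 : ℝ) < n := by linarith
  intro i
  cases e with
  | dep l => exact (load_filter_le _ hpos _ i).trans (hl i)
  | arr l w =>
    have hw : 0 < w := hv.2.1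
    set s := st (run hn z0 z1 P h) with hs
    have hmem : ((l, w, z0) : ℕ × ℝ × Fin n) ∈ st ((Ev.arr l w, z0) :: run hn z0 z1 P h) := by
      simp [st]
    have hb : ((Ev.arr l w, z0) :: run hn z0 z1 P h).map Prod.fst = Ev.arr l w :: h := by
      simp [run_fst]
    have h1 := weight_le_OPT hn _ hv _ hb _ hmem
    have h2 := total_le_OPT hn _ _ hb
    have h3 : ∑ i, load (st ((Ev.arr l w, z0) :: run hn z0 z1 P h)) i = w + ∑ i, load s i := by
      change ∑ i, load ((l, w, z0) :: s) i = _
      simp only [load_cons, Finset.sum_add_distrib, Finset.sum_ite_eq, Finset.mem_univ, if_true]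
    rw [h3] at h2
    have hm : mv hn (P (Ev.arr l w :: h)) z0 z1 s (Ev.arr l w) = amin hn s := by
      unfold mv
      exact dif_neg (fun h' => hK h'.1)
    change load ((l, w, mv hn (P (Ev.arr l w :: h)) z0 z1 s (Ev.arr l w)) :: s) i ≤ _
    rw [hm, load_cons]
    by_cases hi : amin hn s = i
    · simp only [hi, if_true]
      have hmin : (n : ℝ) * load s i ≤ ∑ k, load s k := by
        have : ∑ _k : Fin n, load s i ≤ ∑ k, load s k := by
          apply Finset.sum_le_sum
          intro k _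
          rw [← hi]
          exact amin_le hn _ k
        simpa using this
      simp only at h1
      set X := OPT n (Ev.arr l w :: h) with hX
      have h5 : (n : ℝ) * load s i + w ≤ n * X := by linarith
      have h6 : load s i ≤ X - w / n := by
        have : w / n + load s i ≤ X := by
          rw [div_add' _ _ _ hnp.ne', div_le_iff₀ hnp]
          linarith
        linarith
      have h7 : w * (1 - 1 / (n : ℝ)) ≤ X * (1 - 1 / (n : ℝ)) := by
        apply mul_le_mul_of_nonneg_right h1
        have : 1 / (n : ℝ) ≤ 1 := by rw [div_le_one hnp]; exact hnr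
        linarith
      have h8 : w / (n : ℝ) = w * (1 / (n : ℝ)) := by ring
      nlinarith
    · simp only [hi, if_false, zero_add]
      exact hl i

/-- phase parameter of the universal algorithm -/
noncomputable def ph (n : ℕ) : List Ev → ℝ
  | [] => 0
  | e :: h =>
    open Classical in
    if OPT n h ≤ eta n / 2 * OPT n (e :: h) then (1 + eta n / 4) * OPT n (e :: h)
    else if OPT n (e :: h) ≤ ph n h then ph n h else 0

lemma ph_bounds (hn : 6 ≤ n) (σ : List Ev) :
    (0 < ph n σ → OPT n σ ≤ ph n σ) ∧ ph n σ ≤ (1 + eta n / 4) * OPT n σ := by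
  obtain ⟨h6, r0, r6, nr, e0, ne, nne, e6⟩ := inv_facts hn
  induction σ with
  | nil =>
    refine ⟨fun h => absurd h (lt_irrefl _), ?_⟩
    exact mul_nonneg (by linarith) (OPT_nonneg _)
  | cons e h ih =>
    have h0 := OPT_nonneg (n := n) (e :: h)
    have hm := OPT_mono (n := n) (by omega) e h
    unfold ph
    split_ifs with h1 h2
    · exact ⟨fun _ => by nlinarith, le_refl _⟩
    · exact ⟨fun _ => h2, ih.2.trans (mul_le_mul_of_nonneg_left hm (by linarith))⟩
    · exact ⟨fun h => absurd h (lt_irrefl _), mul_nonneg (by linarith) h0⟩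

lemma Lc_mul (hn : 6 ≤ n) : Lc n * (1 + eta n / 4) ≤ 2 - 1 / (n : ℝ) - eta n / 2 := by
  obtain ⟨h6, r0, r6, nr, e0, ne, nne, e6⟩ := inv_facts hn
  unfold Lc
  nlinarith

/-- invariant of the universal algorithm -/
lemma main_inv (hn : 6 ≤ n) {z0 z1 : Fin n} (hz : z0 ≠ z1) : ∀ σ : List Ev, Valid σ →
    (∀ i, load (st (run (by omega) z0 z1 (ph n) σ)) i ≤ (2 - 1 / (n : ℝ)) * OPT n σ) ∧
    (0 < ph n σ → Inv (ph n σ) z0 z1 (st (run (by omega) z0 z1 (ph n) σ))) := by
  obtain ⟨h6, r0, r6, nr, e0, ne, nne, e6⟩ := inv_facts hn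
  have hn0 : 0 < n := by omega
  intro σ
  induction σ with
  | nil =>
    intro _
    refine ⟨fun i => ?_, fun h => absurd h (lt_irrefl _)⟩
    simp only [run, st, load_nil]
    exact mul_nonneg (by linarith) (OPT_nonneg _)
  | cons e h ih =>
    intro hv
    obtain ⟨ih1, ih2⟩ := ih (valid_tail hv)
    have hm := OPT_mono (n := n) hn0 e h
    have h0 := OPT_nonneg (n := n) (e :: h)
    have hpos := run_pos hn0 z0 z1 (ph n) h (valid_tail hv)
    by_cases hK : 0 < ph n (e :: h)
    · have hb := ph_bounds hn (e :: h)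
      have hI : Inv (ph n (e :: h)) z0 z1 (st (run hn0 z0 z1 (ph n) h)) := by
        by_cases h1 : OPT n h ≤ eta n / 2 * OPT n (e :: h)
        · apply Inv.start hn hK hpos
          intro i
          have h2 := ih1 i
          have h3 := OPT_nonneg (n := n) h
          have h4 : (2 - 1 / (n : ℝ)) * OPT n h ≤ 2 * OPT n h := by nlinarith
          have h5 := hb.1 hK
          nlinarith
        · by_cases h2 : OPT n (e :: h) ≤ ph n h
          · have h3 : ph n (e :: h) = ph n h := by
              conv_lhs => unfold ph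
              rw [if_neg h1, if_pos h2]
            rw [h3] at hK ⊢
            exact ih2 hK
          · exfalso
            have h3 : ph n (e :: h) = 0 := by
              unfold ph
              rw [if_neg h1, if_neg h2]
            rw [h3] at hK
            exact lt_irrefl _ hK
      have hI' := inv_event hn hz (ph n) e h hv hK (hb.1 hK) hI
      refine ⟨fun i => ?_, fun _ => hI'⟩
      refine (hI'.ld i).trans ?_
      have h1 : Lc n * ph n (e :: h) ≤ Lc n * ((1 + eta n / 4) * OPT n (e :: h)) :=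
        mul_le_mul_of_nonneg_left hb.2 (by linarith [(num8 hn).2.2.1])
      have h2 := Lc_mul hn
      nlinarith
    · refine ⟨greedy_event hn0 (ph n) e h hv hK (fun i => (ih1 i).trans ?_),
        fun h => absurd h hK⟩
      exact mul_le_mul_of_nonneg_left hm (by linarith)

lemma run_cost (hn : 0 < n) (z0 z1 : Fin n) (P : List Ev → ℝ) (C : ℝ) :
    ∀ σ : List Ev, 0 ≤ C → (∀ σ', σ' <:+ σ → ∀ i, load (st (run hn z0 z1 P σ')) i ≤ C) →
    cost (run hn z0 z1 P σ) ≤ C := by
  intro σ
  induction σ with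
  | nil => intro hC _; simpa [run, cost] using hC
  | cons e h ih =>
    intro hC hl
    have hne : Nonempty (Fin n) := ⟨⟨0, hn⟩⟩
    refine max_le (ih hC (fun σ' hσ' => hl σ' (hσ'.trans (List.suffix_cons e h))))
      (ciSup_le fun i => hl (e :: h) (List.suffix_refl _) i)

lemma valid_suffix {σ' σ : List Ev} (h : σ' <:+ σ) (hv : Valid σ) : Valid σ' := by
  obtain ⟨t, rfl⟩ := h
  induction t with
  | nil => exact hv
  | cons e t ih => exact ih (valid_tail hv)

/-- the prefix optima avoid the window `(θ OPT, (1-δ) OPT)` -/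
def Gap (n : ℕ) (θ δ : ℝ) (σ : List Ev) : Prop :=
  ∀ σ', σ' <:+ σ → OPT n σ' ≤ θ * OPT n σ ∨ (1 - δ) * OPT n σ ≤ OPT n σ'

/-- phases on gapped inputs -/
lemma ph_gap (hn : 6 ≤ n) (σ : List Ev) (hX : 0 < OPT n σ)
    (hg : Gap n (eta n / 4) (eta n / 8) σ) : ∀ h : List Ev, h <:+ σ →
    (1 - eta n / 8) * OPT n σ ≤ OPT n h → OPT n σ ≤ ph n h := by
  obtain ⟨h6, r0, r6, nr, e0, ne, nne, e6⟩ := inv_facts hn
  have hn0 : 0 < n := by omega
  intro h
  induction h with
  | nil =>
    intro _ h1
    exfalso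
    have : OPT n [] = 0 := by
      apply le_antisymm
      · have := OPT_le (n := n) [] [] rfl
        simpa [cost] using this
      · exact OPT_nonneg _
    rw [this] at h1
    nlinarith
  | cons e h ih =>
    intro hs h1
    have hs' : h <:+ σ := (List.suffix_cons e h).trans hs
    have hxX := OPT_suffix (n := n) hn0 hs
    unfold ph
    rcases hg h hs' with h2 | h2
    · rw [if_pos]
      · nlinarith
      · nlinarith
    · have h3 := ih hs' h2
      rw [if_neg, if_pos]
      · exact h3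
      · exact hxX.trans h3
      · push Not
        nlinarith

theorem gap_upper (hn : 6 ≤ n) {z0 z1 : Fin n} (hz : z0 ≠ z1) :
    (∀ σ, Valid σ → cost (ann (alg (by omega) z0 z1 (ph n)) σ) ≤ (2 - 1 / (n : ℝ)) * OPT n σ) ∧
    (∀ σ, Valid σ → Gap n (eta n / 4) (eta n / 8) σ →
      cost (ann (alg (by omega) z0 z1 (ph n)) σ) ≤ (2 - 1 / (n : ℝ) - eta n / 2) * OPT n σ) := by
  obtain ⟨h6, r0, r6, nr, e0, ne, nne, e6⟩ := inv_facts hn
  have hn0 : 0 < n := by omega
  constructor
  · intro σ hv
    rw [ann_alg]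
    apply run_cost hn0 _ _ _ _ σ (mul_nonneg (by linarith) (OPT_nonneg _))
    intro σ' hσ' i
    refine ((main_inv hn hz σ' (valid_suffix hσ' hv)).1 i).trans ?_
    exact mul_le_mul_of_nonneg_left (OPT_suffix hn0 hσ') (by linarith)
  · intro σ hv hg
    rw [ann_alg]
    apply run_cost hn0 _ _ _ _ σ (mul_nonneg (by linarith) (OPT_nonneg _))
    intro σ' hσ' i
    have hm := main_inv hn hz σ' (valid_suffix hσ' hv)
    have hXX := OPT_suffix (n := n) hn0 hσ'
    rcases (OPT_nonneg (n := n) σ).eq_or_lt with hX | hX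
    · have h1 := hm.1 i
      have h2 : OPT n σ' = 0 := le_antisymm (by rw [hX]; exact hXX) (OPT_nonneg _)
      rw [h2] at h1
      rw [← hX]
      simpa using h1
    · rcases hg σ' hσ' with h1 | h1
      · refine (hm.1 i).trans ?_
        have h2 := OPT_nonneg (n := n) σ'
        have h3 : (2 - 1 / (n : ℝ)) * OPT n σ' ≤ 2 * (eta n / 4 * OPT n σ) := by nlinarith
        nlinarith
      · have h2 := ph_gap hn σ hX hg σ' hσ' h1
        have h3 := (hm.2 (by linarith)).ld i
        refine h3.trans ?_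
        have h4 := (ph_bounds hn σ').2
        have h5 : Lc n * ph n σ' ≤ Lc n * ((1 + eta n / 4) * OPT n σ') :=
          mul_le_mul_of_nonneg_left h4 (by linarith [(num8 hn).2.2.1])
        have h6 := Lc_mul hn
        have h7 : Lc n * (1 + eta n / 4) * OPT n σ' ≤ Lc n * (1 + eta n / 4) * OPT n σ := by
          apply mul_le_mul_of_nonneg_left hXX
          have := (num8 hn).2.2.1
          positivity
        nlinarith

/-- known upper bound on the optimum -/
theorem known_upper (hn : 6 ≤ n) {z0 z1 : Fin n} (hz : z0 ≠ z1) (K : ℝ) (hK : 0 < K) :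
    ∀ σ, Valid σ → OPT n σ ≤ K →
      cost (ann (alg (by omega) z0 z1 (fun _ => K)) σ) ≤ Lc n * K := by
  obtain ⟨h6, r0, r6, nr, e0, ne, nne, e6⟩ := inv_facts hn
  have hn0 : 0 < n := by omega
  intro σ hv hσ
  rw [ann_alg]
  have hL := (num8 hn).2.2.1
  have key : ∀ σ : List Ev, Valid σ → OPT n σ ≤ K →
      Inv K z0 z1 (st (run hn0 z0 z1 (fun _ => K) σ)) := by
    intro σ
    induction σ with
    | nil =>
      intro _ _
      apply Inv.start hn hK
      · intro x hx
        simp [run, st] at hx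
      · intro i
        simp only [run, st, load_nil]
        positivity
    | cons e h ih =>
      intro hv ho
      exact inv_event hn hz (fun _ => K) e h hv hK ho
        (ih (valid_tail hv) ((OPT_mono hn0 e h).trans ho))
  apply run_cost hn0 _ _ _ _ σ (by positivity)
  intro σ' hσ' i
  exact (key σ' (valid_suffix hσ' hv) ((OPT_suffix hn0 hσ').trans hσ)).ld i

end Run7.h471.LB
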