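import Mathlib
import Pool.Agent.Run7.h471.LBAlg
import Pool.Agent.Helper872.LoadBal.Five

open MeasureTheory Pool.Agent.Helper872.LoadBal

universe u

namespace Run7.h471.LB

variable {n : ℕ}

/-- the optimum of every nonempty prefix is the optimum of the whole input -/
def Flat (n : ℕ) (σ : List Ev) : Prop :=
  ∀ σ', σ' <:+ σ → σ' ≠ [] → OPT n σ' = OPT n σ

lemma OPT_nil : OPT n [] = 0 := by
  apply le_antisymm
  · have := OPT_le (n := n) [] [] rfl
    simpa [cost] using this
  · exact OPT_nonneg _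

lemma Flat.gap {σ : List Ev} (h : Flat n σ) {θ δ : ℝ} (hθ : 0 ≤ θ) (hδ : 0 ≤ δ) :
    Gap n θ δ σ := by
  intro σ' hσ'
  have h0 := OPT_nonneg (n := n) σ
  by_cases hne : σ' = []
  · left
    rw [hne, OPT_nil]
    positivity
  · right
    rw [h σ' hσ' hne]
    nlinarith

lemma OPT_single (hn : 0 < n) (L : ℝ) (hL : 0 ≤ L) : L ≤ OPT n [Ev.arr 0 L] := by
  obtain ⟨b, hb, hc⟩ := OPT_attained (n := n) [Ev.arr 0 L] hn
  cases b with
  | nil => simp at hb
  | cons a b =>
    simp only [List.map_cons, List.cons.injEq, List.map_eq_nil_iff] at hb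
    obtain ⟨h1, rfl⟩ := hb
    obtain ⟨e, m⟩ := a
    simp only at h1
    subst h1
    rw [← hc]
    have := load_le_cost (Ev.arr 0 L, m) [] m
    simpa [st, load] using this

lemma flat_of (hn : 0 < n) (L : ℝ) (hL : 0 ≤ L) (σ : List Ev) (hs : [Ev.arr 0 L] <:+ σ)
    (ho : OPT n σ ≤ L) : OPT n σ = L ∧ Flat n σ := by
  have key : ∀ σ', σ' <:+ σ → σ' ≠ [] → OPT n σ' = L := by
    intro σ' hσ' hne
    apply le_antisymm ((OPT_suffix hn hσ').trans ho)
    have h1 : [Ev.arr 0 L] <:+ σ' := by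
      rcases List.suffix_or_suffix_of_suffix hs hσ' with h | h
      · exact h
      · have h2 := h.length_le
        have h3 : 0 < σ'.length := List.length_pos_iff.2 hne
        have h4 : σ' = [Ev.arr 0 L] := h.eq_of_length (by simp at h2 ⊢; omega)
        rw [h4]
    exact (OPT_single hn L hL).trans (OPT_suffix hn h1)
  have hσ : OPT n σ = L := by
    apply key σ (List.suffix_refl _)
    rintro rfl
    simpa using hs.length_le
  exact ⟨hσ, fun σ' h1 h2 => by rw [key σ' h1 h2, hσ]⟩

/-- **Repeated trials behind a first task of weight `L`.** -/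
theorem repeat_flat (hn : 0 < n) (L H : ℝ) (hL : 0 < L) (hH : 0 < H) (S : Set (List Ev))
    (hS : S.Finite)
    (hgood : ∀ s ∈ S, Valid s ∧ act s = [] ∧
      ∃ b : List (Ev × Fin n), b.map Prod.fst = s ∧ cost b ≤ L)
    (hwin : ∀ F : List Ev → Fin n, ∃ s ∈ S, H ≤ cost (ann F s))
    (R : RandAlg.{u} n) (c : ℝ)
    (hc : ∀ σ, Valid σ → Flat n σ → R.ecost σ ≤ c * OPT n σ) : H ≤ c * L := by
  classical
  set T := hS.toFinset with hT
  have hTne : T.Nonempty := by
    obtain ⟨s, hs, -⟩ := hwin (fun _ => ⟨0, hn⟩)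
    exact ⟨s, by simpa [hT] using hs⟩
  set N : ℝ := (T.card : ℝ) with hN
  have hNpos : 0 < N := by rw [hN]; exact_mod_cast hTne.card_pos
  have hN1 : 1 ≤ N := by rw [hN]; exact_mod_cast hTne.card_pos
  -- induction
  have key : ∀ K : ℕ, ∃ σ, Valid σ ∧ act σ = [] ∧ [Ev.arr 0 L] <:+ σ ∧
      (∃ b : List (Ev × Fin n), b.map Prod.fst = σ ∧ cost b ≤ L) ∧
      R.μ.real {ω | cost (ann (R.A ω) σ) < H} ≤ (1 - 1 / N) ^ K := by
    intro K
    induction K with
    | zero =>
      refine ⟨[Ev.dep 0, Ev.arr 0 L], by simp [Valid, act, hL], by simp [act],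
        List.suffix_cons _ _, ⟨[(Ev.dep 0, ⟨0, hn⟩), (Ev.arr 0 L, ⟨0, hn⟩)], rfl, ?_⟩, ?_⟩
      · have hne : Nonempty (Fin n) := ⟨⟨0, hn⟩⟩
        refine max_le (max_le (by simpa [cost] using hL.le) (ciSup_le fun i => ?_))
          (ciSup_le fun i => ?_)
        · simp only [st, load, List.map_cons, List.map_nil, List.sum_cons, List.sum_nil, add_zero]
          split_ifs
          · exact le_refl _
          · exact hL.le
        · have : load (st [(Ev.dep 0, (⟨0, hn⟩ : Fin n)), (Ev.arr 0 L, ⟨0, hn⟩)]) i = 0 := by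
            simp [st, load]
          rw [this]
          exact hL.le
      · simp only [pow_zero]
        exact measureReal_le_one
    | succ K ih =>
      obtain ⟨σ, hv, ha, hsuf, ⟨b, hb, hbL⟩, hμ⟩ := ih
      set B : Set R.Ω := {ω | cost (ann (R.A ω) σ) < H} with hB
      let hit : List Ev → Set R.Ω := fun s => {ω | H ≤ cost (ann (R.A ω) (s ++ σ))}
      have hmeasB : MeasurableSet B := meas_ann R σ (fun b => cost b < H)
      have hmeasH : ∀ s, MeasurableSet (hit s) := fun s =>
        meas_ann R (s ++ σ) (fun b => H ≤ cost b)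
      have hcover : B ⊆ ⋃ s ∈ T, (B ∩ hit s) := by
        intro ω hω
        obtain ⟨s, hs, hsH⟩ := hwin (fun t => R.A ω (t ++ σ))
        simp only [Set.mem_iUnion]
        refine ⟨s, by simpa [hT] using hs, hω, ?_⟩
        change H ≤ cost (ann (R.A ω) (s ++ σ))
        rw [ann_append, cost_append _ _ (st_ann_nil _ _ ha)]
        exact le_max_of_le_right hsH
      have hsum : R.μ.real B ≤ ∑ s ∈ T, R.μ.real (B ∩ hit s) :=
        le_trans (measureReal_mono hcover (measure_ne_top _ _)) (measureReal_biUnion_finset_le _ _)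
      obtain ⟨s, hs, hsB⟩ : ∃ s ∈ T, R.μ.real B / N ≤ R.μ.real (B ∩ hit s) := by
        by_contra hcon
        push Not at hcon
        have : ∑ s ∈ T, R.μ.real (B ∩ hit s) < ∑ _s ∈ T, R.μ.real B / N :=
          Finset.sum_lt_sum_of_nonempty hTne hcon
        rw [Finset.sum_const, nsmul_eq_mul, ← hN, mul_div_cancel₀ _ hNpos.ne'] at this
        linarith
      obtain ⟨hsv, hsa, bs, hbs, hbsL⟩ := hgood s (by simpa [hT] using hs)
      refine ⟨s ++ σ, valid_append _ _ ha hsv hv, by rw [act_append _ _ ha, hsa],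
        hsuf.trans (List.suffix_append _ _), ⟨bs ++ b, by simp [hb, hbs], ?_⟩, ?_⟩
      · rw [cost_append _ _ (st_nil_of b σ hb ha)]
        exact max_le hbL hbsL
      · have hsub : {ω | cost (ann (R.A ω) (s ++ σ)) < H} ⊆ B \ (B ∩ hit s) := by
          intro ω hω
          have h1 : cost (ann (R.A ω) (s ++ σ)) < H := hω
          refine ⟨?_, ?_⟩
          · change cost (ann (R.A ω) σ) < H
            refine lt_of_le_of_lt ?_ h1
            rw [ann_append]
            exact cost_append_ge _ _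
          · rintro ⟨-, h2⟩
            exact absurd h1 (not_lt.mpr h2)
        have h3 : R.μ.real (B \ (B ∩ hit s)) = R.μ.real B - R.μ.real (B ∩ hit s) :=
          measureReal_sdiff Set.inter_subset_left (hmeasB.inter (hmeasH s))
        calc R.μ.real {ω | cost (ann (R.A ω) (s ++ σ)) < H}
            ≤ R.μ.real (B \ (B ∩ hit s)) := measureReal_mono hsub
          _ = R.μ.real B - R.μ.real (B ∩ hit s) := h3
          _ ≤ R.μ.real B - R.μ.real B / N := by linarith
          _ = (1 - 1 / N) * R.μ.real B := by ring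
          _ ≤ (1 - 1 / N) * (1 - 1 / N) ^ K := by
              apply mul_le_mul_of_nonneg_left hμ
              rw [sub_nonneg, div_le_one hNpos]; exact hN1
          _ = (1 - 1 / N) ^ (K + 1) := by ring
  have hc0 : ∀ K : ℕ, H * (1 - (1 - 1 / N) ^ K) ≤ c * L := by
    intro K
    obtain ⟨σ, hv, ha, hsuf, ⟨b, hb, hbL⟩, hμ⟩ := key K
    obtain ⟨hopt, hflat⟩ := flat_of hn L hL.le σ hsuf ((OPT_le b σ hb).trans hbL)
    have h1 := hc σ hv hflat
    have h2 : H * R.μ.real {ω | H ≤ cost (ann (R.A ω) σ)} ≤ R.ecost σ :=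
      mul_meas_ge_le_integral_of_nonneg (Filter.Eventually.of_forall (fun ω => cost_nonneg _))
        (integrable_cost R σ) H
    have h3 : R.μ.real {ω | H ≤ cost (ann (R.A ω) σ)} =
        1 - R.μ.real {ω | cost (ann (R.A ω) σ) < H} := by
      have := probReal_compl_eq_one_sub (μ := R.μ) (meas_ann R σ (fun b => cost b < H))
      rw [← this]
      congr 1
      ext ω
      simp
    rw [h3] at h2
    have h4 : H * (1 - (1 - 1 / N) ^ K) ≤ R.ecost σ := by
      refine le_trans ?_ h2
      apply mul_le_mul_of_nonneg_left _ hH.le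
      linarith
    rw [hopt] at h1
    exact h4.trans h1
  have hlim : Filter.Tendsto (fun K : ℕ => H * (1 - (1 - 1 / N) ^ K)) Filter.atTop
      (nhds (H * (1 - 0))) := by
    apply Filter.Tendsto.const_mul
    apply Filter.Tendsto.const_sub
    apply tendsto_pow_atTop_nhds_zero_of_lt_one
    · rw [sub_nonneg, div_le_one hNpos]; exact hN1
    · have : 0 < 1 / N := by positivity
      linarith
  have := le_of_tendsto hlim (Filter.Eventually.of_forall hc0)
  simpa using this

theorem flatX (n : ℕ) (hn : 2 ≤ n)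
    (hgood : ∀ x : Fin n → ℕ, ∑ i, x i = n * n → (∀ i, x i ≤ 2 * n - 2) →
      (∀ i, 1 ≤ x i) ∨ (∃ q, ∀ i, i ≠ q → n ≤ x i)) (R : RandAlg.{u} n) (c : ℝ)
    (hc : ∀ σ, Valid σ → Flat n σ → R.ecost σ ≤ c * OPT n σ) : 2 - 1 / (n : ℝ) ≤ c := by
  have hn0 : 0 < n := by omega
  have hn2 : (2 : ℝ) ≤ n := by exact_mod_cast hn
  have h := repeat_flat hn0 (n : ℝ) (2 * n - 1) (by linarith) (by linarith)
    (SX n (n * n) (n * n + n + 2)) (SX_finite n _ _) (fun s hs => hs.1)
    (adversaryX hn rfl rfl hgood) R c hc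
  have hpos : (0 : ℝ) < n := by linarith
  have h2 : 2 - 1 / (n : ℝ) = (2 * n - 1) / n := by field_simp
  rw [h2, div_le_iff₀ hpos]
  exact h

theorem flat5 (R : RandAlg.{u} 5) (c : ℝ)
    (hc : ∀ σ, Valid σ → Flat 5 σ → R.ecost σ ≤ c * OPT 5 σ) : 2 - 1 / 5 ≤ c := by
  have h := repeat_flat (n := 5) (by norm_num) (5 : ℝ) 9 (by norm_num) (by norm_num)
    (SX 5 25 32 ∪ ST 25 5 40) ((SX_finite 5 25 32).union (ST_finite 25 5 40))
    (fun s hs => by
      rcases hs with hs | hs
      · have := hs.1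
        exact_mod_cast this
      · have := hs.1
        exact_mod_cast this) adv5 R c hc
  linarith

theorem flat_lower (n : ℕ) (hn : 2 ≤ n) (hn5 : n ≤ 5) (R : RandAlg.{u} n) (c : ℝ)
    (hc : ∀ σ, Valid σ → Flat n σ → R.ecost σ ≤ c * OPT n σ) : 2 - 1 / (n : ℝ) ≤ c := by
  have h2345 : n = 2 ∨ n = 3 ∨ n = 4 ∨ n = 5 := by omega
  rcases h2345 with rfl | rfl | rfl | rfl
  · refine flatX 2 (by norm_num) ?_ R c hc
    intro x hs hx
    left
    rw [Fin.sum_univ_two] at hs
    have h0 := hx 0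
    have h1 := hx 1
    intro i
    fin_cases i <;> simp <;> omega
  · exact flatX 3 (by norm_num) good3 R c hc
  · exact flatX 4 (by norm_num) good4 R c hc
  · exact_mod_cast flat5 R c hc

end Run7.h471.LB
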