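import Mathlib
import Pool.Agent.W923.BH.Ramsey

set_option autoImplicit false

/-!
# The shift graph on increasing sequences: basic definitions
-/

namespace Run7.h471

open Set MeasureTheory

/-- The space of infinite sets of natural numbers, each set being given by its increasing
enumeration, with the topology and the Borel structure of a subspace of the Baire space. -/
abbrev Inc : Type := {x : ℕ → ℕ // StrictMono x}

/-- The shift map, deleting the minimum. -/
def shift (x : Inc) : Inc := ⟨fun k => x.1 (k + 1), fun _ _ h => x.2 (Nat.succ_lt_succ h)⟩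

/-- Adjacency in the shift graph. -/
def Adj (x y : Inc) : Prop := y = shift x ∨ x = shift y

/-- The two sets have finite symmetric difference. -/
def E0 (x y : Inc) : Prop := (symmDiff (Set.range x.1) (Set.range y.1)).Finite

/-- Invariance under `E0`. -/
def Invariant (B : Set Inc) : Prop := ∀ x y, E0 x y → x ∈ B → y ∈ B

/-- There is a Borel homomorphism from the shift graph on `A` to the shift graph on `B`. -/
def BorelHom (A B : Set Inc) : Prop :=
  ∃ f : A → Inc, Measurable f ∧ (∀ x, f x ∈ B) ∧ ∀ x y : A, Adj x y → Adj (f x) (f y)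

/-- The projective pointclasses: `SigmaSet n X` are the (boldface) `Σ^1_{n+1}` subsets of `X`. -/
def SigmaSet : ℕ → ∀ (X : Type) [TopologicalSpace X], Set X → Prop
  | 0, _, _, A => AnalyticSet A
  | n + 1, X, _, A => ∃ C : Set (X × (ℕ → ℕ)), SigmaSet n (X × (ℕ → ℕ)) Cᶜ ∧ A = Prod.fst '' C

/-- Projective sets. -/
def Projective {X : Type} [TopologicalSpace X] (A : Set X) : Prop := ∃ n, SigmaSet n X A

/-- The shift graph on `B` has a finite colouring with projective colour classes. -/
def ProjColorable (B : Set Inc) : Prop :=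
  ∃ (k : ℕ) (c : B → Fin k), (∀ x y : B, Adj x y → c x ≠ c y) ∧
    ∀ i, Projective (Subtype.val '' (c ⁻¹' {i}))

/-- The sets `B_D` for a relation `D` on the natural numbers. -/
def Path (D : ℕ → ℕ → Prop) : Set Inc :=
  {x | ∃ N, ∀ i ≥ N, D (x.1 i) (x.1 (i + 1))}

/-! ### Elementary facts -/

@[simp] theorem shift_apply (x : Inc) (k : ℕ) : (shift x).1 k = x.1 (k + 1) := rfl

theorem shift_iter_apply (x : Inc) (j k : ℕ) : (shift^[j] x).1 k = x.1 (j + k) := by
  induction j generalizing x with
  | zero => simp
  | succ j ih =>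
    rw [Function.iterate_succ_apply, ih, shift_apply]
    exact congrArg x.1 (by omega)

theorem inc_ext {x y : Inc} (h : ∀ k, x.1 k = y.1 k) : x = y := Subtype.ext (funext h)

theorem isClosed_strictMono : IsClosed {x : ℕ → ℕ | StrictMono x} := by
  have : {x : ℕ → ℕ | StrictMono x} = ⋂ i : ℕ, {x : ℕ → ℕ | x i < x (i + 1)} := by
    ext x
    simp only [mem_ofPred_eq, mem_iInter]
    exact ⟨fun h i => h (Nat.lt_succ_self i), fun h => strictMono_nat_of_lt_succ h⟩
  rw [this]
  refine isClosed_iInter fun i => ?_
  have : IsClosed ((fun x : ℕ → ℕ => (x i, x (i + 1))) ⁻¹' {p : ℕ × ℕ | p.1 < p.2}) :=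
    (isClosed_discrete _).preimage (by fun_prop)
  exact this

instance : PolishSpace Inc := isClosed_strictMono.polishSpace

instance : Inhabited Inc := ⟨⟨id, strictMono_id⟩⟩

theorem continuous_shift : Continuous shift := by
  refine Continuous.subtype_mk ?_ _
  exact continuous_pi fun k => (continuous_apply (k + 1)).comp continuous_subtype_val

theorem measurable_shift : Measurable shift := continuous_shift.measurable

theorem measurable_coord (k : ℕ) : Measurable fun x : Inc => x.1 k :=
  (measurable_pi_apply k).comp measurable_subtype_coe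

theorem E0_shift (x : Inc) : E0 x (shift x) := by
  have h : symmDiff (Set.range x.1) (Set.range (shift x).1) ⊆ {x.1 0} := by
    intro n hn
    rcases hn with ⟨⟨k, hk⟩, h2⟩ | ⟨⟨k, hk⟩, h2⟩
    · rcases k with _ | k
      · exact hk.symm
      · exact absurd ⟨k, hk⟩ h2
    · exact absurd ⟨k + 1, hk⟩ h2
  exact (finite_singleton _).subset h

theorem E0.symm {x y : Inc} (h : E0 x y) : E0 y x := by
  unfold E0 at *
  rwa [symmDiff_comm]

theorem mem_shift_iff {B : Set Inc} (hB : Invariant B) (x : Inc) : shift x ∈ B ↔ x ∈ B :=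
  ⟨hB _ _ (E0_shift x).symm, hB _ _ (E0_shift x)⟩

theorem mem_iter_iff {B : Set Inc} (hB : Invariant B) (x : Inc) (k : ℕ) :
    shift^[k] x ∈ B ↔ x ∈ B := by
  induction k generalizing x with
  | zero => rfl
  | succ k ih => rw [Function.iterate_succ_apply, ih, mem_shift_iff hB]

end Run7.h471
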