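import Mathlib

set_option autoImplicit false

/-!
# Descending along a coded ordinal
-/

namespace Run7.h471

/-- The largest ordinal smaller than `α` with a code at most `n`. -/
noncomputable def desc (o : ℕ → Ordinal.{0}) (α : Ordinal.{0}) (n : ℕ) : Ordinal.{0} := by
  classical
  exact ((Finset.range (n + 1)).filter (fun i => o i < α)).sup o

theorem desc_lt {o : ℕ → Ordinal.{0}} {α : Ordinal.{0}} (h : α ≠ 0) (n : ℕ) : desc o α n < α := by
  classical
  rw [desc, Finset.sup_lt_iff (pos_iff_ne_zero.2 h)]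
  intro i hi
  exact (Finset.mem_filter.1 hi).2

theorem le_desc {o : ℕ → Ordinal.{0}} {α : Ordinal.{0}} {n i : ℕ} (hi : i ≤ n) (h : o i < α) :
    o i ≤ desc o α n := by
  classical
  exact Finset.le_sup (f := o)
    (Finset.mem_filter.2 ⟨Finset.mem_range.2 (Nat.lt_succ_of_le hi), h⟩)

theorem desc_mono {o : ℕ → Ordinal.{0}} {α α' : Ordinal.{0}} {n n' : ℕ} (hα : α ≤ α')
    (hn : n ≤ n') : desc o α n ≤ desc o α' n' := by
  classical
  refine Finset.sup_mono ?_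
  intro i hi
  obtain ⟨h1, h2⟩ := Finset.mem_filter.1 hi
  refine Finset.mem_filter.2 ⟨?_, h2.trans_le hα⟩
  rw [Finset.mem_range] at h1 ⊢
  omega

theorem exists_code_desc {o : ℕ → Ordinal.{0}} (h0 : o 0 = 0) (α : Ordinal.{0}) (n : ℕ) :
    ∃ i ≤ n, o i = desc o α n := by
  classical
  rcases Finset.eq_empty_or_nonempty ((Finset.range (n + 1)).filter (fun i => o i < α)) with h | h
  · refine ⟨0, Nat.zero_le _, ?_⟩
    rw [desc, h, Finset.sup_empty, h0]
    rfl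
  · obtain ⟨i, hi, h1⟩ := Finset.exists_mem_eq_sup _ h o
    refine ⟨i, ?_, h1.symm⟩
    have := (Finset.mem_filter.1 hi).1
    rw [Finset.mem_range] at this
    omega

theorem desc_succ {o : ℕ → Ordinal.{0}} {α : Ordinal.{0}} {n : ℕ} (h : ∃ i ≤ n, o i = α) :
    desc o (α + 1) n = α := by
  obtain ⟨i, hi, rfl⟩ := h
  refine le_antisymm ?_ (le_desc hi (Order.lt_add_one_iff.2 le_rfl))
  exact Order.lt_add_one_iff.1 (desc_lt (by simp) n)

/-- The fast growing function given by descending from `α`. -/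
noncomputable def hd (o : ℕ → Ordinal.{0}) (α : Ordinal.{0}) (ζ : ℕ → ℕ) : ℕ := by
  classical
  exact if h : α = 0 then ζ 0 else hd o (desc o α (ζ 1)) (fun j => ζ (j + 1))
termination_by α
decreasing_by exact desc_lt h _

theorem hd_zero (o : ℕ → Ordinal.{0}) (ζ : ℕ → ℕ) : hd o 0 ζ = ζ 0 := by
  rw [hd]
  simp

theorem hd_of_ne (o : ℕ → Ordinal.{0}) {α : Ordinal.{0}} (h : α ≠ 0) (ζ : ℕ → ℕ) :
    hd o α ζ = hd o (desc o α (ζ 1)) (fun j => ζ (j + 1)) := by
  rw [hd]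
  simp [h]

theorem le_hd (o : ℕ → Ordinal.{0}) (α : Ordinal.{0}) : ∀ {ζ : ℕ → ℕ}, Monotone ζ →
    ζ 0 ≤ hd o α ζ := by
  induction α using WellFoundedLT.induction with
  | ind α ih =>
  intro ζ hζ
  rcases eq_or_ne α 0 with rfl | h
  · rw [hd_zero]
  · rw [hd_of_ne o h]
    exact (hζ (Nat.zero_le 1)).trans (ih _ (desc_lt h _) (fun a b hab => hζ (Nat.succ_le_succ hab)))

theorem hd_mono (o : ℕ → Ordinal.{0}) (α : Ordinal.{0}) : ∀ {α' : Ordinal.{0}} {ζ ζ' : ℕ → ℕ},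
    α ≤ α' → Monotone ζ' → (∀ j, ζ j ≤ ζ' j) → hd o α ζ ≤ hd o α' ζ' := by
  induction α using WellFoundedLT.induction with
  | ind α ih =>
  intro α' ζ ζ' hα hζ' h
  rcases eq_or_ne α 0 with rfl | h0
  · rw [hd_zero]
    exact (h 0).trans (le_hd o α' hζ')
  · have h0' : α' ≠ 0 := fun h1 => h0 (le_antisymm (h1 ▸ hα) zero_le)
    rw [hd_of_ne o h0, hd_of_ne o h0']
    exact ih _ (desc_lt h0 _) (desc_mono hα (h 1))
      (fun a b hab => hζ' (Nat.succ_le_succ hab)) (fun j => h (j + 1))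

theorem hd_succ {o : ℕ → Ordinal.{0}} {α : Ordinal.{0}} {ζ : ℕ → ℕ}
    (h : ∃ i ≤ ζ 1, o i = α) : hd o (α + 1) ζ = hd o α (fun j => ζ (j + 1)) := by
  rw [hd_of_ne o (by simp), desc_succ h]

end Run7.h471
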