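import Pool.Agent.Run7.h471.Rank2
import Pool.Agent.Run7.h471.Hardy

set_option autoImplicit false

/-!
# Functions of countable rank are bounded by fast growing functions of a function of rank zero
-/

namespace Run7.h471

open Set MeasureTheory Filter

section basic

variable {X : Type} {m : MeasurableSpace X} {S : X → X} {U : Ultrafilter X}

/-- The values of `z` along the orbit of `x`. -/
def oseq (S : X → X) (z : X → ℕ) (x : X) (j : ℕ) : ℕ := z (S^[j] x)

theorem oseq_succ (z : X → ℕ) (x : X) : (fun j => oseq S z x (j + 1)) = oseq S z (S x) := by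
  funext j
  rw [oseq, oseq, Function.iterate_succ_apply]

theorem measurable_glue' {Z : Type} [MeasurableSpace Z] {F : ℕ → X → Z}
    (hF : ∀ k, Measurable[m] (F k)) {n : X → ℕ} (hn : Measurable[m] n) :
    Measurable[m] fun x => F (n x) x := by
  intro T hT
  have : (fun x => F (n x) x) ⁻¹' T = ⋃ k, (n ⁻¹' {k} ∩ F k ⁻¹' T) := by
    ext x; simp
  rw [this]
  exact MeasurableSet.iUnion fun k => (hn (measurableSet_singleton k)).inter (hF k hT)

theorem measurable_hd (hS : Measurable[m, m] S) (o : ℕ → Ordinal.{0}) (α : Ordinal.{0}) :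
    ∀ {z : X → ℕ}, Measurable[m] z → Measurable[m] fun x => hd o α (oseq S z x) := by
  induction α using WellFoundedLT.induction with
  | ind α ih =>
  intro z hz
  rcases eq_or_ne α 0 with rfl | h
  · simp only [hd_zero]
    exact hz
  · have h1 : (fun x => hd o α (oseq S z x)) =
        fun x => (fun k x => hd o (desc o α k) (oseq S (fun y => z (S y)) x)) (z (S x)) x := by
      funext x
      rw [hd_of_ne o h, oseq_succ]
      show hd o (desc o α (z (S x))) (oseq S z (S x)) =
        hd o (desc o α (z (S x))) (oseq S (fun y => z (S y)) x)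
      congr 1
      funext j
      rw [oseq, oseq, ← Function.iterate_succ_apply' S j x, Function.iterate_succ_apply]
    rw [h1]
    exact measurable_glue' (F := fun k x => hd o (desc o α k) (oseq S (fun y => z (S y)) x))
      (fun k => ih _ (desc_lt h k) (hz.comp hS)) (hz.comp hS)

variable (hS : Measurable[m, m] S)
  (hU : ∀ A : Set X, MeasurableSet[m] A → A ∈ U → S ⁻¹' A ∈ U)

include hS hU in
theorem ae_monotone {z : X → ℕ} (hz : Measurable[m] z)
    (h : ∀ᶠ x in (U : Filter X), z x ≤ z (S x)) :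
    ∀ᶠ x in (U : Filter X), Monotone (oseq S z x) := by
  have h1 := ae_all hS hU (A := {x | z x ≤ z (S x)})
    (measurableSet_rel hz (hz.comp hS) (fun a b => a ≤ b)) h
  refine h1.mono fun x hx => monotone_nat_of_le_succ fun n => ?_
  rw [oseq, oseq, Function.iterate_succ_apply']
  exact hx n

include hU in
theorem IsZ.le_shift {z : X → ℕ} (hz : IsZ m S U z) : ∀ᶠ x in (U : Filter X), z x ≤ z (S x) :=
  (hz.rk.lt_shift hU hz.meas hz.nb).mono fun _ h => h.le

include hS hU in
theorem IsZ.ae_monotone {z : X → ℕ} (hz : IsZ m S U z) :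
    ∀ᶠ x in (U : Filter X), Monotone (oseq S z x) :=
  Run7.h471.ae_monotone hS hU hz.meas (hz.le_shift hU)

theorem isZ_max {z z' : X → ℕ} (hz : IsZ m S U z) (hz' : IsZ m S U z') :
    IsZ m S U (fun x => max (z x) (z' x)) := by
  refine ⟨measurable_post2 hz.meas hz'.meas max, ?_, fun h => hz.nb (h.mono
    (Eventually.of_forall fun x => le_max_left _ _))⟩
  by_cases h : ∀ᶠ x in (U : Filter X), z x ≤ z' x
  · exact hz'.rk.mono_left (h.mono fun x hx => (max_eq_right hx).le)
  · exact hz.rk.mono_left ((Ultrafilter.eventually_not.2 h).mono fun x hx =>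
      (max_eq_left (not_le.1 hx).le).le)

include hU in
theorem bdd_of_shift {t : X → ℕ} (ht : Measurable[m] t) (h : Bdd U fun x => t (S x)) :
    Bdd U t := by
  obtain ⟨n, hn⟩ := h
  exact ⟨n, ae_of_shift hU (p := fun x => t x ≤ n) (measurableSet_rel1 ht (fun k => k ≤ n)) hn⟩

include hS hU in
/-- One step down. -/
theorem succ_step {γ : Ordinal.{0}} {f : X → ℕ} (h : Rk m S U (γ + 1) f) (h' : ¬ Rk m S U γ f) :
    ∃ t : X → ℕ, Measurable[m] t ∧ ¬ Bdd U t ∧ Rk m S U γ t ∧
      ∀ᶠ x in (U : Filter X), f x ≤ t (S (S x)) := by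
  rw [rk_iff] at h h'
  push Not at h'
  obtain ⟨t, ht, h1, h2, h3⟩ := h'
  have hlt : ∀ {δ : Ordinal.{0}}, δ < γ + 1 → δ ≤ γ := fun h => Order.lt_add_one_iff.1 h
  have h4 : Rk m S U γ t := by
    rcases h t ht h1 with h4 | ⟨δ, hδ, h4⟩
    · exact absurd h4 h2
    · exact h4.mono (hlt hδ)
  refine ⟨t, ht, h2, h4, ?_⟩
  by_contra hcon
  have hcon' : ∀ᶠ x in (U : Filter X), t (S (S x)) < f x :=
    (Ultrafilter.eventually_not.2 hcon).mono fun x hx => not_le.1 hx
  rcases h (fun x => t (S x)) (ht.comp hS) hcon' with h5 | ⟨δ, hδ, h5⟩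
  · exact h2 (bdd_of_shift hU ht h5)
  · have h6 := (h5.mono (hlt hδ)).comp hU (fun n => n + 1)
    rw [rk_iff] at h6
    rcases h6 t ht (Eventually.of_forall fun x => Nat.lt_succ_self _) with h7 | ⟨ε, hε, h7⟩
    · exact h2 h7
    · exact h3 ε hε h7

include hU in
/-- Shifting inside the fast growing function. -/
theorem hd_shift {o : ℕ → Ordinal.{0}} {α : Ordinal.{0}} (ho : ∃ i, o i = α) {z : X → ℕ}
    (hz : IsZ m S U z) :
    ∀ᶠ x in (U : Filter X), hd o α (oseq S z (S x)) = hd o (α + 1) (oseq S z x) := by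
  obtain ⟨i, hi⟩ := ho
  have h1 := not_bdd hz.nb i
  have h2 := ae_shift hU (p := fun x => i < z x) (measurableSet_rel1 hz.meas _) h1
  refine h2.mono fun x hx => ?_
  rw [hd_succ (ζ := oseq S z x) ⟨i, le_of_lt hx, hi⟩, oseq_succ]

/-- The maximum of the first functions of a sequence. -/
def ymax (z : ℕ → X → ℕ) : ℕ → X → ℕ
  | 0 => z 0
  | n + 1 => fun x => max (ymax z n x) (z (n + 1) x)

theorem le_ymax (z : ℕ → X → ℕ) (n : ℕ) (x : X) : z n x ≤ ymax z n x := by
  cases n with
  | zero => exact le_rfl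
  | succ n => exact le_max_right _ _

theorem ymax_mono (z : ℕ → X → ℕ) (x : X) : Monotone fun n => ymax z n x :=
  monotone_nat_of_le_succ fun _ => le_max_left _ _

theorem isZ_ymax {z : ℕ → X → ℕ} (hz : ∀ n, IsZ m S U (z n)) (n : ℕ) : IsZ m S U (ymax z n) := by
  induction n with
  | zero => exact hz 0
  | succ n ih => exact isZ_max ih (hz (n + 1))

include hS hU in
/-- The diagonal function is bounded by the double shift of a function of rank zero. -/
theorem diag_bound {y : ℕ → X → ℕ} (hy : ∀ n, IsZ m S U (y n))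
    (hy1 : ∀ n x, y n x ≤ y n (S x)) (hy2 : ∀ x, Monotone fun n => y n x) {K : X → ℕ}
    (hK : IsZ m S U K) :
    ∃ t : X → ℕ, IsZ m S U t ∧ ∀ᶠ x in (U : Filter X), y (K x) x ≤ t (S (S x)) := by
  classical
  have hm : Measurable[m] fun x => y (K x) x :=
    measurable_glue' (F := y) (fun n => (hy n).meas) hK.meas
  have hrk : Rk m S U (0 + 1) fun x => y (K x) x := by
    rw [rk_iff]
    intro g hg hlt
    by_cases hg0 : Rk m S U 0 g
    · exact Or.inr ⟨0, by simp, hg0⟩
    by_cases hgb : Bdd U g
    · exact Or.inl hgb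
    exfalso
    have hyg : ∀ n, ∀ᶠ x in (U : Filter X), y n x < g x := by
      intro n
      by_contra h
      exact hg0 ((hy n).rk.mono_left ((Ultrafilter.eventually_not.2 h).mono fun x hx => not_lt.1 hx))
    let L : X → ℕ := fun x => ((Finset.range (g x + 1)).filter (fun i => y i x < g x)).sup id
    have hLge : ∀ x n, n ≤ g x → y n x < g x → n ≤ L x := fun x n h1 h2 =>
      Finset.le_sup (f := id) (Finset.mem_filter.2 ⟨Finset.mem_range.2 (by omega), h2⟩)
    have hLy : ∀ x, y 0 x < g x → y (L x) x < g x := by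
      intro x hx
      have hne : ((Finset.range (g x + 1)).filter (fun i => y i x < g x)).Nonempty :=
        ⟨0, Finset.mem_filter.2 ⟨Finset.mem_range.2 (by omega), hx⟩⟩
      obtain ⟨i, hi, h1⟩ := Finset.exists_mem_eq_sup _ hne id
      have h2 : L x = i := h1
      rw [h2]
      exact (Finset.mem_filter.1 hi).2
    have hLm : Measurable[m] L := by
      have h1 : ∀ k, Measurable[m] fun x =>
          ((Finset.range (k + 1)).filter (fun i => y i x < g x)).sup id := by
        intro k
        refine measurable_of_Ici fun n => ?_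
        have : (fun x => ((Finset.range (k + 1)).filter (fun i => y i x < g x)).sup id) ⁻¹' Ici n =
            {x | n = 0} ∪ ⋃ i ∈ {i : ℕ | i ≤ k ∧ n ≤ i}, {x | y i x < g x} := by
          ext x
          simp only [mem_preimage, mem_Ici, mem_union, mem_ofPred_eq, mem_iUnion, exists_prop]
          rcases Nat.eq_zero_or_pos n with rfl | hn
          · simp
          · rw [Finset.le_sup_iff (by exact hn)]
            simp only [Finset.mem_filter, Finset.mem_range, id]
            constructor
            · rintro ⟨i, ⟨h2, h3⟩, h4⟩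
              exact Or.inr ⟨i, ⟨by omega, h4⟩, h3⟩
            · rintro (h2 | ⟨i, ⟨h2, h3⟩, h4⟩)
              · omega
              · exact ⟨i, ⟨by omega, h4⟩, h3⟩
        rw [this]
        exact (MeasurableSet.const _).union (MeasurableSet.biUnion (to_countable _) fun i _ =>
          measurableSet_rel (hy i).meas hg (fun a b => a < b))
      exact measurable_glue' (F := fun k x =>
        ((Finset.range (k + 1)).filter (fun i => y i x < g x)).sup id) h1 hg
    have hLb : ¬ Bdd U L := by
      rintro ⟨n, hn⟩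
      have h1 := hyg (n + 1)
      have h2 := not_bdd hgb (n + 1)
      obtain ⟨x, ⟨hx1, hx2⟩, hx3⟩ := ((h1.and h2).and hn).exists
      have := hLge x (n + 1) hx2.le hx1
      omega
    have hKL : ∀ᶠ x in (U : Filter X), K x ≤ L (S x) := by
      by_contra h
      exact hLb (rk_zero_iff.1 hK.rk L hLm ((Ultrafilter.eventually_not.2 h).mono
        fun x hx => not_le.1 hx))
    have hy0 := ae_shift hU (p := fun x => y 0 x < g x)
      (measurableSet_rel (hy 0).meas hg (fun a b => a < b)) (hyg 0)
    obtain ⟨x, ⟨hx1, hx2⟩, hx3⟩ := ((hKL.and hy0).and hlt).exists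
    have h1 : y (K x) x ≤ y (K x) (S x) := hy1 _ _
    have h2 : y (K x) (S x) ≤ y (L (S x)) (S x) := hy2 (S x) hx1
    have h3 := hLy (S x) hx2
    omega
  by_cases h0 : Rk m S U 0 fun x => y (K x) x
  · have hz : IsZ m S U fun x => y (K x) x := by
      refine ⟨hm, h0, fun hb => hK.nb ?_⟩
      obtain ⟨n, hn⟩ := exists_const hb
      exfalso
      have h1 := not_bdd (hy 0).nb n
      obtain ⟨x, hx1, hx2⟩ := (hn.and h1).exists
      have h2 : y 0 x ≤ y (K x) x := hy2 x (Nat.zero_le _)
      omega
    refine ⟨_, hz, ?_⟩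
    have h1 := hz.le_shift hU
    have h2 := ae_shift hU (p := fun x => y (K x) x ≤ y (K (S x)) (S x))
      (measurableSet_rel hm (hm.comp hS) (fun a b => a ≤ b)) h1
    exact (h1.and h2).mono fun x hx => hx.1.trans hx.2
  · obtain ⟨t, ht, h1, h2, h3⟩ := succ_step hS hU hrk h0
    exact ⟨t, ⟨ht, h2, h1⟩, h3⟩

end basic

end Run7.h471
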