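import Pool.Agent.Run7.h471.Bound

set_option autoImplicit false

/-!
# Functions of countable rank are bounded by fast growing functions: the theorem
-/

namespace Run7.h471

open Set MeasureTheory Filter Order

section basic

variable {X : Type} {m : MeasurableSpace X} {S : X → X} {U : Ultrafilter X}
variable (hS : Measurable[m, m] S)
  (hU : ∀ A : Set X, MeasurableSet[m] A → A ∈ U → S ⁻¹' A ∈ U)

include hS hU in
/-- Comparison of fast growing functions along almost all orbits. -/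
theorem hd_le {o : ℕ → Ordinal.{0}} {α α' : Ordinal.{0}} (hα : α ≤ α') {z z' : X → ℕ}
    (hz : Measurable[m] z) (hz' : IsZ m S U z') (h : ∀ᶠ x in (U : Filter X), z x ≤ z' x) :
    ∀ᶠ x in (U : Filter X), hd o α (oseq S z x) ≤ hd o α' (oseq S z' x) := by
  have h1 := ae_all hS hU (A := {x | z x ≤ z' x})
    (measurableSet_rel hz hz'.meas (fun a b => a ≤ b)) h
  exact (h1.and (hz'.ae_monotone hS hU)).mono fun x hx => hd_mono o α hα hx.2 hx.1

include hS hU in
theorem limit_step {β : Ordinal.{0}} (hβ : IsSuccLimit β) (hβc : (Iio β).Countable)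
    {o : ℕ → Ordinal.{0}} (ho : ∀ α ≤ 3 * (β + 1), ∃ i, o i = α)
    (hz0 : ∃ z, IsZ m S U z)
    (ih : ∀ γ < β, ∀ {f : X → ℕ}, Measurable[m] f → Rk m S U γ f →
      ∃ z, IsZ m S U z ∧ ∀ᶠ x in (U : Filter X), f x ≤ hd o (3 * (γ + 1)) (oseq S z x))
    {f : X → ℕ} (h : Rk m S U β f) (h' : ∀ γ < β, ¬ Rk m S U γ f) :
    ∃ z, IsZ m S U z ∧ ∀ᶠ x in (U : Filter X), f x ≤ hd o (3 * (β + 1)) (oseq S z x) := by
  classical
  have hne : (Iio β).Nonempty := ⟨0, by
    have := hβ.bot_lt
    simpa using this⟩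
  obtain ⟨e, he⟩ := hβc.exists_eq_range hne
  have heβ : ∀ n, e n < β := fun n => by
    have : e n ∈ Iio β := by rw [he]; exact ⟨n, rfl⟩
    exact this
  have hsur : ∀ γ < β, ∃ n, e n = γ := fun γ hγ => by
    have : γ ∈ Iio β := hγ
    rw [he] at this
    exact this
  have hsucc : ∀ γ < β, γ + 1 < β := fun γ hγ => by
    have := hβ.succ_lt hγ
    rwa [← Order.succ_eq_add_one]
  -- the functions `t n`
  have ht : ∀ n, ∃ t : X → ℕ, Measurable[m] t ∧ (∀ᶠ x in (U : Filter X), t (S x) < f x) ∧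
      ¬ Bdd U t ∧ ¬ Rk m S U (e n) t ∧
      ∃ z, IsZ m S U z ∧ ∀ᶠ x in (U : Filter X), t x ≤ hd o (3 * β) (oseq S z x) := by
    intro n
    have h1 := h' _ (hsucc _ (heβ n))
    rw [rk_iff] at h1
    push Not at h1
    obtain ⟨t, ht, h2, h3, h4⟩ := h1
    refine ⟨t, ht, h2, h3, h4 _ (Order.lt_add_one_iff.2 le_rfl), ?_⟩
    rw [rk_iff] at h
    rcases h t ht h2 with h5 | ⟨δ, hδ, h5⟩
    · exact absurd h5 h3
    · obtain ⟨z, hz, h6⟩ := ih δ hδ ht h5
      refine ⟨z, hz, ?_⟩
      have h7 : 3 * (δ + 1) ≤ 3 * β := mul_le_mul_right (hsucc δ hδ).le 3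
      have h8 := hd_le hS hU (o := o) h7 hz.meas hz (Eventually.of_forall fun _ => le_rfl)
      exact (h6.and h8).mono fun x hx => hx.1.trans hx.2
  choose t htm htf htb htr z hz htz using ht
  -- regularised functions
  let y : ℕ → X → ℕ := fun n => inff S (ymax z n)
  have hyZ' : ∀ n, IsZ m S U (ymax z n) := fun n => isZ_ymax hz n
  have hyae : ∀ n, ∀ᶠ x in (U : Filter X), ∀ j, y n (S^[j] x) = ymax z n (S^[j] x) := fun n =>
    ae_inff hS hU (hyZ' n).meas ((hyZ' n).le_shift hU)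
  have hym : ∀ n, Measurable[m] (y n) := fun n => measurable_inff hS (hyZ' n).meas
  have hyZ : ∀ n, IsZ m S U (y n) := fun n => by
    refine ⟨hym n, (hyZ' n).rk.mono_left ((hyae n).mono fun x hx => (hx 0).le), fun hb =>
      (hyZ' n).nb (hb.mono ((hyae n).mono fun x hx => (hx 0).ge))⟩
  have hy1 : ∀ n x, y n x ≤ y n (S x) := fun n x => inff_shift _ x
  have hy2 : ∀ x, Monotone fun n => y n x := fun x => monotone_nat_of_le_succ fun n =>
    inff_mono (fun x => le_max_left _ _) x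
  have hymono : ∀ n x, Monotone (oseq S (y n) x) := fun n x => monotone_nat_of_le_succ fun j => by
    rw [oseq, oseq, Function.iterate_succ_apply']
    exact hy1 n _
  let t' : ℕ → X → ℕ := fun n x => min (t n x) (hd o (3 * β) (oseq S (y n) x))
  have ht'm : ∀ n, Measurable[m] (t' n) := fun n =>
    measurable_post2 (htm n) (measurable_hd hS o _ (hym n)) min
  have ht'ae : ∀ n, ∀ᶠ x in (U : Filter X), t' n x = t n x := by
    intro n
    have h1 := hd_le hS hU (o := o) (le_refl (3 * β)) (hz n).meas (hyZ n)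
      ((hyae n).mono fun x hx => (le_ymax z n x).trans (hx 0).ge)
    exact ((htz n).and h1).mono fun x hx => min_eq_left (hx.1.trans hx.2)
  obtain ⟨z0, hz0⟩ := hz0
  let K : X → ℕ := inff S z0
  have hKae : ∀ᶠ x in (U : Filter X), ∀ j, K (S^[j] x) = z0 (S^[j] x) :=
    ae_inff hS hU hz0.meas (hz0.le_shift hU)
  have hKZ : IsZ m S U K := by
    refine ⟨measurable_inff hS hz0.meas, hz0.rk.mono_left (hKae.mono fun x hx => (hx 0).le),
      fun hb => hz0.nb (hb.mono (hKae.mono fun x hx => (hx 0).ge))⟩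
  have hK1 : ∀ x, K x ≤ K (S x) := fun x => inff_shift _ x
  have hKmono : ∀ x, Monotone (oseq S K x) := fun x => monotone_nat_of_le_succ fun j => by
    rw [oseq, oseq, Function.iterate_succ_apply']
    exact hK1 _
  let T : X → ℕ := fun x => (Finset.range (K x + 1)).sup (fun i => t' i x)
  have hTm : Measurable[m] T := by
    have h1 : ∀ k, Measurable[m] fun x => (Finset.range k).sup (fun i => t' i x) := by
      intro k
      induction k with
      | zero => simp only [Finset.range_zero, Finset.sup_empty]; exact measurable_const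
      | succ k ihk =>
        have : (fun x => (Finset.range (k + 1)).sup (fun i => t' i x)) =
            fun x => max (t' k x) ((Finset.range k).sup (fun i => t' i x)) := by
          funext x
          rw [Finset.range_add_one, Finset.sup_insert]
        rw [this]
        exact measurable_post2 (ht'm k) ihk max
    exact measurable_glue' (F := fun k x => (Finset.range (k + 1)).sup (fun i => t' i x))
      (fun k => h1 (k + 1)) hKZ.meas
  have htT : ∀ n, ∀ᶠ x in (U : Filter X), t n x ≤ T x := by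
    intro n
    refine ((ht'ae n).and (not_bdd hKZ.nb n)).mono fun x hx => ?_
    rw [← hx.1]
    exact Finset.le_sup (f := fun i => t' i x) (Finset.mem_range.2 (by have := hx.2; omega))
  have hTb : ¬ Bdd U T := fun hb => htb 0 (hb.mono (htT 0))
  have hTr : ∀ δ < β, ¬ Rk m S U δ T := by
    intro δ hδ hr
    obtain ⟨n, rfl⟩ := hsur δ hδ
    exact htr n (hr.mono_left (htT n))
  have hfT : ∀ᶠ x in (U : Filter X), f x ≤ T (S x) := by
    by_contra hcon
    rw [rk_iff] at h
    rcases h T hTm ((Ultrafilter.eventually_not.2 hcon).mono fun x hx => not_le.1 hx) with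
      h1 | ⟨δ, hδ, h1⟩
    · exact hTb h1
    · exact hTr δ hδ h1
  let w : X → ℕ := fun x => y (K x) x
  have hTw : ∀ x, T x ≤ hd o (3 * β) (oseq S w x) := by
    intro x
    refine Finset.sup_le fun i hi => ?_
    have hi' : i ≤ K x := Nat.lt_succ_iff.1 (Finset.mem_range.1 hi)
    refine (min_le_right _ _).trans (hd_mono o _ le_rfl ?_ ?_)
    · refine monotone_nat_of_le_succ fun j => ?_
      rw [oseq, oseq, Function.iterate_succ_apply']
      exact (hy1 _ _).trans (hy2 _ (hK1 _))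
    · intro j
      exact hy2 (S^[j] x) (hi'.trans (hKmono x (Nat.zero_le j)))
  obtain ⟨s, hs, hws⟩ := diag_bound hS hU hyZ hy1 hy2 hKZ
  have hwm : Measurable[m] w := measurable_glue' (F := y) hym hKZ.meas
  refine ⟨s, hs, ?_⟩
  -- `f ≤ hd (3 * β) (w ∘ S) ≤ hd (3 * β) (s ∘ S ∘ S ∘ S) = hd (3 * β + 3) s`
  have hle3 : 3 * β + 3 ≤ 3 * (β + 1) := by rw [mul_add, mul_one]
  have hcode : ∀ k : ℕ, k ≤ 3 → ∃ i, o i = 3 * β + (k : Ordinal.{0}) := by
    intro k hk
    refine ho _ (le_trans ?_ hle3)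
    gcongr
    exact_mod_cast hk
  have e1 : ∀ᶠ x in (U : Filter X), ∀ j, w (S^[j] x) ≤ s (S (S (S^[j] x))) :=
    ae_all hS hU (A := {x | w x ≤ s (S (S x))})
      (measurableSet_rel hwm (hs.meas.comp (hS.comp hS)) (fun a b => a ≤ b)) hws
  have e2 : ∀ᶠ x in (U : Filter X), hd o (3 * β) (oseq S w x) ≤
      hd o (3 * β) (oseq S s (S (S x))) := by
    have e3 := hs.ae_monotone hS hU
    refine (e1.and e3).mono fun x hx => hd_mono o _ le_rfl ?_ fun j => ?_
    · intro a b hab
      have h1 : ∀ i, oseq S s (S (S x)) i = oseq S s x (i + 2) := fun i => by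
        rw [oseq, oseq, Function.iterate_succ_apply, Function.iterate_succ_apply]
      rw [h1, h1]
      exact hx.2 (by omega)
    · have h1 := hx.1 j
      rw [← Function.iterate_succ_apply' S j x, ← Function.iterate_succ_apply' S (j + 1) x,
        Function.iterate_succ_apply, Function.iterate_succ_apply] at h1
      exact h1
  have mh : ∀ α, Measurable[m] fun x => hd o α (oseq S s x) := fun α =>
    measurable_hd hS o α hs.meas
  have mw : Measurable[m] fun x => hd o (3 * β) (oseq S w x) := measurable_hd hS o _ hwm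
  have e2' : ∀ᶠ x in (U : Filter X), hd o (3 * β) (oseq S w (S x)) ≤
      hd o (3 * β) (oseq S s (S (S (S x)))) :=
    ae_shift hU (p := fun x => hd o (3 * β) (oseq S w x) ≤ hd o (3 * β) (oseq S s (S (S x))))
      (measurableSet_rel mw ((mh _).comp (hS.comp hS)) (fun a b => a ≤ b)) e2
  have f0 := hd_shift hU (o := o) (α := 3 * β) (by simpa using hcode 0 (by norm_num)) hs
  have f1 := hd_shift hU (o := o) (α := 3 * β + 1) (by simpa using hcode 1 (by norm_num)) hs
  have f2 := hd_shift hU (o := o) (α := 3 * β + 2) (by simpa using hcode 2 (by norm_num)) hs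
  have f0' := ae_shift hU
    (p := fun x => hd o (3 * β) (oseq S s (S x)) = hd o (3 * β + 1) (oseq S s x))
    (measurableSet_rel ((mh _).comp hS) (mh _) (fun a b => a = b)) f0
  have f0'' := ae_shift hU
    (p := fun x => hd o (3 * β) (oseq S s (S (S x))) = hd o (3 * β + 1) (oseq S s (S x)))
    (measurableSet_rel ((mh _).comp (hS.comp hS)) ((mh _).comp hS) (fun a b => a = b)) f0'
  have f1' := ae_shift hU
    (p := fun x => hd o (3 * β + 1) (oseq S s (S x)) = hd o (3 * β + 1 + 1) (oseq S s x))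
    (measurableSet_rel ((mh _).comp hS) (mh _) (fun a b => a = b)) f1
  have a1 : 3 * β + 1 + 1 = 3 * β + 2 := by rw [add_assoc]; norm_num
  have a2 : 3 * β + 2 + 1 = 3 * β + 3 := by rw [add_assoc]; norm_num
  have f3 := hd_le hS hU (o := o) hle3 hs.meas hs (Eventually.of_forall fun _ => le_rfl)
  refine ((((hfT.and e2').and f0'').and (f1'.and f2)).and f3).mono fun x hx => ?_
  obtain ⟨⟨⟨⟨g1, g2⟩, g3⟩, g4, g5⟩, g6⟩ := hx
  calc f x ≤ T (S x) := g1
    _ ≤ hd o (3 * β) (oseq S w (S x)) := hTw _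
    _ ≤ hd o (3 * β) (oseq S s (S (S (S x)))) := g2
    _ = hd o (3 * β + 1) (oseq S s (S (S x))) := g3
    _ = hd o (3 * β + 2) (oseq S s (S x)) := by rw [g4, a1]
    _ = hd o (3 * β + 3) (oseq S s x) := by rw [g5, a2]
    _ ≤ hd o (3 * (β + 1)) (oseq S s x) := g6

include hS hU in
/-- Functions of countable rank are bounded by fast growing functions of rank zero functions. -/
theorem hardy_bound {β : Ordinal.{0}} : (Iio β).Countable → ∀ {o : ℕ → Ordinal.{0}},
    (∀ α ≤ 3 * (β + 1), ∃ i, o i = α) → (∃ z, IsZ m S U z) →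
    ∀ {f : X → ℕ}, Measurable[m] f → Rk m S U β f →
      ∃ z, IsZ m S U z ∧ ∀ᶠ x in (U : Filter X), f x ≤ hd o (3 * (β + 1)) (oseq S z x) := by
  induction β using WellFoundedLT.induction with
  | ind β ih =>
  intro hβc o ho hz0 f hf h
  have hcs : ∀ γ < β, (Iio γ).Countable := fun γ hγ => hβc.mono (Iio_subset_Iio hγ.le)
  have hos : ∀ γ < β, ∀ α ≤ 3 * (γ + 1), ∃ i, o i = α := fun γ hγ α hα =>
    ho α (hα.trans (mul_le_mul_right (add_le_add_left hγ.le 1) 3))
  by_cases hlow : ∃ γ < β, Rk m S U γ f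
  · obtain ⟨γ, hγ, h1⟩ := hlow
    obtain ⟨z, hz, h2⟩ := ih γ hγ (hcs γ hγ) (hos γ hγ) hz0 hf h1
    refine ⟨z, hz, ?_⟩
    have h3 := hd_le hS hU (o := o) (mul_le_mul_right (add_le_add_left hγ.le 1) 3) hz.meas hz
      (Eventually.of_forall fun _ => le_rfl)
    exact (h2.and h3).mono fun x hx => hx.1.trans hx.2
  push Not at hlow
  rcases Ordinal.zero_or_succ_or_isSuccLimit β with h0 | ⟨γ, hγ⟩ | hlim
  · subst h0
    have key : ∃ z, IsZ m S U z ∧ ∀ᶠ x in (U : Filter X), f x ≤ z x := by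
      by_cases hb : Bdd U f
      · obtain ⟨z, hz⟩ := hz0
        obtain ⟨n, hn⟩ := hb
        exact ⟨z, hz, (hn.and (not_bdd hz.nb n)).mono fun x hx => hx.1.trans hx.2.le⟩
      · exact ⟨f, ⟨hf, h, hb⟩, Eventually.of_forall fun _ => le_rfl⟩
    obtain ⟨z, hz, h1⟩ := key
    exact ⟨z, hz, (h1.and (hz.ae_monotone hS hU)).mono fun x hx => hx.1.trans (le_hd o _ hx.2)⟩
  · have hγ' : γ + 1 = β := by rw [← hγ, Order.succ_eq_add_one]
    subst hγ'
    have hlt : γ < γ + 1 := Order.lt_add_one_iff.2 le_rfl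
    obtain ⟨t, ht, h1, h2, h3⟩ := succ_step hS hU h (hlow γ hlt)
    obtain ⟨z, hz, h4⟩ := ih γ hlt (hcs γ hlt) (hos γ hlt) hz0 ht h2
    refine ⟨z, hz, ?_⟩
    have mh : ∀ α, Measurable[m] fun x => hd o α (oseq S z x) := fun α =>
      measurable_hd hS o α hz.meas
    have h4' := ae_shift hU (p := fun x => t x ≤ hd o (3 * (γ + 1)) (oseq S z x))
      (measurableSet_rel ht (mh _) (fun a b => a ≤ b)) h4
    have h4'' := ae_shift hU (p := fun x => t (S x) ≤ hd o (3 * (γ + 1)) (oseq S z (S x)))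
      (measurableSet_rel (ht.comp hS) ((mh _).comp hS) (fun a b => a ≤ b)) h4'
    have hle3 : 3 * (γ + 1) + 3 ≤ 3 * (γ + 1 + 1) := by rw [mul_add 3 (γ + 1) 1, mul_one]
    have hle2 : 3 * (γ + 1) + 1 + 1 ≤ 3 * (γ + 1 + 1) := by
      refine le_trans ?_ hle3
      rw [add_assoc]
      gcongr
      norm_num
    have f0 := hd_shift hU (o := o) (α := 3 * (γ + 1))
      (ho _ (mul_le_mul_right (Order.lt_add_one_iff.2 le_rfl).le 3)) hz
    have f1 := hd_shift hU (o := o) (α := 3 * (γ + 1) + 1)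
      (ho _ (le_trans (Order.lt_add_one_iff.2 le_rfl).le hle2)) hz
    have f0' := ae_shift hU
      (p := fun x => hd o (3 * (γ + 1)) (oseq S z (S x)) = hd o (3 * (γ + 1) + 1) (oseq S z x))
      (measurableSet_rel ((mh _).comp hS) (mh _) (fun a b => a = b)) f0
    have f3 := hd_le hS hU (o := o) hle2 hz.meas hz (Eventually.of_forall fun _ => le_rfl)
    refine (((h3.and h4'').and (f0'.and f1)).and f3).mono fun x hx => ?_
    obtain ⟨⟨⟨g1, g2⟩, g3, g4⟩, g5⟩ := hx
    calc f x ≤ t (S (S x)) := g1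
      _ ≤ hd o (3 * (γ + 1)) (oseq S z (S (S x))) := g2
      _ = hd o (3 * (γ + 1) + 1) (oseq S z (S x)) := g3
      _ = hd o (3 * (γ + 1) + 1 + 1) (oseq S z x) := g4
      _ ≤ _ := g5
  · exact limit_step hS hU hlim hβc ho hz0
      (fun γ hγ f hf hr => ih γ hγ (hcs γ hγ) (hos γ hγ) hz0 hf hr) h hlow

end basic

end Run7.h471
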