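import Pool.Agent.Run7.h471.Ultra2

set_option autoImplicit false

/-!
# Characterisation of the Borel homomorphisms of the shift graph by ranks of ultrafilters
-/

namespace Run7.h471

open Set Filter Topology MeasureTheory

/-- A Borel homomorphism from the whole shift graph gives an equivariant one. -/
theorem exists_equivariant {B : Set Inc} (h : BorelHom univ B) :
    ∃ Ψ : Inc → Inc, Measurable Ψ ∧ (∀ x, Ψ x ∈ B) ∧ ∀ x, Ψ (shift x) = shift (Ψ x) := by
  obtain ⟨f, hf, hfP, hfa⟩ := h
  let F : Inc → Inc := fun x => f ⟨x, mem_univ x⟩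
  have hF : Measurable F := hf.comp (measurable_id.subtype_mk)
  have hFa : ∀ x, F (shift x) = shift (F x) ∨ F x = shift (F (shift x)) := fun x =>
    hfa ⟨x, mem_univ x⟩ ⟨shift x, mem_univ _⟩ (Or.inl rfl)
  have hU1 : MeasurableSet {x | F (shift x) = shift (F x)} :=
    measurableSet_eq_fun (hF.comp measurable_shift) (measurable_shift.comp hF)
  obtain ⟨a, -, ha⟩ := galvin_prikry hU1 default
  have ha' : ∀ x, F (shift (sub a x)) = shift (F (sub a x)) := by
    rcases ha with ha | ha
    · exact ha
    · exfalso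
      have h1 : ∀ x, F (sub a x) = shift (F (sub a (shift x))) := fun x =>
        (hFa (sub a x)).resolve_left (ha x)
      have h2 : ∀ k x, F (sub a x) = shift^[k] (F (sub a (shift^[k] x))) := by
        intro k
        induction k with
        | zero => intro x; rfl
        | succ k ih =>
          intro x
          rw [ih x, h1 (shift^[k] x), ← Function.iterate_succ_apply' shift k x,
            ← Function.iterate_succ_apply shift k]
      have h3 : ∀ k, k ≤ (F (sub a default)).1 0 := by
        intro k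
        rw [h2 k default, shift_iter_apply]
        exact (F (sub a (shift^[k] default))).2.id_le (k + 0)
      have := h3 ((F (sub a default)).1 0 + 1)
      omega
  exact ⟨fun x => F (sub a x), hF.comp (measurable_sub a), fun x => hfP _, fun x => ha' x⟩

/-- The direction from homomorphisms to ultrafilters. -/
theorem ultrafilter_of_hom {B : Set Inc} (h : BorelHom univ B) :
    ∃ U : Ultrafilter Inc, B ∈ U ∧
      (∀ A : Set Inc, MeasurableSet A → A ∈ U → shift ⁻¹' A ∈ U) ∧
      ∀ f : Inc → ℕ, Measurable f → ∃ β : Ordinal.{0}, (Iio β).Countable ∧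
        Rk inferInstance shift U β f := by
  obtain ⟨Ψ, hΨ, hΨB, hΨS⟩ := exists_equivariant h
  refine ⟨W0.map Ψ, ?_, fun A hA hAU => ?_, fun f hf => ?_⟩
  · rw [Ultrafilter.mem_map]
    have : Ψ ⁻¹' B = univ := by
      ext x
      simpa using hΨB x
    rw [this]
    exact univ_mem
  · rw [Ultrafilter.mem_map] at hAU ⊢
    have h1 := W0_shift _ (hΨ hA) hAU
    have h2 : Ψ ⁻¹' (shift ⁻¹' A) = shift ⁻¹' (Ψ ⁻¹' A) := by
      ext x
      simp only [mem_preimage, hΨS]
    rw [h2]
    exact h1
  · obtain ⟨β, hβ, hr⟩ := exists_rank (hf.comp hΨ)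
    exact ⟨β, hβ, Rk.map hΨ hΨS hr⟩

/-- The direction from ultrafilters to homomorphisms. -/
theorem hom_of_ultrafilter {B : Set Inc} (hB : Invariant B) (hBm : MeasurableSet[borel Inc] B)
    {m : MeasurableSpace Inc} (hm : borel Inc ≤ m)
    (hS : Measurable[m, m] shift) {U : Ultrafilter Inc} (hBU : B ∈ U)
    (hU : ∀ A : Set Inc, MeasurableSet[m] A → A ∈ U → shift ⁻¹' A ∈ U)
    (hr : ∀ f : Inc → ℕ, Measurable[borel Inc] f → ∃ β : Ordinal.{0}, (Iio β).Countable ∧
      Rk m shift U β f) : BorelHom univ B := by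
  have hb : (Subtype.instMeasurableSpace : MeasurableSpace Inc) = borel Inc :=
    BorelSpace.measurable_eq
  rw [← hb] at hBm hm hr
  obtain ⟨v, hvm, hv, h1, h2⟩ := reduction' hB hBm
  have hD : ∀ a b, rel B v a b → a < b := by
    rintro a b ⟨x, -, rfl, rfl⟩
    exact hv x
  obtain ⟨β, hβ, hrv⟩ := hr v hvm
  have hvm' : Measurable[m] v := fun T hT => hm _ (hvm hT)
  have h3 := array_of_rank hS hU (D := rel B v) hvm'
    (mem_of_superset hBU fun x hx => ⟨x, hx, rfl, rfl⟩) hβ hrv
  exact ((hom_iff hD).2 h3).trans h2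

end Run7.h471
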