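import Pool.Agent.Run7.h471.Proj

set_option autoImplicit false

/-!
# Coding the points of a Borel set by natural numbers
-/

namespace Run7.h471

open Set MeasureTheory Filter Topology Pool.Agent.W923.BH

/-! ### A Borel code with the closure property -/

theorem exists_code_polish (Y : Type) [TopologicalSpace Y] [PolishSpace Y] [MeasurableSpace Y]
    [BorelSpace Y] [Nonempty Y] : ∃ w : Y → ℕ → ℕ, (∀ i, Measurable fun y => w y i) ∧
    ∀ x : ℕ → Y, (∀ i, ∃ n, ∀ᶠ j in atTop, w (x j) i = n) → ∃ z, Tendsto x atTop (𝓝 z) := by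
  classical
  let _ := TopologicalSpace.upgradeIsCompletelyMetrizable Y
  let b : ℕ → Y := TopologicalSpace.denseSeq Y
  have hb : ∀ (y : Y) (i : ℕ), ∃ n, dist y (b n) < (1 / 2 : ℝ) ^ i := fun y i =>
    (TopologicalSpace.denseRange_denseSeq Y).exists_dist_lt y (by positivity)
  refine ⟨fun y i => Nat.find (hb y i), fun i => ?_, fun x hx => ?_⟩
  · refine measurable_find _ fun k => ?_
    have : IsOpen {y : Y | dist y (b k) < (1 / 2 : ℝ) ^ i} := Metric.isOpen_ball
    exact this.measurableSet
  · refine cauchySeq_tendsto_of_complete ?_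
    rw [Metric.cauchySeq_iff]
    intro ε hε
    obtain ⟨i, hi⟩ := exists_pow_lt_of_lt_one (half_pos hε) (by norm_num : (1 / 2 : ℝ) < 1)
    obtain ⟨n, hn⟩ := hx i
    obtain ⟨N, hN⟩ := eventually_atTop.1 hn
    have h1 : ∀ j ≥ N, dist (x j) (b n) < (1 / 2 : ℝ) ^ i := by
      intro j hj
      have := Nat.find_spec (hb (x j) i)
      rwa [show Nat.find (hb (x j) i) = n from hN j hj] at this
    refine ⟨N, fun j hj k hk => ?_⟩
    have h2 := dist_triangle_right (x j) (x k) (b n)
    linarith [h1 j hj, h1 k hk]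

theorem exists_code' {Y : Type} [tY : TopologicalSpace Y] [hY : PolishSpace Y]
    [mY : MeasurableSpace Y] [hbY : BorelSpace Y] [Nonempty Y] {B : Set Y}
    (hB : MeasurableSet B) : ∃ w : Y → ℕ → ℕ,
    (∀ i, Measurable fun y => w y i) ∧ ∀ x : ℕ → Y, (∀ j, x j ∈ B) →
    (∀ i, ∃ n, ∀ᶠ j in atTop, w (x j) i = n) → ∃ z ∈ B, Tendsto x atTop (𝓝 z) := by
  obtain ⟨t', ht', hp, hcl, -⟩ := hB.isClopenable
  have hbs : @BorelSpace Y t' mY := by
    refine @BorelSpace.mk Y t' mY ?_
    have h1 : @borel Y t' = @borel Y tY := @borel_eq_borel_of_le Y t' tY hp hY ht'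
    rw [h1]
    exact hbY.measurable_eq
  obtain ⟨w, hw, hwx⟩ := @exists_code_polish Y t' hp mY hbs _
  refine ⟨w, hw, fun x hx h => ?_⟩
  obtain ⟨z, hz⟩ := hwx x h
  refine ⟨z, ?_, hz.mono_right (nhds_mono ht')⟩
  exact @IsClosed.mem_of_tendsto Y t' ℕ z B x atTop _ hcl hz (Eventually.of_forall hx)

theorem exists_code {B : Set Inc} (hB : MeasurableSet B) : ∃ w : Inc → ℕ → ℕ,
    (∀ i, Measurable fun y => w y i) ∧ ∀ x : ℕ → Inc, (∀ j, x j ∈ B) →
    (∀ i, ∃ n, ∀ᶠ j in atTop, w (x j) i = n) → ∃ z ∈ B, Tendsto x atTop (𝓝 z) :=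
  exists_code' hB

/-! ### Adding finitely many elements -/

theorem inc_eq_of_range {x y : Inc} (h : range x.1 = range y.1) : x = y :=
  Subtype.ext ((StrictMono.range_inj x.2 y.2).1 h)

theorem infinite_range (x : Inc) : (range x.1).Infinite :=
  infinite_range_of_injective x.2.injective

/-- Adding the elements of the finite set `s` to `y`. -/
noncomputable def pre (s : Finset ℕ) (y : Inc) : Inc :=
  ⟨enum (↑s ∪ range y.1), enum_strictMono ((infinite_range y).mono subset_union_right)⟩

theorem range_pre (s : Finset ℕ) (y : Inc) : range (pre s y).1 = ↑s ∪ range y.1 :=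
  range_enum ((infinite_range y).mono subset_union_right)

theorem pre_empty (y : Inc) : pre ∅ y = y := inc_eq_of_range (by rw [range_pre]; simp)

theorem pre_pre (s t : Finset ℕ) (y : Inc) : pre s (pre t y) = pre (s ∪ t) y :=
  inc_eq_of_range (by rw [range_pre, range_pre, range_pre, Finset.coe_union, union_assoc])

theorem range_shift (x : Inc) : range x.1 = {x.1 0} ∪ range (shift x).1 := by
  ext n
  constructor
  · rintro ⟨k, rfl⟩
    rcases k with _ | k
    · exact Or.inl rfl
    · exact Or.inr ⟨k, rfl⟩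
  · rintro (h | ⟨k, rfl⟩)
    · exact ⟨0, h.symm⟩
    · exact ⟨k + 1, rfl⟩

theorem pre_insert_shift (s : Finset ℕ) (x : Inc) : pre (insert (x.1 0) s) (shift x) = pre s x := by
  apply inc_eq_of_range
  rw [range_pre, range_pre, range_shift x, Finset.coe_insert, insert_eq]
  ext n
  simp only [mem_union, mem_singleton_iff]
  tauto

theorem pre_mem_iff {B : Set Inc} (hB : Invariant B) (s : Finset ℕ) (y : Inc) :
    pre s y ∈ B ↔ y ∈ B := by
  have h : E0 (pre s y) y := by
    unfold E0
    rw [range_pre]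
    refine s.finite_toSet.subset ?_
    rintro n (⟨h1, h2⟩ | ⟨h1, h2⟩)
    · exact h1.resolve_right h2
    · exact absurd (Or.inr h1) h2
  exact ⟨hB _ _ h, hB _ _ h.symm⟩

theorem enum_eq_iff {A : Set ℕ} (hA : A.Infinite) (k m : ℕ) [DecidablePred (· ∈ A)] :
    enum A k = m ↔ m ∈ A ∧ Nat.count (· ∈ A) m = k := by
  constructor
  · rintro rfl
    exact ⟨Nat.nth_mem_of_infinite hA k, Nat.count_nth_of_infinite (p := (· ∈ A)) hA k⟩
  · rintro ⟨h1, rfl⟩
    exact Nat.nth_count h1

theorem measurable_pre (s : Finset ℕ) : Measurable (pre s) := by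
  classical
  have hmem : ∀ m, MeasurableSet {x : Inc | m ∈ (↑s ∪ range x.1 : Set ℕ)} := by
    intro m
    have : {x : Inc | m ∈ (↑s ∪ range x.1 : Set ℕ)} = {x : Inc | m ∈ (s : Set ℕ)} ∪
        ⋃ j, {x : Inc | x.1 j = m} := by
      ext x; simp
    rw [this]
    exact (MeasurableSet.const _).union
      (MeasurableSet.iUnion fun j => measurable_coord j (measurableSet_singleton m))
  have hcount : ∀ m, Measurable fun x : Inc => Nat.count (· ∈ (↑s ∪ range x.1 : Set ℕ)) m := by
    intro m
    induction m with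
    | zero => simp only [Nat.count_zero]; exact measurable_const
    | succ m ih =>
      simp only [Nat.count_succ]
      exact ih.add (Measurable.ite (hmem m) measurable_const measurable_const)
  refine Measurable.subtype_mk (measurable_pi_lambda _ fun k => ?_)
  refine measurable_to_countable' fun m => ?_
  have : (fun x : Inc => enum (↑s ∪ range x.1 : Set ℕ) k) ⁻¹' {m} =
      {x : Inc | m ∈ (↑s ∪ range x.1 : Set ℕ)} ∩
      (fun x : Inc => Nat.count (· ∈ (↑s ∪ range x.1 : Set ℕ)) m) ⁻¹' {k} := by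
    ext x
    exact enum_eq_iff ((infinite_range x).mono subset_union_right) k m
  rw [this]
  exact (hmem m).inter (hcount m (measurableSet_singleton k))

/-! ### Gluing and tables -/

theorem measurable_glue {X Z : Type} [MeasurableSpace X] [MeasurableSpace Z] {F : ℕ → X → Z}
    (hF : ∀ k, Measurable (F k)) {n : X → ℕ} (hn : Measurable n) :
    Measurable fun x => F (n x) x := by
  intro S hS
  have : (fun x => F (n x) x) ⁻¹' S = ⋃ k, (n ⁻¹' {k} ∩ F k ⁻¹' S) := by
    ext x; simp
  rw [this]
  exact MeasurableSet.iUnion fun k => (hn (measurableSet_singleton k)).inter (hF k hS)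

theorem exists_table {X ι : Type} [MeasurableSpace X] {n : X → ℕ} (hn : Measurable n)
    (J : ℕ → Finset ι) {g : ι → X → ℕ} (hg : ∀ j, Measurable (g j)) :
    ∃ e : X → ℕ, Measurable e ∧
      ∀ x x', e x = e x' → n x = n x' ∧ ∀ j ∈ J (n x), g j x = g j x' := by
  have hE : ∀ k, ∃ E : (J k → ℕ) → ℕ, Function.Injective E := fun k => exists_injective_nat _
  choose E hEi using hE
  refine ⟨fun x => Nat.pair (n x) (E (n x) (fun j => g j x)), ?_, ?_⟩
  · have h1 : ∀ k, Measurable fun x : X => Nat.pair k (E k (fun j => g j x)) := by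
      intro k
      have h2 : Measurable fun x : X => (fun j : J k => g j x) :=
        measurable_pi_lambda _ fun j => hg j
      have h3 : Measurable fun f : J k → ℕ => Nat.pair k (E k f) := measurable_of_countable _
      exact h3.comp h2
    exact measurable_glue (F := fun k x => Nat.pair k (E k (fun j => g j x))) h1 hn
  · intro x x' h
    obtain ⟨h1, h2⟩ := Nat.pair_eq_pair.1 h
    refine ⟨h1, fun j hj => ?_⟩
    have key : ∀ a b : ℕ, a = b → E a (fun j => g j x) = E b (fun j => g j x') →
        ∀ j ∈ J a, g j x = g j x' := by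
      rintro a _ rfl h3 j hj
      exact congrFun (hEi a h3) ⟨j, hj⟩
    exact key _ _ h1 h2 j hj

/-! ### A dominating function increasing along the shift -/

theorem exists_dominating {e : Inc → ℕ} (he : Measurable e) :
    ∃ K : Inc → ℕ, Measurable K ∧ (∀ y, e y < K y) ∧ ∀ y, K y < K (shift y) := by
  classical
  refine ⟨fun y => ∑ r ∈ (Finset.range (y.1 0)).powerset, (e (pre r y) + 1), ?_, ?_, ?_⟩
  · refine measurable_glue (F := fun k (y : Inc) =>
      ∑ r ∈ (Finset.range k).powerset, (e (pre r y) + 1)) (fun k => ?_) (measurable_coord 0)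
    exact Finset.measurable_sum _ fun r _ => (he.comp (measurable_pre r)).add_const 1
  · intro y
    have h1 : e (pre ∅ y) + 1 ≤ ∑ r ∈ (Finset.range (y.1 0)).powerset, (e (pre r y) + 1) :=
      Finset.single_le_sum (f := fun r => e (pre r y) + 1) (fun _ _ => Nat.zero_le _)
        (Finset.empty_mem_powerset _)
    rw [pre_empty] at h1
    exact h1
  · intro y
    have hinj : Set.InjOn (fun r : Finset ℕ => insert (y.1 0) r)
        ((Finset.range (y.1 0)).powerset : Set (Finset ℕ)) := by
      intro r hr r' hr' h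
      have hr1 : y.1 0 ∉ r := fun h => by
        have := Finset.mem_powerset.1 hr h
        simp at this
      have hr2 : y.1 0 ∉ r' := fun h => by
        have := Finset.mem_powerset.1 hr' h
        simp at this
      have h3 : (insert (y.1 0) r).erase (y.1 0) = (insert (y.1 0) r').erase (y.1 0) := by
        simp only at h
        rw [h]
      rwa [Finset.erase_insert hr1, Finset.erase_insert hr2] at h3
    have h1 : ∑ r ∈ (Finset.range (y.1 0)).powerset, (e (pre r y) + 1) =
        ∑ r ∈ (Finset.range (y.1 0)).powerset.image (fun r => insert (y.1 0) r),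
          (e (pre r (shift y)) + 1) := by
      rw [Finset.sum_image hinj]
      exact Finset.sum_congr rfl fun r _ => by rw [pre_insert_shift]
    have hlt : y.1 0 < y.1 1 := y.2 Nat.zero_lt_one
    show ∑ r ∈ (Finset.range (y.1 0)).powerset, (e (pre r y) + 1) <
      ∑ r ∈ (Finset.range (y.1 1)).powerset, (e (pre r (shift y)) + 1)
    rw [h1]
    refine Finset.sum_lt_sum_of_subset (i := ∅) ?_ (Finset.empty_mem_powerset _) ?_ ?_ ?_
    · intro r hr
      obtain ⟨r', hr', rfl⟩ := Finset.mem_image.1 hr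
      refine Finset.mem_powerset.2 (Finset.insert_subset (Finset.mem_range.2 hlt) ?_)
      exact (Finset.mem_powerset.1 hr').trans (Finset.range_mono hlt.le)
    · intro h
      obtain ⟨r', -, hr'⟩ := Finset.mem_image.1 h
      exact Finset.insert_ne_empty _ _ hr'
    · exact Nat.succ_pos _
    · exact fun _ _ _ => Nat.zero_le _

/-! ### The code -/

/-- The main coding lemma. -/
theorem exists_v {w : Inc → ℕ → ℕ} (hw : ∀ i, Measurable fun y => w y i) :
    ∃ v : Inc → ℕ, Measurable v ∧ (∀ y, v y < v (shift y)) ∧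
      ∀ y y', v y = v y' → y.1 0 = y'.1 0 ∧
        ∀ s : Finset ℕ, (∀ m ∈ s, m < y.1 0) → ∀ i ≤ y.1 0, w (pre s y) i = w (pre s y') i := by
  classical
  obtain ⟨e, he, hee⟩ := exists_table (measurable_coord 0)
    (fun n => (Finset.range n).powerset ×ˢ Finset.range (n + 1))
    (g := fun (p : Finset ℕ × ℕ) (y : Inc) => w (pre p.1 y) p.2)
    (fun p => (hw p.2).comp (measurable_pre p.1))
  obtain ⟨K, hK, hKe, hKs⟩ := exists_dominating he
  have hpair : ∀ y, Nat.pair (K y) (e y) = K y * K y + K y + e y := by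
    intro y
    rw [Nat.pair, if_neg (not_lt.2 (hKe y).le)]
  refine ⟨fun y => Nat.pair (K y) (e y), ?_, ?_, ?_⟩
  · exact (measurable_of_countable fun p : ℕ × ℕ => Nat.pair p.1 p.2).comp (hK.prodMk he)
  · intro y
    simp only [hpair]
    have h1 := hKs y
    have h2 := hKe y
    have h3 : (K y + 1) * (K y + 1) ≤ K (shift y) * K (shift y) := Nat.mul_le_mul h1 h1
    nlinarith
  · intro y y' h
    obtain ⟨h1, h2⟩ := hee y y' (Nat.pair_eq_pair.1 h).2
    refine ⟨h1, fun s hs i hi => h2 (s, i) ?_⟩
    rw [Finset.mem_product]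
    refine ⟨Finset.mem_powerset.2 fun m hm => Finset.mem_range.2 (hs m hm), ?_⟩
    exact Finset.mem_range.2 (Nat.lt_succ_of_le hi)

end Run7.h471
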