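import Pool.Agent.Run7.h471.Reduction

set_option autoImplicit false

/-!
# Homogenising Borel homomorphisms from the shift graph
-/

namespace Run7.h471

open Set MeasureTheory Filter Topology Pool.Agent.H38R3.Ell Pool.Agent.W923.BH

/-- Enumeration of a set as a point. -/
noncomputable def en (A : Set ℕ) : Inc := by
  classical
  exact if h : A.Infinite then ⟨enum A, enum_strictMono h⟩ else default

theorem en_apply {A : Set ℕ} (hA : A.Infinite) (k : ℕ) : (en A).1 k = enum A k := by
  rw [en, dif_pos hA]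

theorem range_en {A : Set ℕ} (hA : A.Infinite) : range (en A).1 = A := by
  rw [en, dif_pos hA]
  exact range_enum hA

theorem en_range (x : Inc) : en (range x.1) = x :=
  inc_eq_of_range (range_en (infinite_range x))

/-- Borel sets are completely Ramsey. -/
theorem cr_of_borel {U : Set Inc} (hU : MeasurableSet U) : CR {A | en A ∈ U} := by
  have hm : MeasurableSet (Subtype.val '' U : Set (ℕ → ℕ)) :=
    (MeasurableEmbedding.subtype_coe isClosed_strictMono.measurableSet).measurableSet_image.2 hU
  intro t X hX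
  obtain ⟨Y, hY, hYi, h⟩ := cr_of_measurable hm t X hX
  have key : ∀ z : Set ℕ, z.Infinite → (z ∈ enum ⁻¹' (Subtype.val '' U : Set (ℕ → ℕ)) ↔
      z ∈ {A : Set ℕ | en A ∈ U}) := by
    intro z hz
    have h1 : (en z).1 = enum z := by rw [en, dif_pos hz]
    constructor
    · rintro ⟨u, hu, hu'⟩
      have : u = en z := Subtype.ext (by rw [h1]; exact hu')
      show en z ∈ U
      rwa [← this]
    · intro hz'
      exact ⟨en z, hz', h1⟩
  refine ⟨Y, hY, hYi, h.imp (fun h z hz => ?_) (fun h z hz hz' => ?_)⟩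
  · exact (key z hz.1).1 (h z hz)
  · exact h z hz ((key z hz.1).2 hz')

theorem mem_Nb_empty {z Y : Set ℕ} (hz : z.Infinite) (h : z ⊆ Y) : z ∈ Nb ∅ Y :=
  ⟨hz, by simp, fun _ hn => Or.inr ⟨h hn, by simp⟩⟩

/-- The subset of `Y` given by the indices in `x`. -/
def sub (a x : Inc) : Inc := ⟨fun k => a.1 (x.1 k), a.2.comp x.2⟩

theorem sub_shift (a x : Inc) : sub a (shift x) = shift (sub a x) := rfl

theorem measurable_sub (a : Inc) : Measurable (sub a) :=
  Measurable.subtype_mk (measurable_pi_lambda _ fun k =>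
    (measurable_of_countable a.1).comp (measurable_coord k))

theorem range_sub (a x : Inc) : range (sub a x).1 ⊆ range a.1 := by
  rintro _ ⟨k, rfl⟩
  exact ⟨_, rfl⟩

/-- Galvin and Prikry: a Borel set is homogeneous. -/
theorem galvin_prikry {U : Set Inc} (hU : MeasurableSet U) (a : Inc) :
    ∃ b : Inc, range b.1 ⊆ range a.1 ∧
      ((∀ x, sub b x ∈ U) ∨ ∀ x, sub b x ∉ U) := by
  obtain ⟨Y, hY, hYi, h⟩ := cr_of_borel hU ∅ (range a.1) (infinite_range a)
  have h1 : ∀ x, range (sub (en Y) x).1 ∈ Nb ∅ Y := fun x =>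
    mem_Nb_empty (infinite_range _) ((range_sub _ _).trans (range_en hYi).subset)
  refine ⟨en Y, by rwa [range_en hYi], h.imp (fun h x => ?_) (fun h x hx => ?_)⟩
  · have := h _ (h1 x)
    simpa [en_range] using this
  · refine h _ (h1 x) ?_
    simpa [en_range] using hx

/-- Subsets of subsets. -/
theorem exists_sub_eq {a b : Inc} (h : range b.1 ⊆ range a.1) : ∃ c, b = sub a c := by
  have h1 : ∀ k, ∃ i, a.1 i = b.1 k := fun k => h ⟨k, rfl⟩
  choose c hc using h1
  have hcm : StrictMono c := by
    intro i j hij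
    have := b.2 hij
    rw [← hc, ← hc] at this
    exact a.2.lt_iff_lt.1 this
  exact ⟨⟨c, hcm⟩, inc_ext fun k => (hc k).symm⟩

theorem sub_sub (a b c : Inc) : sub (sub a b) c = sub a (sub b c) := rfl

/-- A natural valued Borel function is continuous on all infinite subsets of some set. -/
theorem exists_continuous_sub {g : Inc → ℕ} (hg : Measurable g) (a : Inc) :
    ∃ b : Inc, range b.1 ⊆ range a.1 ∧ Continuous fun x => g (sub b x) := by
  classical
  let R : Finset ℕ → Set ℕ → Prop := fun s Y => (∃ c, ∀ z ∈ Nb s Y, g (en z) = c) ∨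
    ∀ Y' ⊆ Y, Y'.Infinite → ¬ ∃ c, ∀ z ∈ Nb s Y', g (en z) = c
  obtain ⟨Y₀, hY₀, hY₀i, h0⟩ := fusion R
    (fun s Y Y' h h' => h'.imp (fun ⟨c, hc⟩ => ⟨c, fun z hz => hc z (Nb_mono h hz)⟩)
      fun h2 Y'' h3 => h2 Y'' (h3.trans h))
    (fun s Y hY => by
      by_cases h : ∃ Y' ⊆ Y, Y'.Infinite ∧ ∃ c, ∀ z ∈ Nb s Y', g (en z) = c
      · obtain ⟨Y', h1, h2, h3⟩ := h
        exact ⟨Y', h1, h2, Or.inl h3⟩
      · exact ⟨Y, le_rfl, hY, Or.inr fun Y' h1 h2 h3 => h ⟨Y', h1, h2, h3⟩⟩)
    ∅ (range a.1) (infinite_range a)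
  have hU : EO {z : Set ℕ | ∃ u, z ∈ Nb u z ∧ ∃ c, ∀ w ∈ Nb u z, g (en w) = c} := by
    rintro z ⟨u, h1, c, h2⟩ -
    exact ⟨u, h1, fun w hw => ⟨u, Nb_self hw, c, fun v hv => h2 v (Nb_sub_of_mem hw hv)⟩⟩
  obtain ⟨Y, hY, hYi, h3⟩ := hU.cr ∅ Y₀ hY₀i
  rcases h3 with h3 | h3
  · have hrY : range (en Y).1 = Y := range_en hYi
    refine ⟨en Y, by rw [hrY]; exact hY.trans hY₀, ?_⟩
    rw [continuous_iff_continuousAt]
    intro x
    rw [ContinuousAt, nhds_discrete ℕ, tendsto_pure]
    have hzY : range (sub (en Y) x).1 ⊆ Y := (range_sub _ _).trans hrY.subset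
    obtain ⟨u, hu, c, hc⟩ := h3 _ (mem_Nb_empty (infinite_range (sub (en Y) x)) hzY)
    have huY : ∀ n ∈ u, n ∈ Y₀ := fun n hn => hY (hzY (hu.2.1 n hn))
    have h4 := h0 u huY
    rw [Finset.empty_union] at h4
    have h5 : ∃ c, ∀ z ∈ Nb u Y₀, g (en z) = c := by
      rcases h4 with ⟨c, h4⟩ | h4
      · refine ⟨c, fun z hz => h4 z ?_⟩
        rw [Nb_above (u := u) subset_rfl]
        exact hz
      · exfalso
        refine h4 (above u (range (sub (en Y) x).1)) (above_mono (hzY.trans hY))
          (above_infinite (infinite_range _)) ⟨c, fun z hz => hc z ?_⟩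
        rwa [Nb_above (u := u) subset_rfl] at hz
    obtain ⟨c', hc'⟩ := h5
    have h6 : ∀ n ∈ u, ∃ i, (sub (en Y) x).1 i = n := fun n hn => hu.2.1 n hn
    choose! ix hix using h6
    have hN : ∀ n ∈ u, ix n < u.sup ix + 1 := fun n hn =>
      Nat.lt_succ_of_le (Finset.le_sup hn)
    set N := u.sup ix + 1 with hNdef
    have hopen : ∀ᶠ y in 𝓝 x, ∀ i < N, y.1 i = x.1 i := by
      have : ∀ i ∈ Finset.range N, ∀ᶠ y in 𝓝 x, y.1 i = x.1 i := by
        intro i _
        have hcont : Continuous fun y : Inc => y.1 i :=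
          (continuous_apply i).comp continuous_subtype_val
        have h7 := hcont.tendsto x
        rw [nhds_discrete ℕ, tendsto_pure] at h7
        exact h7
      have h8 := (Finset.eventually_all (Finset.range N)).2 this
      exact h8.mono fun y hy i hi => hy i (Finset.mem_range.2 hi)
    refine hopen.mono fun y hy => ?_
    have hzY' : ∀ y : Inc, range (sub (en Y) y).1 ⊆ Y := fun y => (range_sub _ _).trans hrY.subset
    have hmem : ∀ y : Inc, (∀ i < N, y.1 i = x.1 i) → range (sub (en Y) y).1 ∈ Nb u Y₀ := by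
      intro y hy
      refine ⟨infinite_range _, fun n hn => ⟨ix n, ?_⟩, ?_⟩
      · refine Eq.trans ?_ (hix n hn)
        show (en Y).1 (y.1 (ix n)) = (en Y).1 (x.1 (ix n))
        rw [hy _ (hN n hn)]
      · rintro _ ⟨i, rfl⟩
        by_cases hi : i < N
        · have h9 : (sub (en Y) y).1 i = (sub (en Y) x).1 i := by
            show (en Y).1 (y.1 i) = (en Y).1 (x.1 i)
            rw [hy i hi]
          rw [h9]
          rcases hu.2.2 _ ⟨i, rfl⟩ with h10 | h10
          · exact Or.inl h10
          · exact Or.inr ⟨hY (hzY h10.1), h10.2⟩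
        · right
          refine ⟨hY (hzY' y ⟨i, rfl⟩), fun m hm => ?_⟩
          rw [← hix m hm]
          have h11 : ix m < i := by have := hN m hm; omega
          show (en Y).1 (x.1 (ix m)) < (en Y).1 (y.1 i)
          rw [← hy _ (hN m hm)]
          exact (en Y).2 (y.2 h11)
    have h12 := hc' _ (hmem y hy)
    have h13 := hc' _ (hmem x fun _ _ => rfl)
    rw [en_range] at h12 h13
    rw [h12, h13]
  · exfalso
    have hRN : RN (⋃ n : ℕ, {z : Set ℕ | z ⊆ Y ∧ en z ∈ g ⁻¹' {n}}) := by
      refine RN.iUnion fun n => ?_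
      intro t X hX
      obtain ⟨X', hX', hX'i, h | h⟩ := cr_of_borel (hg (measurableSet_singleton n)) t X hX
      · refine ⟨X', hX', hX'i, ?_⟩
        rintro z hz ⟨hz1, -⟩
        refine h3 z (mem_Nb_empty hz.1 hz1) ⟨t, Nb_self hz, n, fun w hw => ?_⟩
        exact h w (Nb_sub_of_mem hz hw)
      · exact ⟨X', hX', hX'i, fun z hz hz' => h z hz hz'.2⟩
    obtain ⟨Z, hZ, hZi, h⟩ := hRN ∅ Y hYi
    exact h Z (mem_Nb_empty hZi subset_rfl) (mem_iUnion.2 ⟨g (en Z), hZ, rfl⟩)

/-- Borel homomorphisms from the whole shift graph to the path space of `D`. -/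
theorem hom_iff {D : ℕ → ℕ → Prop} (hD : ∀ a b, D a b → a < b) :
    BorelHom univ (Path D) ↔ ∃ g : Inc → ℕ, Continuous g ∧ ∀ x, D (g x) (g (shift x)) := by
  constructor
  · rintro ⟨f, hf, hfP, hfa⟩
    let F : Inc → Inc := fun x => f ⟨x, mem_univ x⟩
    have hF : Measurable F := hf.comp (measurable_id.subtype_mk)
    have hFP : ∀ x, F x ∈ Path D := fun x => hfP _
    have hFa : ∀ x, F (shift x) = shift (F x) ∨ F x = shift (F (shift x)) := fun x =>
      hfa ⟨x, mem_univ x⟩ ⟨shift x, mem_univ _⟩ (Or.inl rfl)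
    have hU1 : MeasurableSet {x | F (shift x) = shift (F x)} :=
      measurableSet_eq_fun (hF.comp measurable_shift) (measurable_shift.comp hF)
    obtain ⟨a, -, ha⟩ := galvin_prikry hU1 default
    have ha' : ∀ x, F (shift (sub a x)) = shift (F (sub a x)) := by
      rcases ha with ha | ha
      · exact ha
      · exfalso
        have h1 : ∀ x, F (sub a x) = shift (F (sub a (shift x))) := fun x =>
          (hFa (sub a x)).resolve_left (ha x)
        have h2 : ∀ k x, F (sub a x) = shift^[k] (F (sub a (shift^[k] x))) := by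
          intro k
          induction k with
          | zero => intro x; rfl
          | succ k ih =>
            intro x
            rw [ih x, h1 (shift^[k] x), ← Function.iterate_succ_apply' shift k x,
              ← Function.iterate_succ_apply shift k]
        have h3 : ∀ k, k ≤ (F (sub a default)).1 0 := by
          intro k
          rw [h2 k default, shift_iter_apply]
          exact (F (sub a (shift^[k] default))).2.id_le (k + 0)
        have := h3 ((F (sub a default)).1 0 + 1)
        omega
    have hU2 : MeasurableSet {x | D ((F x).1 0) ((F x).1 1)} := by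
      have h1 : Measurable fun x : Inc => ((F x).1 0, (F x).1 1) :=
        ((measurable_coord 0).comp hF).prodMk ((measurable_coord 1).comp hF)
      have h2 : MeasurableSet {p : ℕ × ℕ | D p.1 p.2} := MeasurableSet.of_discrete
      exact h1 h2
    obtain ⟨b, hb, hb'⟩ := galvin_prikry hU2 a
    obtain ⟨c, rfl⟩ := exists_sub_eq hb
    have hb'' : ∀ x, D ((F (sub (sub a c) x)).1 0) ((F (sub (sub a c) x)).1 1) := by
      rcases hb' with hb' | hb'
      · exact hb'
      · exfalso
        obtain ⟨N, hN⟩ := hFP (sub (sub a c) default)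
        have h1 : ∀ k x, F (sub (sub a c) (shift^[k] x)) = shift^[k] (F (sub (sub a c) x)) := by
          intro k
          induction k with
          | zero => intro x; rfl
          | succ k ih =>
            intro x
            rw [Function.iterate_succ_apply', Function.iterate_succ_apply', ← ih x]
            exact ha' (sub c (shift^[k] x))
        have h2 := hb' (shift^[N] default)
        apply h2
        have h3 := hN N le_rfl
        show D ((F (sub (sub a c) (shift^[N] default))).1 0)
          ((F (sub (sub a c) (shift^[N] default))).1 1)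
        rw [h1, shift_iter_apply, shift_iter_apply]
        exact h3
    have hg0 : Measurable fun x => (F x).1 0 := (measurable_coord 0).comp hF
    obtain ⟨d, hd, hd'⟩ := exists_continuous_sub hg0 (sub a c)
    obtain ⟨e, rfl⟩ := exists_sub_eq hd
    refine ⟨_, hd', fun x => ?_⟩
    have h1 := hb'' (sub e x)
    have h2 : F (shift (sub (sub a c) (sub e x))) = shift (F (sub (sub a c) (sub e x))) :=
      ha' (sub c (sub e x))
    have h3 : (F (sub (sub (sub a c) e) (shift x))).1 0 =
        (F (sub (sub a c) (sub e x))).1 1 := by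
      rw [show sub (sub (sub a c) e) (shift x) = shift (sub (sub a c) (sub e x)) from rfl, h2]
      rfl
    show D ((F (sub (sub (sub a c) e) x)).1 0) ((F (sub (sub (sub a c) e) (shift x))).1 0)
    rw [h3]
    exact h1
  · rintro ⟨g, hg, hgD⟩
    have hlt : ∀ y, g y < g (shift y) := fun y => hD _ _ (hgD y)
    refine ⟨fun x => orb g hlt x, (measurable_orb hg.measurable hlt).comp measurable_subtype_coe,
      fun x => path0_sub fun i => ?_, fun x y hxy => ?_⟩
    · show D (g (shift^[i] x)) (g (shift^[i + 1] x))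
      rw [Function.iterate_succ_apply']
      exact hgD _
    · rcases hxy with h | h
      · left
        show orb g hlt y.1 = shift (orb g hlt x.1)
        rw [h, orb_shift]
      · right
        show orb g hlt x.1 = shift (orb g hlt y.1)
        rw [h, orb_shift]

end Run7.h471
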