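import Pool.Agent.Run7.h471.Hardy

set_option autoImplicit false

/-!
# Hereditary traces

Natural numbers code triples `(i, t, A)`, where `A` is a finite set of natural numbers. Such a
triple is an object of level `o i`; objects of level zero stand for the number `t`, and an object
of positive level is the trace below `t` of an object of smaller level. A relation `D` on the
natural numbers extends to a relation `Rel` on all objects in such a way that an array for `Rel`
can be lowered to an array for `D`.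
-/

namespace Run7.h471

open Set Filter Topology

/-- A bijection between the triples and the natural numbers. -/
def tri : ℕ × ℕ × Finset ℕ ≃ ℕ := Denumerable.eqv (ℕ × ℕ × Finset ℕ)

/-- The code of a triple. -/
def enc (i t : ℕ) (A : Finset ℕ) : ℕ := tri (i, t, A)

/-- The first component. -/
def idx (e : ℕ) : ℕ := (tri.symm e).1

/-- The second component. -/
def thr (e : ℕ) : ℕ := (tri.symm e).2.1

/-- The third component. -/
def st (e : ℕ) : Finset ℕ := (tri.symm e).2.2

@[simp] theorem idx_enc (i t : ℕ) (A : Finset ℕ) : idx (enc i t A) = i := by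
  rw [idx, enc, Equiv.symm_apply_apply]

@[simp] theorem thr_enc (i t : ℕ) (A : Finset ℕ) : thr (enc i t A) = t := by
  rw [thr, enc, Equiv.symm_apply_apply]

@[simp] theorem st_enc (i t : ℕ) (A : Finset ℕ) : st (enc i t A) = A := by
  rw [st, enc, Equiv.symm_apply_apply]

/-- The extension of the relation `D` to all objects. -/
def Rel (o : ℕ → Ordinal.{0}) (D : ℕ → ℕ → Prop) (e e' : ℕ) : Prop :=
  (o (idx e) = 0 ∧ ((o (idx e') = 0 ∧ D (thr e) (thr e')) ∨
    (o (idx e') ≠ 0 ∧ e ∈ st e' ∧ e ≤ thr e'))) ∨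
  (o (idx e) ≠ 0 ∧ o (idx e) ≤ o (idx e') ∧ ∃ u ∈ st e', u ≤ thr e' ∧
    ∃ _ : o (idx u) < o (idx e), ∀ a ≤ thr e,
      (a ∈ st e ↔ ∃ _ : o (idx a) ≤ o (idx u), Rel o D a u))
termination_by o (idx e)
decreasing_by exact lt_of_le_of_lt (by assumption) (by assumption)

variable {o : ℕ → Ordinal.{0}} {D : ℕ → ℕ → Prop}

theorem rel_zero {e e' : ℕ} (h : o (idx e) = 0) : Rel o D e e' ↔
    ((o (idx e') = 0 ∧ D (thr e) (thr e')) ∨ (o (idx e') ≠ 0 ∧ e ∈ st e' ∧ e ≤ thr e')) := by
  rw [Rel]
  simp [h]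

theorem rel_pos {e e' : ℕ} (h : o (idx e) ≠ 0) : Rel o D e e' ↔
    (o (idx e) ≤ o (idx e') ∧ ∃ u ∈ st e', u ≤ thr e' ∧
      o (idx u) < o (idx e) ∧ ∀ a ≤ thr e,
        (a ∈ st e ↔ (o (idx a) ≤ o (idx u) ∧ Rel o D a u))) := by
  rw [Rel]
  simp only [h, ne_eq, not_false_eq_true, true_and, false_and, false_or, exists_prop]

open Classical in
/-- One step of lowering. -/
noncomputable def low2 (o : ℕ → Ordinal.{0}) (D : ℕ → ℕ → Prop) (e e' : ℕ) : ℕ :=
  if o (idx e) = 0 then e else
    sInf {u | u ∈ st e' ∧ u ≤ thr e' ∧ o (idx u) < o (idx e) ∧ ∀ a ≤ thr e,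
      (a ∈ st e ↔ (o (idx a) ≤ o (idx u) ∧ Rel o D a u))}

theorem low2_zero {e e' : ℕ} (h : o (idx e) = 0) : low2 o D e e' = e := by
  rw [low2, if_pos h]

theorem low2_pos {e e' : ℕ} (h : o (idx e) ≠ 0) (hr : Rel o D e e') :
    low2 o D e e' ∈ st e' ∧ low2 o D e e' ≤ thr e' ∧ o (idx (low2 o D e e')) < o (idx e) ∧
      ∀ a ≤ thr e, (a ∈ st e ↔ (o (idx a) ≤ o (idx (low2 o D e e')) ∧
        Rel o D a (low2 o D e e'))) := by
  rw [rel_pos h] at hr
  obtain ⟨-, u, hu1, hu2, hu3, hu4⟩ := hr
  have h1 : low2 o D e e' ∈ {u | u ∈ st e' ∧ u ≤ thr e' ∧ o (idx u) < o (idx e) ∧ ∀ a ≤ thr e,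
      (a ∈ st e ↔ (o (idx a) ≤ o (idx u) ∧ Rel o D a u))} := by
    rw [low2, if_neg h]
    exact Nat.sInf_mem ⟨u, hu1, hu2, hu3, hu4⟩
  exact h1

theorem rel_low2 {e e' e'' : ℕ} (h1 : Rel o D e e') (h2 : Rel o D e' e'') :
    Rel o D (low2 o D e e') (low2 o D e' e'') := by
  by_cases h : o (idx e) = 0
  · rw [low2_zero h]
    have h1' := h1
    rw [rel_zero h] at h1'
    rcases h1' with ⟨h3, h4⟩ | ⟨h3, h4, h5⟩
    · rw [low2_zero h3]
      exact h1
    · obtain ⟨-, -, -, h6⟩ := low2_pos h3 h2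
      exact ((h6 e h5).1 h4).2
  · have h3 : o (idx e') ≠ 0 := by
      rw [rel_pos h] at h1
      intro h0
      exact h (le_antisymm (h0 ▸ h1.1) zero_le)
    obtain ⟨g1, g2, -, -⟩ := low2_pos h h1
    obtain ⟨-, -, -, g4⟩ := low2_pos h3 h2
    exact ((g4 _ g2).1 g1).2

/-- Lowering of arrays. -/
noncomputable def low {Z : Type} (o : ℕ → Ordinal.{0}) (D : ℕ → ℕ → Prop) (T : Z → Z)
    (v : Z → ℕ) : ℕ → Z → ℕ
  | 0 => v
  | n + 1 => fun z => low2 o D (low o D T v n z) (low o D T v n (T z))

theorem rel_low {Z : Type} {T : Z → Z} {v : Z → ℕ} (h : ∀ z, Rel o D (v z) (v (T z))) (n : ℕ) :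
    ∀ z, Rel o D (low o D T v n z) (low o D T v n (T z)) := by
  induction n with
  | zero => exact h
  | succ n ih => exact fun z => rel_low2 (ih z) (ih (T z))

theorem low_stable {Z : Type} {T : Z → Z} {v : Z → ℕ} {z : Z} {n : ℕ}
    (h : o (idx (low o D T v n z)) = 0) : ∀ k ≥ n, low o D T v k z = low o D T v n z := by
  intro k hk
  induction k, hk using Nat.le_induction with
  | base => rfl
  | succ k hk ih =>
    show low2 o D (low o D T v k z) (low o D T v k (T z)) = _
    rw [low2_zero (by rw [ih]; exact h), ih]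

theorem exists_low_zero {Z : Type} {T : Z → Z} {v : Z → ℕ} (h : ∀ z, Rel o D (v z) (v (T z)))
    (z : Z) : ∃ n, o (idx (low o D T v n z)) = 0 := by
  by_contra hcon
  push Not at hcon
  have hlt : ∀ n, o (idx (low o D T v (n + 1) z)) < o (idx (low o D T v n z)) := fun n =>
    (low2_pos (hcon n) (rel_low h n z)).2.2.1
  have hwf : WellFounded (fun a b : Ordinal.{0} => a < b) := wellFounded_lt
  exact (RelEmbedding.natGT (r := fun a b : Ordinal.{0} => a < b)
    (fun n => o (idx (low o D T v n z))) hlt).not_wellFounded hwf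

theorem continuous_low {Z : Type} [TopologicalSpace Z] {T : Z → Z} (hT : Continuous T)
    {v : Z → ℕ} (hv : Continuous v) (n : ℕ) : Continuous (low o D T v n) := by
  induction n with
  | zero => exact hv
  | succ n ih =>
    have h1 : Continuous fun z => (low o D T v n z, low o D T v n (T z)) :=
      ih.prodMk (ih.comp hT)
    exact (continuous_of_discreteTopology (f := fun p : ℕ × ℕ => low2 o D p.1 p.2)).comp h1

/-- An array for `Rel` gives an array for `D`. -/
theorem decode_array {Z : Type} [TopologicalSpace Z] {T : Z → Z} (hT : Continuous T)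
    {v : Z → ℕ} (hv : Continuous v) (h : ∀ z, Rel o D (v z) (v (T z))) :
    ∃ w : Z → ℕ, Continuous w ∧ ∀ z, D (w z) (w (T z)) := by
  choose N hN using exists_low_zero (o := o) (D := D) h
  have hw : ∀ z n, o (idx (low o D T v n z)) = 0 →
      low o D T v n z = low o D T v (N z) z := by
    intro z n hn
    rcases le_total n (N z) with h1 | h1
    · exact (low_stable hn _ h1).symm
    · exact low_stable (hN z) _ h1
  refine ⟨fun z => thr (low o D T v (N z) z), ?_, fun z => ?_⟩
  · rw [continuous_iff_continuousAt]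
    intro z
    rw [ContinuousAt, nhds_discrete ℕ, tendsto_pure]
    have h1 : ∀ᶠ y in 𝓝 z, low o D T v (N z) y = low o D T v (N z) z := by
      have h2 := (continuous_low (o := o) (D := D) hT hv (N z)).tendsto z
      rw [nhds_discrete ℕ, tendsto_pure] at h2
      exact h2
    refine h1.mono fun y hy => ?_
    have h3 : o (idx (low o D T v (N z) y)) = 0 := by rw [hy]; exact hN z
    show thr (low o D T v (N y) y) = thr (low o D T v (N z) z)
    rw [← hw y (N z) h3, hy]
  · set n := max (N z) (N (T z)) with hn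
    have h1 : low o D T v n z = low o D T v (N z) z := low_stable (hN z) _ (le_max_left _ _)
    have h2 : low o D T v n (T z) = low o D T v (N (T z)) (T z) :=
      low_stable (hN (T z)) _ (le_max_right _ _)
    have h3 := rel_low (o := o) (D := D) h n z
    rw [h1, h2, rel_zero (hN z)] at h3
    rcases h3 with ⟨-, h4⟩ | ⟨h4, -⟩
    · exact h4
    · exact absurd (hN (T z)) h4

end Run7.h471
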