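import Pool.Agent.Run7.h471.Basic

set_option autoImplicit false

/-!
# Closure properties of the projective sets, transfer of projective colourings
-/

namespace Run7.h471

open Set MeasureTheory

/-- Preimages of analytic sets under Borel maps are analytic. -/
theorem analytic_preimage {X Y : Type} [tX : TopologicalSpace X] [PolishSpace X]
    [MeasurableSpace X] [BorelSpace X] [TopologicalSpace Y] [PolishSpace Y] [MeasurableSpace Y]
    [BorelSpace Y] {f : X → Y} (hf : Measurable f) {A : Set Y} (hA : AnalyticSet A) :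
    AnalyticSet (f ⁻¹' A) := by
  obtain ⟨t', ht', hfc, hp⟩ := hf.exists_continuous
  have h1 : @AnalyticSet X t' (f ⁻¹' A) :=
    @AnalyticSet.preimage X Y t' _ hp _ A hA f hfc
  have h2 := @AnalyticSet.image_of_continuous X t' X tX (f ⁻¹' A) h1 id
    ((@continuous_id_iff_le X t' tX).2 ht')
  rwa [image_id] at h2

theorem analytic_inter {X : Type} [TopologicalSpace X] [T2Space X] {A B : Set X}
    (hA : AnalyticSet A) (hB : AnalyticSet B) : AnalyticSet (A ∩ B) := by
  rw [inter_eq_iInter]
  refine AnalyticSet.iInter fun b => ?_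
  cases b
  · exact hB
  · exact hA

theorem analytic_union {X : Type} [TopologicalSpace X] {A B : Set X}
    (hA : AnalyticSet A) (hB : AnalyticSet B) : AnalyticSet (A ∪ B) := by
  rw [union_eq_iUnion]
  refine AnalyticSet.iUnion fun b => ?_
  cases b
  · exact hB
  · exact hA

theorem SigmaSet.preimage (n : ℕ) : ∀ {X Y : Type} [TopologicalSpace X] [PolishSpace X]
    [MeasurableSpace X] [BorelSpace X] [TopologicalSpace Y] [PolishSpace Y] [MeasurableSpace Y]
    [BorelSpace Y] {f : X → Y} (_ : Measurable f) {A : Set Y} (_ : SigmaSet n Y A),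
    SigmaSet n X (f ⁻¹' A) := by
  induction n with
  | zero =>
    intro X Y _ _ _ _ _ _ _ _ f hf A hA
    exact analytic_preimage hf hA
  | succ n ih =>
    intro X Y _ _ _ _ _ _ _ _ f hf A hA
    obtain ⟨C, hC, rfl⟩ := hA
    refine ⟨(fun p : X × (ℕ → ℕ) => (f p.1, p.2)) ⁻¹' C, ?_, ?_⟩
    · rw [← preimage_compl]
      exact ih ((hf.comp measurable_fst).prodMk measurable_snd) hC
    · ext x
      constructor
      · rintro ⟨⟨y, z⟩, h1, h2⟩
        refine ⟨(x, z), ?_, rfl⟩
        simp only at h2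
        subst h2
        exact h1
      · rintro ⟨⟨x', z⟩, h1, rfl⟩
        exact ⟨(f x', z), h1, rfl⟩

theorem SigmaSet.interUnion (n : ℕ) : ∀ {X : Type} [TopologicalSpace X] [PolishSpace X]
    [MeasurableSpace X] [BorelSpace X] {A B : Set X} (_ : SigmaSet n X A) (_ : MeasurableSet B),
    SigmaSet n X (A ∩ B) ∧ SigmaSet n X (A ∪ B) := by
  induction n with
  | zero =>
    intro X _ _ _ _ A B hA hB
    exact ⟨analytic_inter hA hB.analyticSet, analytic_union hA hB.analyticSet⟩
  | succ n ih =>
    intro X _ _ _ _ A B hA hB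
    obtain ⟨C, hC, rfl⟩ := hA
    have hB' : MeasurableSet (Prod.fst ⁻¹' B : Set (X × (ℕ → ℕ))) := measurable_fst hB
    constructor
    · refine ⟨C ∩ Prod.fst ⁻¹' B, ?_, ?_⟩
      · rw [compl_inter]
        exact (ih hC hB'.compl).2
      · rw [image_inter_preimage]
    · refine ⟨C ∪ Prod.fst ⁻¹' B, ?_, ?_⟩
      · rw [compl_union]
        exact (ih hC hB'.compl).1
      · rw [image_union, image_preimage_eq _ Prod.fst_surjective]

theorem Projective.preimage {X Y : Type} [TopologicalSpace X] [PolishSpace X]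
    [MeasurableSpace X] [BorelSpace X] [TopologicalSpace Y] [PolishSpace Y] [MeasurableSpace Y]
    [BorelSpace Y] {f : X → Y} (hf : Measurable f) {A : Set Y} (hA : Projective A) :
    Projective (f ⁻¹' A) := by
  obtain ⟨n, h⟩ := hA
  exact ⟨n, h.preimage n hf⟩

theorem Projective.inter_borel {X : Type} [TopologicalSpace X] [PolishSpace X]
    [MeasurableSpace X] [BorelSpace X] {A B : Set X} (hA : Projective A) (hB : MeasurableSet B) :
    Projective (A ∩ B) := by
  obtain ⟨n, h⟩ := hA
  exact ⟨n, (h.interUnion n hB).1⟩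

theorem Projective.of_borel {X : Type} [TopologicalSpace X] [PolishSpace X]
    [MeasurableSpace X] [BorelSpace X] {B : Set X} (hB : MeasurableSet B) : Projective B :=
  ⟨0, hB.analyticSet⟩

/-- A Borel map on a Borel subset extends to a Borel map. -/
theorem exists_extension {A : Set Inc} (hA : MeasurableSet A) {f : A → Inc} (hf : Measurable f) :
    ∃ F : Inc → Inc, Measurable F ∧ ∀ x : A, F x = f x := by
  classical
  refine ⟨fun x => if h : x ∈ A then f ⟨x, h⟩ else default, ?_, fun x => ?_⟩
  · exact Measurable.dite hf measurable_const hA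
  · simp

/-- Projective finite colourings can be pulled back along Borel homomorphisms. -/
theorem ProjColorable.of_hom {A B : Set Inc} (hA : MeasurableSet A) (h : BorelHom A B)
    (hB : ProjColorable B) : ProjColorable A := by
  obtain ⟨f, hf, hfB, hfa⟩ := h
  obtain ⟨k, c, hc, hp⟩ := hB
  obtain ⟨F, hF, hFf⟩ := exists_extension hA hf
  refine ⟨k, fun x => c ⟨f x, hfB x⟩, fun x y hxy => hc _ _ (hfa x y hxy), fun i => ?_⟩
  have : (Subtype.val '' ((fun x : A => c ⟨f x, hfB x⟩) ⁻¹' {i}) : Set Inc) =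
      F ⁻¹' (Subtype.val '' (c ⁻¹' {i})) ∩ A := by
    ext x
    constructor
    · rintro ⟨y, hy, rfl⟩
      refine ⟨⟨⟨f y, hfB y⟩, hy, ?_⟩, y.2⟩
      exact (hFf y).symm
    · rintro ⟨⟨z, hz, hz'⟩, hx⟩
      refine ⟨⟨x, hx⟩, ?_, rfl⟩
      have h1 : z = ⟨f ⟨x, hx⟩, hfB _⟩ := by
        apply Subtype.ext
        rw [hz']
        exact hFf ⟨x, hx⟩
      rw [h1] at hz
      exact hz
  rw [this]
  exact ((hp i).preimage hF).inter_borel hA

/-- Composition of Borel homomorphisms. -/
theorem BorelHom.trans {A B C : Set Inc} (h1 : BorelHom A B) (h2 : BorelHom B C) :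
    BorelHom A C := by
  obtain ⟨f, hf, hfB, hfa⟩ := h1
  obtain ⟨g, hg, hgC, hga⟩ := h2
  refine ⟨fun x => g ⟨f x, hfB x⟩, hg.comp (hf.subtype_mk), fun x => hgC _, fun x y hxy => ?_⟩
  exact hga _ _ (hfa x y hxy)

end Run7.h471
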