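import Pool.Agent.Run7.h471.Proj

set_option autoImplicit false

/-!
# The projective sets form an algebra; ultrafilters invariant for projective sets
-/

namespace Run7.h471

open Set MeasureTheory Filter

theorem SigmaSet.succ (n : ℕ) : ∀ {X : Type} [TopologicalSpace X] [PolishSpace X]
    [MeasurableSpace X] [BorelSpace X] {A : Set X} (_ : SigmaSet n X A),
    SigmaSet (n + 1) X A := by
  induction n with
  | zero =>
    intro X _ _ _ _ A hA
    have hA' : AnalyticSet A := hA
    rcases A.eq_empty_or_nonempty with rfl | hne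
    · refine ⟨∅, ?_, by simp⟩
      exact MeasurableSet.analyticSet (by simp)
    · rw [AnalyticSet] at hA'
      rcases hA' with h | ⟨f, hf, hfA⟩
      · exact absurd h hne.ne_empty
      · refine ⟨{p | f p.2 = p.1}, ?_, ?_⟩
        · have h1 : IsClosed {p : X × (ℕ → ℕ) | f p.2 = p.1} :=
            isClosed_eq (hf.comp continuous_snd) continuous_fst
          exact h1.measurableSet.compl.analyticSet
        · rw [← hfA]
          ext x
          constructor
          · rintro ⟨z, rfl⟩
            exact ⟨(f z, z), rfl, rfl⟩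
          · rintro ⟨⟨x', z⟩, h1, rfl⟩
            exact ⟨z, h1⟩
  | succ n ih =>
    intro X _ _ _ _ A hA
    obtain ⟨C, hC, rfl⟩ := hA
    exact ⟨C, ih hC, rfl⟩

theorem SigmaSet.mono {X : Type} [TopologicalSpace X] [PolishSpace X]
    [MeasurableSpace X] [BorelSpace X] {A : Set X} {n k : ℕ} (hnk : n ≤ k)
    (h : SigmaSet n X A) : SigmaSet k X A := by
  induction k, hnk using Nat.le_induction with
  | base => exact h
  | succ k _ ih => exact ih.succ

theorem SigmaSet.inter_union (n : ℕ) : ∀ {X : Type} [TopologicalSpace X] [PolishSpace X]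
    [MeasurableSpace X] [BorelSpace X] {A B : Set X} (_ : SigmaSet n X A) (_ : SigmaSet n X B),
    SigmaSet n X (A ∩ B) ∧ SigmaSet n X (A ∪ B) := by
  induction n with
  | zero =>
    intro X _ _ _ _ A B hA hB
    exact ⟨analytic_inter hA hB, analytic_union hA hB⟩
  | succ n ih =>
    intro X _ _ _ _ A B hA hB
    obtain ⟨C, hC, rfl⟩ := hA
    obtain ⟨C', hC', rfl⟩ := hB
    constructor
    · let ev : (ℕ → ℕ) → (ℕ → ℕ) := fun z k => z (2 * k)
      let od : (ℕ → ℕ) → (ℕ → ℕ) := fun z k => z (2 * k + 1)
      have hev : Measurable ev := measurable_pi_lambda _ fun k => measurable_pi_apply (2 * k)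
      have hod : Measurable od := measurable_pi_lambda _ fun k => measurable_pi_apply (2 * k + 1)
      have h1 := hC.preimage n (f := fun p : X × (ℕ → ℕ) => (p.1, ev p.2))
        (measurable_fst.prodMk (hev.comp measurable_snd))
      have h2 := hC'.preimage n (f := fun p : X × (ℕ → ℕ) => (p.1, od p.2))
        (measurable_fst.prodMk (hod.comp measurable_snd))
      refine ⟨((fun p : X × (ℕ → ℕ) => (p.1, ev p.2)) ⁻¹' C) ∩
        ((fun p : X × (ℕ → ℕ) => (p.1, od p.2)) ⁻¹' C'), ?_, ?_⟩
      · rw [compl_inter]
        exact (ih h1 h2).2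
      · ext x
        constructor
        · rintro ⟨⟨⟨y, z⟩, hz, rfl⟩, ⟨⟨y', z'⟩, hz', hy'⟩⟩
          simp only at hy'
          subst hy'
          refine ⟨(y', fun k => if k % 2 = 0 then z (k / 2) else z' (k / 2)), ⟨?_, ?_⟩, rfl⟩
          · have : ev (fun k => if k % 2 = 0 then z (k / 2) else z' (k / 2)) = z := by
              funext k
              show (if (2 * k) % 2 = 0 then z (2 * k / 2) else z' (2 * k / 2)) = z k
              rw [if_pos (by omega), show 2 * k / 2 = k by omega]
            show (y', ev _) ∈ C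
            rw [this]
            exact hz
          · have : od (fun k => if k % 2 = 0 then z (k / 2) else z' (k / 2)) = z' := by
              funext k
              show (if (2 * k + 1) % 2 = 0 then z ((2 * k + 1) / 2) else z' ((2 * k + 1) / 2)) =
                z' k
              rw [if_neg (by omega), show (2 * k + 1) / 2 = k by omega]
            show (y', od _) ∈ C'
            rw [this]
            exact hz'
        · rintro ⟨⟨y, z⟩, ⟨h3, h4⟩, rfl⟩
          exact ⟨⟨_, h3, rfl⟩, ⟨_, h4, rfl⟩⟩
    · refine ⟨C ∪ C', ?_, by rw [image_union]⟩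
      rw [compl_union]
      exact (ih hC hC').1

section alg

variable {X : Type} [TopologicalSpace X] [PolishSpace X] [MeasurableSpace X] [BorelSpace X]

theorem Projective.compl {A : Set X} (h : Projective A) : Projective Aᶜ := by
  obtain ⟨n, hn⟩ := h
  refine ⟨n + 1, Prod.fst ⁻¹' Aᶜ, ?_, ?_⟩
  · rw [← preimage_compl, compl_compl]
    exact hn.preimage n measurable_fst
  · rw [image_preimage_eq _ Prod.fst_surjective]

theorem Projective.inter {A B : Set X} (hA : Projective A) (hB : Projective B) :
    Projective (A ∩ B) := by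
  obtain ⟨n, hn⟩ := hA
  obtain ⟨k, hk⟩ := hB
  exact ⟨max n k, ((hn.mono (le_max_left _ _)).inter_union _ (hk.mono (le_max_right _ _))).1⟩

theorem Projective.union {A B : Set X} (hA : Projective A) (hB : Projective B) :
    Projective (A ∪ B) := by
  obtain ⟨n, hn⟩ := hA
  obtain ⟨k, hk⟩ := hB
  exact ⟨max n k, ((hn.mono (le_max_left _ _)).inter_union _ (hk.mono (le_max_right _ _))).2⟩

theorem Projective.finset_inter {ι : Type} {s : Finset ι} {A : ι → Set X}
    (h : ∀ i ∈ s, Projective (A i)) : Projective (⋂ i ∈ s, A i) := by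
  classical
  induction s using Finset.induction_on with
  | empty => simpa using Projective.of_borel (X := X) MeasurableSet.univ
  | insert a s ha ih =>
    rw [Finset.set_biInter_insert]
    exact (h a (Finset.mem_insert_self a s)).inter (ih fun i hi => h i (Finset.mem_insert_of_mem hi))

end alg

/-- Invariance of an ultrafilter for the projective sets. -/
def ProjInv (U : Ultrafilter Inc) : Prop := ∀ A : Set Inc, Projective A → A ∈ U → shift ⁻¹' A ∈ U

/-- A restriction of the shift graph without projective finite colourings belongs to an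
ultrafilter which is invariant for the projective sets. -/
theorem exists_projInv {B : Set Inc} (hBm : MeasurableSet B) (h : ¬ ProjColorable B) :
    ∃ U : Ultrafilter Inc, B ∈ U ∧ ProjInv U := by
  classical
  let F : Set (Set Inc) := insert B {A | Projective A ∧ ∀ x, x ∈ A ∨ shift x ∈ A}
  have key : (generate F).NeBot := by
    rw [generate_neBot_iff]
    intro t htF ht
    by_contra hcon
    rw [not_nonempty_iff_eq_empty] at hcon
    apply h
    -- enumerate the members of `t` other than `B`
    let s : Finset (Set Inc) := ht.toFinset.erase B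
    have hs : ∀ A ∈ s, Projective A ∧ ∀ x, x ∈ A ∨ shift x ∈ A := by
      intro A hA
      have h1 := Finset.mem_erase.1 hA
      have h2 := htF (ht.mem_toFinset.1 h1.2)
      exact h2.resolve_left h1.1
    obtain ⟨e⟩ : Nonempty (s ≃ Fin s.card) := ⟨s.equivFin⟩
    have hcov : ∀ x ∈ B, ∃ i : Fin s.card, x ∉ (e.symm i).1 := by
      intro x hx
      by_contra hx2
      push Not at hx2
      have : x ∈ ⋂₀ t := by
        intro A hA
        by_cases hAB : A = B
        · rwa [hAB]
        · have hAs : A ∈ s := Finset.mem_erase.2 ⟨hAB, ht.mem_toFinset.2 hA⟩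
          have := hx2 (e ⟨A, hAs⟩)
          rwa [Equiv.symm_apply_apply] at this
      rw [hcon] at this
      exact this
    have hfind : ∀ x : B, ∃ i : Fin s.card, x.1 ∉ (e.symm i).1 ∧
        ∀ j < i, x.1 ∈ (e.symm j).1 := by
      intro x
      have hne : (Finset.univ.filter fun i : Fin s.card => x.1 ∉ (e.symm i).1).Nonempty := by
        obtain ⟨i, hi⟩ := hcov x.1 x.2
        exact ⟨i, Finset.mem_filter.2 ⟨Finset.mem_univ _, hi⟩⟩
      refine ⟨_, (Finset.mem_filter.1 (Finset.min'_mem _ hne)).2, fun j hj => ?_⟩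
      by_contra hj2
      exact absurd (Finset.min'_le _ j (Finset.mem_filter.2 ⟨Finset.mem_univ _, hj2⟩))
        (not_le.2 hj)
    choose c hc1 hc2 using hfind
    refine ⟨s.card, c, fun x y hxy hcxy => ?_, fun i => ?_⟩
    · have h1 := hs _ (e.symm (c x)).2
      have h2 := hc1 x
      have h3 := hc1 y
      rw [← hcxy] at h3
      rcases hxy with h4 | h4
      · rcases h1.2 x.1 with h5 | h5
        · exact h2 h5
        · rw [← h4] at h5
          exact h3 h5
      · rcases h1.2 y.1 with h5 | h5
        · exact h3 h5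
        · rw [← h4] at h5
          exact h2 h5
    · have : (Subtype.val '' (c ⁻¹' {i}) : Set Inc) =
          ((⋂ j ∈ Finset.univ.filter (fun j : Fin s.card => j < i), (e.symm j).1) ∩
            ((e.symm i).1)ᶜ) ∩ B := by
        ext x
        constructor
        · rintro ⟨x, hx, rfl⟩
          have hx' : c x = i := hx
          subst hx'
          refine ⟨⟨?_, hc1 x⟩, x.2⟩
          simp only [mem_iInter]
          intro j hj
          exact hc2 x j (Finset.mem_filter.1 hj).2
        · rintro ⟨⟨h1, h2⟩, h3⟩
          refine ⟨⟨x, h3⟩, ?_, rfl⟩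
          show c ⟨x, h3⟩ = i
          simp only [mem_iInter] at h1
          rcases lt_trichotomy (c ⟨x, h3⟩) i with h4 | h4 | h4
          · exact absurd (h1 _ (Finset.mem_filter.2 ⟨Finset.mem_univ _, h4⟩)) (hc1 ⟨x, h3⟩)
          · exact h4
          · exact absurd (hc2 ⟨x, h3⟩ i h4) h2
      rw [this]
      exact ((Projective.finset_inter fun j _ => (hs _ (e.symm j).2).1).inter
        (hs _ (e.symm i).2).1.compl).inter_borel hBm
  let U : Ultrafilter Inc := Ultrafilter.of (generate F)
  have hU : ∀ A ∈ F, A ∈ U := fun A hA => Ultrafilter.of_le _ (mem_generate_of_mem hA)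
  refine ⟨U, hU B (mem_insert _ _), fun A hA hAU => ?_⟩
  have h1 : (A ∩ (shift ⁻¹' A)ᶜ)ᶜ ∈ U := by
    refine hU _ (Or.inr ⟨(hA.inter (hA.preimage measurable_shift).compl).compl, fun x => ?_⟩)
    by_contra hx
    push Not at hx
    obtain ⟨h2, h3⟩ := hx
    have h2' := not_not.1 h2
    have h3' := not_not.1 h3
    exact h2'.2 h3'.1
  filter_upwards [h1, hAU] with x hx hxA
  by_contra hx2
  exact hx ⟨hxA, hx2⟩

theorem not_projColorable {B : Set Inc} {U : Ultrafilter Inc} (hB : B ∈ U) (hU : ProjInv U) :
    ¬ ProjColorable B := by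
  classical
  rintro ⟨k, c, hc, hp⟩
  have h1 : (⋃ i, (Subtype.val '' (c ⁻¹' {i}) : Set Inc)) ∈ U := by
    filter_upwards [hB] with x hx
    exact mem_iUnion.2 ⟨c ⟨x, hx⟩, ⟨x, hx⟩, rfl, rfl⟩
  rw [← biUnion_univ, Ultrafilter.finite_biUnion_mem_iff finite_univ] at h1
  obtain ⟨i, -, hi⟩ := h1
  have h2 := hU _ (hp i) hi
  obtain ⟨x, hx1, hx2⟩ := U.nonempty_of_mem (inter_mem hi h2)
  obtain ⟨y, hy, rfl⟩ := hx1
  obtain ⟨z, hz, hz'⟩ := hx2
  refine hc y z (Or.inl hz') ?_
  rw [show c y = i from hy, show c z = i from hz]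

end Run7.h471
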