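import Mathlib

set_option autoImplicit false

/-!
# Ranks of natural valued functions with respect to a shift invariant ultrafilter
-/

namespace Run7.h471

open Set MeasureTheory Filter

/-- `f` is bounded modulo the ultrafilter. -/
def Bdd {X : Type} (U : Ultrafilter X) (f : X → ℕ) : Prop := ∃ n, ∀ᶠ x in (U : Filter X), f x ≤ n

/-- The rank of `f` is at most `β`: every measurable `g` with `g (S x) < f x` for almost all `x`
is bounded, or of some rank smaller than `β`. -/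
def Rk {X : Type} (m : MeasurableSpace X) (S : X → X) (U : Ultrafilter X) (β : Ordinal.{0})
    (f : X → ℕ) : Prop :=
  ∀ g : X → ℕ, Measurable[m] g → (∀ᶠ x in (U : Filter X), g (S x) < f x) →
    Bdd U g ∨ ∃ γ : Ordinal.{0}, ∃ _ : γ < β, Rk m S U γ g
termination_by β

section basic

variable {X : Type} {m : MeasurableSpace X} {S : X → X} {U : Ultrafilter X}

theorem rk_iff {β : Ordinal.{0}} {f : X → ℕ} : Rk m S U β f ↔
    ∀ g : X → ℕ, Measurable[m] g → (∀ᶠ x in (U : Filter X), g (S x) < f x) →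
    Bdd U g ∨ ∃ γ < β, Rk m S U γ g := by
  rw [Rk]
  simp only [exists_prop]

theorem Bdd.mono {f g : X → ℕ} (h : Bdd U f) (hg : ∀ᶠ x in (U : Filter X), g x ≤ f x) :
    Bdd U g := by
  obtain ⟨n, hn⟩ := h
  exact ⟨n, (hn.and hg).mono fun x hx => hx.2.trans hx.1⟩

theorem Rk.mono_left {β : Ordinal.{0}} {f f' : X → ℕ} (h : Rk m S U β f)
    (hf : ∀ᶠ x in (U : Filter X), f' x ≤ f x) : Rk m S U β f' := by
  rw [rk_iff] at h ⊢
  intro g hg hgf
  exact h g hg ((hgf.and hf).mono fun x hx => lt_of_lt_of_le hx.1 hx.2)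

theorem Rk.mono {β β' : Ordinal.{0}} {f : X → ℕ} (h : Rk m S U β f) (hβ : β ≤ β') :
    Rk m S U β' f := by
  rw [rk_iff] at h ⊢
  intro g hg hgf
  exact (h g hg hgf).imp id fun ⟨γ, h1, h2⟩ => ⟨γ, h1.trans_le hβ, h2⟩

theorem exists_const {f : X → ℕ} (h : Bdd U f) : ∃ n, ∀ᶠ x in (U : Filter X), f x = n := by
  obtain ⟨n, hn⟩ := h
  induction n with
  | zero => exact ⟨0, hn.mono fun x hx => Nat.le_zero.1 hx⟩
  | succ n ih =>
    by_cases h : ∀ᶠ x in (U : Filter X), f x ≤ n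
    · exact ih h
    · exact ⟨n + 1, (hn.and (Ultrafilter.eventually_not.2 h)).mono fun x hx => by omega⟩

theorem not_bdd {f : X → ℕ} (h : ¬ Bdd U f) (n : ℕ) : ∀ᶠ x in (U : Filter X), n < f x := by
  by_contra h2
  exact h ⟨n, (Ultrafilter.eventually_not.2 h2).mono fun x hx => not_lt.1 hx⟩

theorem bdd_or_comp {f : X → ℕ} {F : ℕ → ℕ} (h : Bdd U f) : Bdd U (fun x => F (f x)) := by
  obtain ⟨n, hn⟩ := exists_const h
  exact ⟨F n, hn.mono fun x hx => le_of_eq (congrArg F hx)⟩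

variable (hS : Measurable[m, m] S)
  (hU : ∀ A : Set X, MeasurableSet[m] A → A ∈ U → S ⁻¹' A ∈ U)

include hU in
theorem ae_shift {p : X → Prop} (hp : MeasurableSet[m] {x | p x})
    (h : ∀ᶠ x in (U : Filter X), p x) : ∀ᶠ x in (U : Filter X), p (S x) :=
  hU _ hp h

include hU in
theorem ae_of_shift {p : X → Prop} (hp : MeasurableSet[m] {x | p x})
    (h : ∀ᶠ x in (U : Filter X), p (S x)) : ∀ᶠ x in (U : Filter X), p x := by
  by_contra h2
  have h3 := ae_shift hU (p := fun x => ¬ p x) hp.compl (Ultrafilter.eventually_not.2 h2)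
  obtain ⟨x, hx1, hx2⟩ := (h.and h3).exists
  exact hx2 hx1

include hS hU in
/-- Almost all orbits stay in a measurable set of measure one. -/
theorem ae_all {A : Set X} (hA : MeasurableSet[m] A) (h : A ∈ U) :
    ∀ᶠ x in (U : Filter X), ∀ n, S^[n] x ∈ A := by
  classical
  by_contra hcon
  have hcon' := Ultrafilter.eventually_not.2 hcon
  let K : X → ℕ := fun x => sInf {n | S^[n] x ∉ A}
  have hSn : ∀ n, Measurable[m, m] (S^[n]) := fun n => hS.iterate n
  have hKm : ∀ n, MeasurableSet[m] {x | (∃ n, S^[n] x ∉ A) ∧ K x = n} := by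
    intro n
    have : {x | (∃ n, S^[n] x ∉ A) ∧ K x = n} =
        (S^[n] ⁻¹' Aᶜ) ∩ ⋂ i ∈ Iio n, S^[i] ⁻¹' A := by
      ext x
      simp only [mem_ofPred_eq, mem_inter_iff, mem_preimage, mem_compl_iff, mem_iInter, mem_Iio]
      constructor
      · rintro ⟨h1, rfl⟩
        refine ⟨Nat.sInf_mem (s := {n | S^[n] x ∉ A}) h1, fun i hi => ?_⟩
        by_contra h2
        exact absurd (Nat.sInf_le (s := {n | S^[n] x ∉ A}) h2) (not_le.2 hi)
      · rintro ⟨h1, h2⟩
        refine ⟨⟨n, h1⟩, le_antisymm (Nat.sInf_le (s := {n | S^[n] x ∉ A}) h1) ?_⟩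
        by_contra h3
        rw [not_le] at h3
        exact Nat.sInf_mem (s := {n | S^[n] x ∉ A}) ⟨n, h1⟩ (h2 _ h3)
    rw [this]
    exact (hSn n hA.compl).inter
      (MeasurableSet.biInter (to_countable _) fun i _ => hSn i hA)
  have hE : ∀ r, MeasurableSet[m] {x | (∃ n, S^[n] x ∉ A) ∧ K x % 2 = r} := by
    intro r
    have : {x | (∃ n, S^[n] x ∉ A) ∧ K x % 2 = r} =
        ⋃ n ∈ {n : ℕ | n % 2 = r}, {x | (∃ n, S^[n] x ∉ A) ∧ K x = n} := by
      ext x
      simp only [mem_ofPred_eq, mem_iUnion, exists_prop]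
      constructor
      · rintro ⟨h1, h2⟩
        exact ⟨K x, h2, h1, rfl⟩
      · rintro ⟨n, h1, h2, rfl⟩
        exact ⟨h2, h1⟩
    rw [this]
    exact MeasurableSet.biUnion (to_countable _) fun n _ => hKm n
  have hstep : ∀ x, x ∈ A → (∃ n, S^[n] x ∉ A) → (∃ n, S^[n] (S x) ∉ A) ∧ K x = K (S x) + 1 := by
    intro x hx hex
    have h1 : S^[K x] x ∉ A := Nat.sInf_mem (s := {n | S^[n] x ∉ A}) hex
    have h2 : K x ≠ 0 := by
      intro h0
      rw [h0] at h1
      exact h1 hx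
    obtain ⟨j, hj⟩ : ∃ j, K x = j + 1 := ⟨K x - 1, by omega⟩
    have h3 : S^[j] (S x) ∉ A := by
      rw [← Function.iterate_succ_apply, Nat.succ_eq_add_one, ← hj]
      exact h1
    refine ⟨⟨j, h3⟩, ?_⟩
    have h4 : K (S x) ≤ j := Nat.sInf_le h3
    have h5 : S^[K (S x)] (S x) ∉ A := Nat.sInf_mem (s := {n | S^[n] (S x) ∉ A}) ⟨j, h3⟩
    rw [← Function.iterate_succ_apply] at h5
    have h6 : K x ≤ K (S x) + 1 := Nat.sInf_le h5
    omega
  have key : ∀ r, ¬ ∀ᶠ x in (U : Filter X), (∃ n, S^[n] x ∉ A) ∧ K x % 2 = r := by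
    intro r hr
    obtain ⟨x, ⟨hx1, hx2⟩, hx3⟩ := ((hr.and (ae_shift hU (hE r) hr)).and h).exists
    have h2 := hstep x hx3 hx1.1
    have h3 := hx1.2
    have h4 := hx2.2
    omega
  have h0 := Ultrafilter.eventually_not.2 (key 0)
  have h1 := Ultrafilter.eventually_not.2 (key 1)
  obtain ⟨x, ⟨hx1, hx2⟩, hx3⟩ := ((h0.and h1).and hcon').exists
  push Not at hx3
  rcases Nat.mod_two_eq_zero_or_one (K x) with h | h
  · exact hx1 ⟨hx3, h⟩
  · exact hx2 ⟨hx3, h⟩

end basic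

end Run7.h471
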