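import Pool.Agent.Run7.h471.Rank

set_option autoImplicit false

/-!
# Closure properties of the rank
-/

namespace Run7.h471

open Set MeasureTheory Filter

section basic

variable {X : Type} {m : MeasurableSpace X} {S : X → X} {U : Ultrafilter X}

theorem measurable_post {f : X → ℕ} (hf : Measurable[m] f) (F : ℕ → ℕ) :
    Measurable[m] fun x => F (f x) :=
  (measurable_of_countable F).comp hf

theorem measurable_post2 {f g : X → ℕ} (hf : Measurable[m] f) (hg : Measurable[m] g)
    (F : ℕ → ℕ → ℕ) : Measurable[m] fun x => F (f x) (g x) :=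
  (measurable_of_countable fun p : ℕ × ℕ => F p.1 p.2).comp (hf.prodMk hg)

theorem measurableSet_rel {f g : X → ℕ} (hf : Measurable[m] f) (hg : Measurable[m] g)
    (P : ℕ → ℕ → Prop) : MeasurableSet[m] {x | P (f x) (g x)} := by
  have h2 : MeasurableSet {p : ℕ × ℕ | P p.1 p.2} := MeasurableSet.of_discrete
  exact (hf.prodMk hg) h2

theorem measurableSet_rel1 {f : X → ℕ} (hf : Measurable[m] f) (P : ℕ → Prop) :
    MeasurableSet[m] {x | P (f x)} :=
  hf (MeasurableSet.of_discrete (s := {n | P n}))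

variable (hS : Measurable[m, m] S)
  (hU : ∀ A : Set X, MeasurableSet[m] A → A ∈ U → S ⁻¹' A ∈ U)

include hU in
theorem Rk.comp_strictMono {β : Ordinal.{0}} : ∀ {f : X → ℕ} {F : ℕ → ℕ}, StrictMono F →
    Rk m S U β f → Rk m S U β (fun x => F (f x)) := by
  induction β using WellFoundedLT.induction with
  | ind β ih =>
  intro f F hF h
  rw [rk_iff] at h ⊢
  intro g hg hgF
  have hex : ∀ k, ∃ n, k < F n := fun k => ⟨k + 1, lt_of_lt_of_le (Nat.lt_succ_self k)
    (hF.id_le (k + 1))⟩
  let φ : ℕ → ℕ := fun k => sInf {n | k < F n}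
  have hφ1 : ∀ k, k < F (φ k) := fun k => Nat.sInf_mem (s := {n | k < F n}) (hex k)
  have hφ2 : ∀ k n, k < F n → φ k ≤ n := fun k n hn => Nat.sInf_le hn
  by_cases hz : ∀ᶠ x in (U : Filter X), φ (g x) = 0
  · left
    refine ⟨F 0, hz.mono fun x hx => ?_⟩
    have := hφ1 (g x)
    rw [hx] at this
    exact this.le
  · have hz1 := Ultrafilter.eventually_not.2 hz
    have hz2 := ae_shift hU (p := fun x => ¬ φ (g x) = 0)
      (measurableSet_rel1 (measurable_post hg φ) (fun n => ¬ n = 0)) hz1
    have h1 : ∀ᶠ x in (U : Filter X), φ (g (S x)) - 1 < f x := by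
      refine (hz2.and hgF).mono fun x hx => ?_
      have := hφ2 _ _ hx.2
      have := hx.1
      omega
    have h2 : ∀ᶠ x in (U : Filter X), g x ≤ F (φ (g x) - 1 + 1) := by
      refine hz1.mono fun x hx => ?_
      have h3 := hφ1 (g x)
      rw [show φ (g x) - 1 + 1 = φ (g x) by omega]
      exact h3.le
    rcases h _ (measurable_post (measurable_post hg φ) (fun n => n - 1)) h1 with h3 | h3
    · left
      exact (bdd_or_comp (F := fun n => F (n + 1)) h3).mono h2
    · right
      obtain ⟨γ, hγ, h4⟩ := h3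
      have hF' : StrictMono fun n => F (n + 1) := fun a b hab => hF (Nat.succ_lt_succ hab)
      exact ⟨γ, hγ, (ih γ hγ hF' h4).mono_left h2⟩

include hU in
theorem Rk.comp {β : Ordinal.{0}} {f : X → ℕ} (F : ℕ → ℕ) (h : Rk m S U β f) :
    Rk m S U β (fun x => F (f x)) := by
  have hF : StrictMono fun n => n + ∑ i ∈ Finset.range (n + 1), F i := by
    refine strictMono_nat_of_lt_succ fun n => ?_
    rw [Finset.sum_range_succ _ (n + 1)]
    omega
  refine (h.comp_strictMono hU hF).mono_left (Eventually.of_forall fun x => ?_)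
  have : F (f x) ≤ ∑ i ∈ Finset.range (f x + 1), F i :=
    Finset.single_le_sum (f := F) (fun _ _ => Nat.zero_le _) (Finset.self_mem_range_succ _)
  exact this.trans (Nat.le_add_left _ _)

include hU in
theorem Rk.lt_shift {β : Ordinal.{0}} : ∀ {f : X → ℕ}, Measurable[m] f → Rk m S U β f →
    ¬ Bdd U f → ∀ᶠ x in (U : Filter X), f x < f (S x) := by
  induction β using WellFoundedLT.induction with
  | ind β ih =>
  intro f hf h hb
  by_contra hcon
  have hcon' : ∀ᶠ x in (U : Filter X), f (S x) ≤ f x :=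
    (Ultrafilter.eventually_not.2 hcon).mono fun x hx => not_lt.1 hx
  have hpos := not_bdd hb 0
  have hpos' := ae_shift hU (p := fun x => 0 < f x) (measurableSet_rel1 hf _) hpos
  have h1 : ∀ᶠ x in (U : Filter X), f (S x) - 1 < f x :=
    (hpos'.and hcon').mono fun x hx => by
      have := hx.1
      have := hx.2
      omega
  have hb' : ¬ Bdd U fun x => f x - 1 := by
    intro h2
    exact hb ((bdd_or_comp (F := fun n => n + 1) h2).mono (Eventually.of_forall fun x => by
      show f x ≤ f x - 1 + 1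
      omega))
  rw [rk_iff] at h
  rcases h (fun x => f x - 1) (measurable_post hf (fun n => n - 1)) h1 with h2 | ⟨γ, hγ, h2⟩
  · exact hb' h2
  · have h3 := ih γ hγ (measurable_post hf (fun n => n - 1)) h2 hb'
    obtain ⟨x, hx1, hx2⟩ := (h3.and hcon').exists
    omega

/-- Unbounded measurable functions of the least possible rank. -/
structure IsZ (m : MeasurableSpace X) (S : X → X) (U : Ultrafilter X) (z : X → ℕ) : Prop where
  meas : Measurable[m] z
  rk : Rk m S U 0 z
  nb : ¬ Bdd U z

theorem rk_zero_iff {f : X → ℕ} : Rk m S U 0 f ↔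
    ∀ g : X → ℕ, Measurable[m] g → (∀ᶠ x in (U : Filter X), g (S x) < f x) → Bdd U g := by
  rw [rk_iff]
  constructor
  · intro h g hg h1
    rcases h g hg h1 with h2 | ⟨γ, hγ, -⟩
    · exact h2
    · exact absurd hγ (not_lt.2 zero_le)
  · exact fun h g hg h1 => Or.inl (h g hg h1)

theorem exists_isZ {β : Ordinal.{0}} : ∀ {f : X → ℕ}, Measurable[m] f → Rk m S U β f →
    ¬ Bdd U f → ∃ z, IsZ m S U z := by
  induction β using WellFoundedLT.induction with
  | ind β ih =>
  intro f hf h hb
  by_cases h0 : Rk m S U 0 f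
  · exact ⟨f, hf, h0, hb⟩
  · rw [rk_zero_iff] at h0
    push Not at h0
    obtain ⟨g, hg, h1, h2⟩ := h0
    rw [rk_iff] at h
    rcases h g hg h1 with h3 | ⟨γ, hγ, h3⟩
    · exact absurd h3 h2
    · exact ih γ hγ hg h3 h2

/-- The infimum of `z` along the orbit. -/
noncomputable def inff (S : X → X) (z : X → ℕ) (x : X) : ℕ := sInf (range fun j => z (S^[j] x))

theorem inff_le (z : X → ℕ) (x : X) (j : ℕ) : inff S z x ≤ z (S^[j] x) := Nat.sInf_le ⟨j, rfl⟩

theorem le_inff {z : X → ℕ} {x : X} {n : ℕ} (h : ∀ j, n ≤ z (S^[j] x)) : n ≤ inff S z x := by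
  have h1 : inff S z x ∈ range fun j => z (S^[j] x) := Nat.sInf_mem (range_nonempty _)
  obtain ⟨j, hj⟩ := h1
  rw [← hj]
  exact h j

theorem inff_shift (z : X → ℕ) (x : X) : inff S z x ≤ inff S z (S x) :=
  le_inff fun j => by
    rw [← Function.iterate_succ_apply]
    exact inff_le z x (j + 1)

theorem inff_mono {z z' : X → ℕ} (h : ∀ x, z x ≤ z' x) (x : X) : inff S z x ≤ inff S z' x :=
  le_inff fun j => (inff_le z x j).trans (h _)

include hS in
theorem measurable_inff {z : X → ℕ} (hz : Measurable[m] z) : Measurable[m] (inff S z) := by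
  refine measurable_of_Ici fun n => ?_
  have : inff S z ⁻¹' Ici n = ⋂ j, {x | n ≤ z (S^[j] x)} := by
    ext x
    simp only [mem_preimage, mem_Ici, mem_iInter, mem_ofPred_eq]
    exact ⟨fun h j => h.trans (inff_le z x j), fun h => le_inff h⟩
  rw [this]
  exact MeasurableSet.iInter fun j =>
    measurableSet_rel1 (hz.comp (hS.iterate j)) (fun k => n ≤ k)

include hS hU in
theorem ae_inff {z : X → ℕ} (hz : Measurable[m] z)
    (h : ∀ᶠ x in (U : Filter X), z x ≤ z (S x)) :
    ∀ᶠ x in (U : Filter X), ∀ j, inff S z (S^[j] x) = z (S^[j] x) := by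
  have h1 := ae_all hS hU (A := {x | z x ≤ z (S x)})
    (measurableSet_rel hz (hz.comp hS) (fun a b => a ≤ b)) h
  refine h1.mono fun x hx j => ?_
  have h2 : Monotone fun j => z (S^[j] x) := monotone_nat_of_le_succ fun n => by
    rw [Function.iterate_succ_apply']
    exact hx n
  refine le_antisymm (inff_le z _ 0) (le_inff fun i => ?_)
  rw [← Function.iterate_add_apply]
  exact h2 (Nat.le_add_left j i)

end basic

end Run7.h471
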