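import Pool.Agent.Run7.h471.Code

set_option autoImplicit false

/-!
# Every invariant Borel set is bihomomorphic to the path space of a relation
-/

namespace Run7.h471

open Set MeasureTheory Filter Topology

/-- Infinite paths through `D`. -/
def Path0 (D : ℕ → ℕ → Prop) : Set Inc := {x | ∀ i, D (x.1 i) (x.1 (i + 1))}

theorem path0_shift {D : ℕ → ℕ → Prop} {x : Inc} (h : x ∈ Path0 D) : shift x ∈ Path0 D :=
  fun i => h (i + 1)

theorem path0_sub {D : ℕ → ℕ → Prop} {x : Inc} (h : x ∈ Path0 D) : x ∈ Path D :=
  ⟨0, fun i _ => h i⟩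

theorem shift_iter_shift (k : ℕ) (x : Inc) : shift^[k] (shift x) = shift (shift^[k] x) := by
  rw [← Function.iterate_succ_apply, Function.iterate_succ_apply']

/-- The sequence of values of `v` along the orbit. -/
def orb (v : Inc → ℕ) (hv : ∀ y, v y < v (shift y)) (x : Inc) : Inc :=
  ⟨fun i => v (shift^[i] x), strictMono_nat_of_lt_succ fun i => by
    rw [Function.iterate_succ_apply']
    exact hv _⟩

theorem orb_shift (v : Inc → ℕ) (hv : ∀ y, v y < v (shift y)) (x : Inc) :
    orb v hv (shift x) = shift (orb v hv x) :=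
  inc_ext fun _ => rfl

theorem measurable_shift_iter (i : ℕ) : Measurable fun x : Inc => shift^[i] x :=
  measurable_shift.iterate i

theorem measurable_orb {v : Inc → ℕ} (hvm : Measurable v) (hv : ∀ y, v y < v (shift y)) :
    Measurable (orb v hv) :=
  Measurable.subtype_mk (measurable_pi_lambda _ fun i => hvm.comp (measurable_shift_iter i))

/-- The relation read off from `v`. -/
def rel (B : Set Inc) (v : Inc → ℕ) (a b : ℕ) : Prop := ∃ x ∈ B, v x = a ∧ v (shift x) = b

/-- Convergence in the space of increasing sequences is pointwise. -/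
theorem eventually_coord {x : ℕ → Inc} {z : Inc} (h : Tendsto x atTop (𝓝 z)) (k : ℕ) :
    ∀ᶠ j in atTop, (x j).1 k = z.1 k := by
  have hc : Continuous fun y : Inc => y.1 k := (continuous_apply k).comp continuous_subtype_val
  have h2 : Tendsto (fun j => (x j).1 k) atTop (𝓝 (z.1 k)) := (hc.tendsto z).comp h
  rw [nhds_discrete, tendsto_pure] at h2
  exact h2

/-- Prepending the first `j` terms of a sequence. -/
theorem pre_image_apply {m : ℕ → ℕ} (hm : StrictMono m) (j : ℕ) {y : Inc} (hy : y.1 0 = m j)
    (k : ℕ) (hk : k < j) : (pre ((Finset.range j).image m) y).1 k = m k := by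
  have hmono : StrictMono fun i => if i < j then m i else y.1 (i - j) := by
    refine strictMono_nat_of_lt_succ fun i => ?_
    by_cases h1 : i + 1 < j
    · have h2 : i < j := by omega
      simp only [h1, h2, if_true]
      exact hm (Nat.lt_succ_self i)
    · by_cases h2 : i < j
      · have h3 : i + 1 = j := by omega
        simp only [h1, h2, if_true, if_false]
        rw [h3, Nat.sub_self, hy]
        exact hm h2
      · simp only [h1, h2, if_false]
        exact y.2 (by omega)
  have h : pre ((Finset.range j).image m) y = ⟨_, hmono⟩ := by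
    apply inc_eq_of_range
    rw [range_pre]
    ext n
    constructor
    · rintro (h | ⟨i, rfl⟩)
      · rw [Finset.coe_image] at h
        obtain ⟨i, hi, rfl⟩ := h
        have hi' : i < j := by simpa using hi
        exact ⟨i, by simp only [hi', if_true]⟩
      · refine ⟨i + j, ?_⟩
        have h2 : ¬ i + j < j := by omega
        simp only [h2, if_false, Nat.add_sub_cancel]
    · rintro ⟨i, rfl⟩
      by_cases h2 : i < j
      · left
        simp only [h2, if_true]
        rw [Finset.coe_image]
        exact ⟨i, by simpa using h2, rfl⟩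
      · right
        simp only [h2, if_false]
        exact ⟨_, rfl⟩
  rw [h]
  simp only [hk, if_true]

section main

variable {B : Set Inc} (hB : Invariant B) {w : Inc → ℕ → ℕ}
  (hwB : ∀ x : ℕ → Inc, (∀ j, x j ∈ B) →
    (∀ i, ∃ n, ∀ᶠ j in atTop, w (x j) i = n) → ∃ z ∈ B, Tendsto x atTop (𝓝 z))
  {v : Inc → ℕ} (hv : ∀ y, v y < v (shift y))
  (hvw : ∀ y y', v y = v y' → y.1 0 = y'.1 0 ∧
    ∀ s : Finset ℕ, (∀ m ∈ s, m < y.1 0) → ∀ i ≤ y.1 0, w (pre s y) i = w (pre s y') i)

include hB hwB hvw

/-- The key decoding lemma. -/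
theorem decode {n : Inc} (hn : n ∈ Path0 (rel B v)) :
    ∃ z ∈ B, ∀ i, ∀ x ∈ B, v x = n.1 i → x.1 0 = z.1 i := by
  have h1 : ∀ i, ∃ x ∈ B, v x = n.1 i ∧ v (shift x) = n.1 (i + 1) := hn
  choose x hxB hx1 hx2 using h1
  have hm1 : ∀ i, (x i).1 1 = (x (i + 1)).1 0 := by
    intro i
    have h := (hvw (shift (x i)) (x (i + 1)) (by rw [hx2, hx1])).1
    exact h
  set m : ℕ → ℕ := fun i => (x i).1 0 with hmdef
  have hm : StrictMono m := strictMono_nat_of_lt_succ fun i => by
    show (x i).1 0 < (x (i + 1)).1 0
    rw [← hm1]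
    exact (x i).2 Nat.zero_lt_one
  let xs : ℕ → Inc := fun j => pre ((Finset.range j).image m) (x j)
  have hxsB : ∀ j, xs j ∈ B := fun j => (pre_mem_iff hB _ _).2 (hxB j)
  have hstep : ∀ j, ∀ i ≤ j, w (xs j) i = w (xs (j + 1)) i := by
    intro j i hij
    have h2 : xs j = pre ((Finset.range (j + 1)).image m) (shift (x j)) := by
      rw [Finset.range_add_one, Finset.image_insert]
      exact (pre_insert_shift _ _).symm
    rw [h2]
    refine (hvw (shift (x j)) (x (j + 1)) (by rw [hx2, hx1])).2 _ ?_ i ?_
    · intro a ha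
      obtain ⟨b, hb, rfl⟩ := Finset.mem_image.1 ha
      have hb' : b < j + 1 := Finset.mem_range.1 hb
      show m b < (x j).1 1
      rw [hm1]
      exact hm hb'
    · show i ≤ (x j).1 1
      rw [hm1]
      have : j + 1 ≤ m (j + 1) := hm.id_le (j + 1)
      exact (hij.trans (Nat.le_succ j)).trans this
  have hconst : ∀ i, ∃ c, ∀ᶠ j in atTop, w (xs j) i = c := by
    intro i
    refine ⟨w (xs i) i, eventually_atTop.2 ⟨i, fun j hj => ?_⟩⟩
    induction j, hj using Nat.le_induction with
    | base => rfl
    | succ j hj ih => rw [← hstep j i hj, ih]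
  obtain ⟨z, hzB, hz⟩ := hwB xs hxsB hconst
  have hzm : ∀ k, z.1 k = m k := by
    intro k
    have h3 := (eventually_coord hz k).and (eventually_gt_atTop k)
    obtain ⟨j, hj1, hj2⟩ := h3.exists
    rw [← hj1]
    exact pre_image_apply hm j rfl k hj2
  refine ⟨z, hzB, fun i y _ hy => ?_⟩
  rw [hzm]
  exact (hvw y (x i) (by rw [hy, hx1])).1

end main

/-- The first element of a point with the given code. -/
noncomputable def mu (B : Set Inc) (v : Inc → ℕ) (a : ℕ) : ℕ := by
  classical
  exact if h : ∃ x ∈ B, v x = a then h.choose.1 0 else 0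

/-- Decoding. -/
noncomputable def dec (B : Set Inc) (v : Inc → ℕ) (n : Inc) : Inc := by
  classical
  exact if h : StrictMono (fun i => mu B v (n.1 i)) then ⟨_, h⟩ else default

theorem measurable_dec (B : Set Inc) (v : Inc → ℕ) : Measurable (dec B v) := by
  classical
  have h0 : ∀ i, Measurable fun n : Inc => mu B v (n.1 i) := fun i =>
    (measurable_of_countable (mu B v)).comp (measurable_coord i)
  have h1 : MeasurableSet {n : Inc | StrictMono (fun i => mu B v (n.1 i))} := by
    have : {n : Inc | StrictMono (fun i => mu B v (n.1 i))} =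
        ⋂ i, {n : Inc | mu B v (n.1 i) < mu B v (n.1 (i + 1))} := by
      ext n
      simp only [mem_ofPred_eq, mem_iInter]
      exact ⟨fun h i => h (Nat.lt_succ_self i), fun h => strictMono_nat_of_lt_succ h⟩
    rw [this]
    exact MeasurableSet.iInter fun i => measurableSet_lt (h0 i) (h0 (i + 1))
  let f : {n : Inc | StrictMono (fun i => mu B v (n.1 i))} → Inc :=
    fun n => ⟨fun i => mu B v (n.1.1 i), n.2⟩
  have hf : Measurable f :=
    Measurable.subtype_mk (measurable_pi_lambda _ fun i => (h0 i).comp measurable_subtype_coe)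
  have h2 := Measurable.dite (s := {n : Inc | StrictMono (fun i => mu B v (n.1 i))})
    (f := f) (g := fun _ => (default : Inc)) hf measurable_const h1
  exact h2

/-- The least stage from which on a point is a path. -/
noncomputable def stage (D : ℕ → ℕ → Prop) (x : Inc) : ℕ := by
  classical
  exact if h : ∃ k, shift^[k] x ∈ Path0 D then Nat.find h else 0

theorem measurableSet_path0 (D : ℕ → ℕ → Prop) : MeasurableSet (Path0 D) := by
  have : Path0 D = ⋂ i, {x : Inc | D (x.1 i) (x.1 (i + 1))} := by
    ext x; simp [Path0]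
  rw [this]
  refine MeasurableSet.iInter fun i => ?_
  have h1 : Measurable fun x : Inc => (x.1 i, x.1 (i + 1)) :=
    (measurable_coord i).prodMk (measurable_coord (i + 1))
  have h2 : MeasurableSet {p : ℕ × ℕ | D p.1 p.2} := MeasurableSet.of_discrete
  exact h1 h2

theorem mem_path_iff {D : ℕ → ℕ → Prop} {x : Inc} :
    x ∈ Path D ↔ ∃ k, shift^[k] x ∈ Path0 D := by
  constructor
  · rintro ⟨N, hN⟩
    refine ⟨N, fun i => ?_⟩
    rw [shift_iter_apply, shift_iter_apply]
    exact hN (N + i) (Nat.le_add_right _ _)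
  · rintro ⟨k, hk⟩
    refine ⟨k, fun i hi => ?_⟩
    have := hk (i - k)
    rw [shift_iter_apply, shift_iter_apply] at this
    rwa [show k + (i - k) = i by omega, show k + (i - k + 1) = i + 1 by omega] at this

theorem measurableSet_path (D : ℕ → ℕ → Prop) : MeasurableSet (Path D) := by
  have : Path D = ⋃ k, (fun x => shift^[k] x) ⁻¹' Path0 D := by
    ext x
    rw [mem_path_iff]
    simp
  rw [this]
  exact MeasurableSet.iUnion fun k => measurable_shift_iter k (measurableSet_path0 D)

theorem measurable_stage (D : ℕ → ℕ → Prop) : Measurable (stage D) := by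
  classical
  have h : ∀ k, MeasurableSet {x : Inc | shift^[k] x ∈ Path0 D} := fun k =>
    measurable_shift_iter k (measurableSet_path0 D)
  have h2 : MeasurableSet {x : Inc | ∃ k, shift^[k] x ∈ Path0 D} := by
    have : {x : Inc | ∃ k, shift^[k] x ∈ Path0 D} = ⋃ k, {x : Inc | shift^[k] x ∈ Path0 D} := by
      ext x; simp
    rw [this]
    exact MeasurableSet.iUnion h
  unfold stage
  refine Measurable.dite (s := {x : Inc | ∃ k, shift^[k] x ∈ Path0 D})
    (f := fun x => Nat.find x.2) (g := fun _ => 0) ?_ measurable_const h2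
  refine measurable_find (fun x : {x : Inc | ∃ k, shift^[k] x ∈ Path0 D} => x.2) fun k => ?_
  exact measurable_subtype_coe (h k)

theorem stage_spec {D : ℕ → ℕ → Prop} {x : Inc} (hx : x ∈ Path D) :
    shift^[stage D x] x ∈ Path0 D := by
  classical
  have h := mem_path_iff.1 hx
  rw [stage, dif_pos h]
  exact Nat.find_spec h

theorem stage_le {D : ℕ → ℕ → Prop} {x : Inc} {k : ℕ} (hk : shift^[k] x ∈ Path0 D) :
    stage D x ≤ k := by
  classical
  rw [stage, dif_pos ⟨k, hk⟩]
  exact Nat.find_min' _ hk

theorem stage_shift {D : ℕ → ℕ → Prop} {x : Inc} (hx : x ∈ Path D) (hx' : shift x ∈ Path D) :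
    stage D (shift x) = stage D x - 1 := by
  have h1 := stage_spec hx
  have h2 := stage_spec hx'
  rw [← Function.iterate_succ_apply] at h2
  have h3 : stage D x ≤ stage D (shift x) + 1 := stage_le h2
  rcases Nat.eq_zero_or_pos (stage D x) with h0 | h0
  · rw [h0] at h1 ⊢
    have h4 : stage D (shift x) ≤ 0 := stage_le (k := 0) (path0_shift h1)
    omega
  · have h4 : stage D (shift x) ≤ stage D x - 1 := by
      apply stage_le
      rw [← Function.iterate_succ_apply, Nat.succ_eq_add_one, Nat.sub_add_cancel h0]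
      exact h1
    omega

/-- **Main construction.** A Borel set invariant under `E0` and the path space of a suitable
relation on the natural numbers map to each other by Borel homomorphisms. -/
theorem reduction' {B : Set Inc} (hB : Invariant B) (hBm : MeasurableSet B) :
    ∃ v : Inc → ℕ, Measurable v ∧ (∀ y, v y < v (shift y)) ∧
      BorelHom B (Path (rel B v)) ∧ BorelHom (Path (rel B v)) B := by
  obtain ⟨w, hw, hwB⟩ := exists_code hBm
  obtain ⟨v, hvm, hv, hvw⟩ := exists_v hw
  have hdec : ∀ n ∈ Path0 (rel B v), dec B v n ∈ B ∧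
      dec B v (shift n) = shift (dec B v n) := by
    classical
    have key : ∀ n ∈ Path0 (rel B v), ∃ z ∈ B, ∀ i, mu B v (n.1 i) = z.1 i := by
      intro n hn
      obtain ⟨z, hzB, hz⟩ := decode hB hwB hvw hn
      refine ⟨z, hzB, fun i => ?_⟩
      have h : ∃ x ∈ B, v x = n.1 i := by
        obtain ⟨x, hx, hx1, -⟩ := hn i
        exact ⟨x, hx, hx1⟩
      rw [mu, dif_pos h]
      exact hz i _ h.choose_spec.1 h.choose_spec.2
    have key2 : ∀ n ∈ Path0 (rel B v), ∃ h : StrictMono (fun i => mu B v (n.1 i)),
        dec B v n = ⟨_, h⟩ ∧ dec B v n ∈ B := by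
      intro n hn
      obtain ⟨z, hzB, hz⟩ := key n hn
      have h1 : (fun i => mu B v (n.1 i)) = z.1 := funext hz
      have h2 : StrictMono (fun i => mu B v (n.1 i)) := by rw [h1]; exact z.2
      have h3 : dec B v n = ⟨_, h2⟩ := by rw [dec, dif_pos h2]
      refine ⟨h2, h3, ?_⟩
      rw [h3]
      have h4 : (⟨_, h2⟩ : Inc) = z := Subtype.ext h1
      rw [h4]
      exact hzB
    intro n hn
    obtain ⟨h1, h2, h3⟩ := key2 n hn
    obtain ⟨h4, h5, -⟩ := key2 (shift n) (path0_shift hn)
    refine ⟨h3, ?_⟩
    rw [h5, h2]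
    exact inc_ext fun _ => rfl
  refine ⟨v, hvm, hv, ?_, ?_⟩
  · refine ⟨fun x => orb v hv x, (measurable_orb hvm hv).comp measurable_subtype_coe,
      fun x => ?_, fun x y hxy => ?_⟩
    · refine path0_sub fun i => ⟨shift^[i] x, (mem_iter_iff hB _ _).2 x.2, rfl, ?_⟩
      show v (shift (shift^[i] x)) = v (shift^[i + 1] x)
      rw [Function.iterate_succ_apply']
    · rcases hxy with h | h
      · left
        show orb v hv y.1 = shift (orb v hv x.1)
        rw [h, orb_shift]
      · right
        show orb v hv x.1 = shift (orb v hv y.1)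
        rw [h, orb_shift]
  · let F : ℕ → Inc → Inc := fun k n => shift^[k] (dec B v (shift^[k] n))
    have hF : ∀ k, Measurable (F k) := fun k =>
      (measurable_shift_iter k).comp ((measurable_dec B v).comp (measurable_shift_iter k))
    have hG : Measurable fun n : Inc => F (stage (rel B v) n) n :=
      measurable_glue hF (measurable_stage _)
    have hstep : ∀ x y : Inc, x ∈ Path (rel B v) → y ∈ Path (rel B v) → y = shift x →
        Adj (F (stage (rel B v) x) x) (F (stage (rel B v) y) y) := by
      rintro x _ hx hy rfl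
      have h1 := stage_shift hx hy
      have h2 := stage_spec hx
      rcases Nat.eq_zero_or_pos (stage (rel B v) x) with h0 | h0
      · left
        have h3 : stage (rel B v) (shift x) = 0 := by omega
        rw [h0] at h2
        rw [h0, h3]
        exact (hdec x h2).2
      · right
        obtain ⟨k, hk⟩ : ∃ k, stage (rel B v) x = k + 1 := ⟨stage (rel B v) x - 1, by omega⟩
        have h3 : stage (rel B v) (shift x) = k := by omega
        rw [hk, h3]
        show shift^[k + 1] (dec B v (shift^[k + 1] x)) =
          shift (shift^[k] (dec B v (shift^[k] (shift x))))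
        rw [← Function.iterate_succ_apply' shift k, ← Function.iterate_succ_apply shift k x]
    refine ⟨fun n => F (stage (rel B v) n) n, hG.comp measurable_subtype_coe, fun n => ?_,
      fun x y hxy => ?_⟩
    · exact (mem_iter_iff hB _ _).2 (hdec _ (stage_spec n.2)).1
    · rcases hxy with h | h
      · exact hstep x y x.2 y.2 h
      · exact Or.symm (hstep y x y.2 x.2 h)

theorem reduction {B : Set Inc} (hB : Invariant B) (hBm : MeasurableSet B) :
    ∃ D : ℕ → ℕ → Prop, (∀ a b, D a b → a < b) ∧ BorelHom B (Path D) ∧ BorelHom (Path D) B := by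
  obtain ⟨v, -, hv, h1, h2⟩ := reduction' hB hBm
  refine ⟨rel B v, ?_, h1, h2⟩
  rintro a b ⟨x, -, rfl, rfl⟩
  exact hv x

end Run7.h471
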