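import Pool.Agent.Run7.h471.Obj
import Pool.Agent.Run7.h471.Bound2
import Pool.Agent.Run7.h471.Homog

set_option autoImplicit false

/-!
# Compressing a function of countable rank to an object of rank zero
-/

namespace Run7.h471

open Set Filter Topology MeasureTheory

/-! ### Sizes of codes -/

/-- A bound for all codes of triples with entries at most `n`. -/
def bnd (n : ℕ) : ℕ :=
  n + ((Finset.range (n + 1)) ×ˢ (Finset.range (n + 1)) ×ˢ (Finset.range (n + 1)).powerset).sup
    (fun p => enc p.1 p.2.1 p.2.2)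

theorem enc_le_bnd {i t n : ℕ} {A : Finset ℕ} (hi : i ≤ n) (ht : t ≤ n)
    (hA : A ⊆ Finset.range (n + 1)) : enc i t A ≤ bnd n := by
  have h : (i, t, A) ∈ (Finset.range (n + 1)) ×ˢ (Finset.range (n + 1)) ×ˢ
      (Finset.range (n + 1)).powerset := by
    simp only [Finset.mem_product, Finset.mem_range, Finset.mem_powerset]
    exact ⟨by omega, by omega, hA⟩
  exact (Finset.le_sup (f := fun p : ℕ × ℕ × Finset ℕ => enc p.1 p.2.1 p.2.2) h).trans
    (Nat.le_add_left _ _)

theorem le_bnd (n : ℕ) : n ≤ bnd n := Nat.le_add_right _ _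

theorem bnd_mono : Monotone bnd := by
  intro a b hab
  refine Nat.add_le_add hab (Finset.sup_mono ?_)
  have h : Finset.range (a + 1) ⊆ Finset.range (b + 1) := Finset.range_mono (by omega)
  exact Finset.product_subset_product h (Finset.product_subset_product h
    (Finset.powerset_mono.2 h))

/-- The number of codes at most `n` of ordinals below `α`. -/
noncomputable def cnt (o : ℕ → Ordinal.{0}) (α : Ordinal.{0}) (n : ℕ) : ℕ := by
  classical
  exact ((Finset.range (n + 1)).filter (fun i => o i < α)).card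

theorem cnt_lt {o : ℕ → Ordinal.{0}} {α α' : Ordinal.{0}} {n i : ℕ} (hi : i ≤ n) (ho : o i = α)
    (h : α < α') : cnt o α n + 1 ≤ cnt o α' n := by
  classical
  refine Finset.card_lt_card (Finset.ssubset_iff_subset_ne.2 ⟨fun j hj => ?_, fun heq => ?_⟩)
  · obtain ⟨h1, h2⟩ := Finset.mem_filter.1 hj
    exact Finset.mem_filter.2 ⟨h1, h2.trans h⟩
  · have h1 : i ∈ (Finset.range (n + 1)).filter (fun i => o i < α') :=
      Finset.mem_filter.2 ⟨Finset.mem_range.2 (Nat.lt_succ_of_le hi), by rw [ho]; exact h⟩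
    rw [← heq] at h1
    exact absurd (Finset.mem_filter.1 h1).2 (by rw [ho]; exact lt_irrefl _)

theorem cnt_le (o : ℕ → Ordinal.{0}) (α : Ordinal.{0}) (n : ℕ) : cnt o α n ≤ n + 1 := by
  classical
  exact (Finset.card_filter_le _ _).trans (by simp)

/-- The threshold of an object of level `α` at a place where `z` has the value `n`. -/
noncomputable def tau (o : ℕ → Ordinal.{0}) (α : Ordinal.{0}) (n : ℕ) : ℕ := bnd^[cnt o α n] n

theorem iter_bnd_mono {n j k : ℕ} (h : j ≤ k) : bnd^[j] n ≤ bnd^[k] n := by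
  have h1 : Monotone fun j => bnd^[j] n := monotone_nat_of_le_succ fun j => by
    rw [Function.iterate_succ_apply']
    exact le_bnd _
  exact h1 h

theorem le_tau (o : ℕ → Ordinal.{0}) (α : Ordinal.{0}) (n : ℕ) : n ≤ tau o α n :=
  iter_bnd_mono (j := 0) (Nat.zero_le _)

theorem bnd_tau_le {o : ℕ → Ordinal.{0}} {α α' : Ordinal.{0}} {n i : ℕ} (hi : i ≤ n)
    (ho : o i = α) (h : α < α') : bnd (tau o α n) ≤ tau o α' n := by
  rw [tau, tau, ← Function.iterate_succ_apply' bnd]
  exact iter_bnd_mono (cnt_lt hi ho h)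

theorem tau_le (o : ℕ → Ordinal.{0}) (α : Ordinal.{0}) (n : ℕ) : tau o α n ≤ bnd^[n + 1] n :=
  iter_bnd_mono (cnt_le o α n)

/-- The least code of an ordinal. -/
noncomputable def cod (o : ℕ → Ordinal.{0}) (α : Ordinal.{0}) : ℕ := sInf {i | o i = α}

theorem o_cod {o : ℕ → Ordinal.{0}} {α : Ordinal.{0}} (h : ∃ i, o i = α) : o (cod o α) = α :=
  Nat.sInf_mem (s := {i | o i = α}) h

theorem cod_le {o : ℕ → Ordinal.{0}} {α : Ordinal.{0}} {i : ℕ} (h : o i = α) : cod o α ≤ i :=
  Nat.sInf_le h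

/-! ### Traces -/

open Classical in
/-- The trace of `u` below `t`. -/
noncomputable def tr (o : ℕ → Ordinal.{0}) (D : ℕ → ℕ → Prop) (t u : ℕ) : Finset ℕ :=
  (Finset.range (t + 1)).filter (fun a => o (idx a) ≤ o (idx u) ∧ Rel o D a u)

open Classical in
theorem mem_tr {o : ℕ → Ordinal.{0}} {D : ℕ → ℕ → Prop} {t u a : ℕ} :
    a ∈ tr o D t u ↔ a ≤ t ∧ o (idx a) ≤ o (idx u) ∧ Rel o D a u := by
  rw [tr, Finset.mem_filter, Finset.mem_range, Nat.lt_succ_iff]

theorem tr_subset {o : ℕ → Ordinal.{0}} {D : ℕ → ℕ → Prop} {t u : ℕ} :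
    tr o D t u ⊆ Finset.range (t + 1) := fun a ha => by
  rw [mem_tr] at ha
  rw [Finset.mem_range]
  omega

section

variable {X : Type} {S : X → X} {o : ℕ → Ordinal.{0}} {D : ℕ → ℕ → Prop}

/-- The object of level `α` obtained from the number `v` at the point `y`. -/
noncomputable def W (S : X → X) (z : X → ℕ) (o : ℕ → Ordinal.{0}) (D : ℕ → ℕ → Prop)
    (α : Ordinal.{0}) (v : ℕ) (y : X) : ℕ := by
  classical
  exact if h : α = 0 then enc 0 v ∅ else
    enc (cod o α) (tau o α (z y)) (tr o D (tau o α (z y)) (W S z o D (desc o α (z (S y))) v (S y)))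
termination_by α
decreasing_by exact desc_lt h _

theorem W_zero (z : X → ℕ) (v : ℕ) (y : X) : W S z o D 0 v y = enc 0 v ∅ := by
  rw [W]
  simp

theorem W_pos (z : X → ℕ) {α : Ordinal.{0}} (h : α ≠ 0) (v : ℕ) (y : X) : W S z o D α v y =
    enc (cod o α) (tau o α (z y))
      (tr o D (tau o α (z y)) (W S z o D (desc o α (z (S y))) v (S y))) := by
  rw [W]
  simp [h]

theorem lev_W (h0 : o 0 = 0) (z : X → ℕ) {α : Ordinal.{0}} (h : ∃ i, o i = α) (v : ℕ) (y : X) :
    o (idx (W S z o D α v y)) = α := by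
  rcases eq_or_ne α 0 with rfl | hα
  · rw [W_zero, idx_enc, h0]
  · rw [W_pos z hα, idx_enc, o_cod h]

theorem W_le (z : X → ℕ) {α α' : Ordinal.{0}} {i : ℕ} {y : X} (hi : i ≤ z y)
    (ho : o i = α) (h : α < α') {v : ℕ} (hv : α = 0 → v ≤ z y) :
    W S z o D α v y ≤ tau o α' (z y) := by
  rcases eq_or_ne α 0 with rfl | hα
  · rw [W_zero]
    refine (enc_le_bnd (Nat.zero_le _) (hv rfl) (Finset.empty_subset _)).trans ?_
    exact (bnd_mono (le_tau o 0 (z y))).trans (bnd_tau_le hi ho h)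
  · rw [W_pos z hα]
    refine (enc_le_bnd ?_ le_rfl tr_subset).trans (bnd_tau_le hi ho h)
    exact ((cod_le ho).trans hi).trans (le_tau _ _ _)

theorem rel_base (h0 : o 0 = 0) (z : X → ℕ) (α' : Ordinal.{0}) : (∃ i, o i = α') →
    ∀ (y : X) {v v' : ℕ}, Monotone (oseq S z y) → v ≤ z y → D v v' →
    Rel o D (enc 0 v ∅) (W S z o D α' v' y) := by
  induction α' using WellFoundedLT.induction with
  | ind α' ih =>
  intro hα' y v v' hmono hv hD
  rw [rel_zero (by rw [idx_enc, h0]), lev_W h0 z hα']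
  rcases eq_or_ne α' 0 with rfl | hne
  · left
    refine ⟨rfl, ?_⟩
    rw [W_zero, thr_enc, thr_enc]
    exact hD
  · right
    obtain ⟨i, hi1, hi2⟩ := exists_code_desc h0 α' (z (S y))
    have hz1 : z y ≤ z (S y) := hmono (Nat.zero_le 1)
    have hmono' : Monotone (oseq S z (S y)) := by
      rw [← oseq_succ]
      exact fun a b hab => hmono (Nat.succ_le_succ hab)
    have h1 := ih _ (desc_lt hne (z (S y))) ⟨i, hi2⟩ (S y) hmono' (hv.trans hz1) hD
    have h2 : enc 0 v ∅ ≤ tau o α' (z y) := by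
      have h3 : (0 : Ordinal.{0}) < α' := pos_iff_ne_zero.2 hne
      refine (enc_le_bnd (Nat.zero_le _) hv (Finset.empty_subset _)).trans ?_
      exact (bnd_mono (le_tau o 0 (z y))).trans (bnd_tau_le (Nat.zero_le _) h0 h3)
    refine ⟨hne, ?_, ?_⟩
    · rw [W_pos z hne, st_enc, mem_tr]
      refine ⟨h2, ?_, h1⟩
      rw [idx_enc, h0]
      exact zero_le
    · rw [W_pos z hne, thr_enc]
      exact h2

/-- The objects at consecutive points are related. -/
theorem rel_W (h0 : o 0 = 0) (z : X → ℕ) (α : Ordinal.{0}) : (∃ i, o i = α) →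
    ∀ {α' : Ordinal.{0}}, (∃ i, o i = α') → α ≤ α' → ∀ (y : X) {v v' : ℕ},
    Monotone (oseq S z y) → v ≤ hd o α (oseq S z y) → D v v' →
    Rel o D (W S z o D α v y) (W S z o D α' v' (S y)) := by
  induction α using WellFoundedLT.induction with
  | ind α ih =>
  intro hα α' hα' hle y v v' hmono hv hD
  have hz1 : z y ≤ z (S y) := hmono (Nat.zero_le 1)
  have hz2 : z (S y) ≤ z (S (S y)) := hmono (Nat.le_succ 1)
  have hmono' : Monotone (oseq S z (S y)) := by
    rw [← oseq_succ]
    exact fun a b hab => hmono (Nat.succ_le_succ hab)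
  rcases eq_or_ne α 0 with rfl | hne
  · rw [W_zero]
    rw [hd_zero] at hv
    exact rel_base h0 z α' hα' (S y) hmono' (le_trans hv hz1) hD
  · have hne' : α' ≠ 0 := fun h => hne (le_antisymm (h ▸ hle) zero_le)
    rw [rel_pos (by rw [lev_W h0 z hα]; exact hne), lev_W h0 z hα, lev_W h0 z hα']
    refine ⟨hle, W S z o D (desc o α (z (S y))) v (S y), ?_⟩
    obtain ⟨i, hi1, hi2⟩ := exists_code_desc h0 α (z (S y))
    obtain ⟨i', hi1', hi2'⟩ := exists_code_desc h0 α' (z (S (S y)))
    have hv' : v ≤ hd o (desc o α (z (S y))) (oseq S z (S y)) := by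
      rw [hd_of_ne o hne, oseq_succ] at hv
      exact hv
    have hdl : desc o α (z (S y)) ≤ desc o α' (z (S (S y))) := desc_mono hle hz2
    have hrel := ih _ (desc_lt hne (z (S y))) ⟨i, hi2⟩ ⟨i', hi2'⟩ hdl (S y) hmono' hv' hD
    have hbound : W S z o D (desc o α (z (S y))) v (S y) ≤ tau o α' (z (S y)) :=
      W_le z hi1 hi2 ((desc_lt hne _).trans_le hle) fun h => by
        rw [h, hd_zero] at hv'
        exact hv'
    refine ⟨?_, ?_, ?_, ?_⟩
    · rw [W_pos z hne', st_enc, mem_tr]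
      refine ⟨hbound, ?_, hrel⟩
      rw [lev_W h0 z ⟨i, hi2⟩, lev_W h0 z ⟨i', hi2'⟩]
      exact hdl
    · rw [W_pos z hne', thr_enc]
      exact hbound
    · rw [lev_W h0 z ⟨i, hi2⟩]
      exact desc_lt hne _
    · intro a ha
      rw [W_pos z hne, thr_enc] at ha
      rw [W_pos z hne, st_enc, mem_tr]
      exact ⟨fun h => h.2, fun h => ⟨ha, h⟩⟩

theorem measurable_W {m : MeasurableSpace X} (hS : Measurable[m, m] S) {z c : X → ℕ}
    (hz : Measurable[m] z) (hc : Measurable[m] c) (α : Ordinal.{0}) :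
    ∀ n : ℕ, Measurable[m] fun x => W S z o D α (c x) (S^[n] x) := by
  induction α using WellFoundedLT.induction with
  | ind α ih =>
  intro n
  rcases eq_or_ne α 0 with rfl | hne
  · simp only [W_zero]
    exact measurable_post hc (fun v => enc 0 v ∅)
  · have h1 : (fun x => W S z o D α (c x) (S^[n] x)) = fun x =>
        (fun k x => enc (cod o α) (tau o α (z (S^[n] x)))
          (tr o D (tau o α (z (S^[n] x))) (W S z o D (desc o α k) (c x) (S^[n + 1] x))))
          (z (S^[n + 1] x)) x := by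
      funext x
      rw [W_pos z hne]
      simp only [Function.iterate_succ_apply']
    rw [h1]
    refine measurable_glue' (F := fun k x => enc (cod o α) (tau o α (z (S^[n] x)))
          (tr o D (tau o α (z (S^[n] x))) (W S z o D (desc o α k) (c x) (S^[n + 1] x))))
      (fun k => ?_) (hz.comp (hS.iterate (n + 1)))
    exact measurable_post2 (hz.comp (hS.iterate n)) (ih _ (desc_lt hne k) (n + 1))
      (fun a b => enc (cod o α) (tau o α a) (tr o D (tau o α a) b))

end

/-! ### The base case -/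

section base

variable {X : Type} {m : MeasurableSpace X} {S : X → X} {U : Ultrafilter X}

theorem clique_step
    (hU : ∀ A : Set X, MeasurableSet[m] A → A ∈ U → S ⁻¹' A ∈ U) {e : X → ℕ}
    (he : IsZ m S U e) {P : ℕ → ℕ → Prop} (h : ∀ᶠ x in (U : Filter X), P (e x) (e (S x)))
    (F : Finset ℕ) (hF : ∀ a ∈ F, ∀ᶠ x in (U : Filter X), P a (e x)) :
    ∃ b, (∀ a ∈ F, P a b) ∧ ∀ᶠ x in (U : Filter X), P b (e x) := by
  have hF' : ∀ᶠ x in (U : Filter X), ∀ a ∈ F, P a (e x) := (Finset.eventually_all F).2 hF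
  let G : ℕ → ℕ := fun k => sInf {n | (∀ a ∈ F, P a n) ∧ P n k}
  have hmem : ∀ᶠ x in (U : Filter X), e x ∈ {n | (∀ a ∈ F, P a n) ∧ P n (e (S x))} :=
    (hF'.and h).mono fun x hx => hx
  have hG : ∀ᶠ x in (U : Filter X), G (e (S x)) ≤ e x := hmem.mono fun x hx => Nat.sInf_le hx
  have hGm : Measurable[m] fun x => G (e x) := measurable_post he.meas G
  by_cases hlt : ∀ᶠ x in (U : Filter X), G (e (S x)) < e x
  · obtain ⟨b, hb⟩ := exists_const (rk_zero_iff.1 he.rk (fun x => G (e x)) hGm hlt)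
    have hb' := ae_shift hU (p := fun x => G (e x) = b)
      (measurableSet_rel1 hGm (fun k => k = b)) hb
    have h1 : ∀ᶠ x in (U : Filter X), (∀ a ∈ F, P a b) ∧ P b (e (S x)) := by
      refine (hmem.and hb').mono fun x hx => ?_
      have h2 : G (e (S x)) ∈ {n | (∀ a ∈ F, P a n) ∧ P n (e (S x))} := Nat.sInf_mem ⟨_, hx.1⟩
      rw [hx.2] at h2
      exact h2
    obtain ⟨x, hx⟩ := h1.exists
    exact ⟨b, hx.1, ae_of_shift hU (p := fun x => P b (e x))
      (measurableSet_rel1 he.meas (fun k => P b k)) (h1.mono fun x hx => hx.2)⟩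
  · exfalso
    have heq : ∀ᶠ x in (U : Filter X), e x = G (e (S x)) :=
      (hG.and (Ultrafilter.eventually_not.2 hlt)).mono fun x hx => by
        have := hx.1
        have := hx.2
        omega
    have hpos := not_bdd he.nb 0
    have h1 : ∀ᶠ x in (U : Filter X), G (e (S x)) - 1 < e x :=
      (heq.and hpos).mono fun x hx => by
        have := hx.1
        have := hx.2
        omega
    have h2 := rk_zero_iff.1 he.rk (fun x => G (e x) - 1) (measurable_post hGm (fun n => n - 1)) h1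
    have h3 : Bdd U fun x => G (e x) := by
      refine (bdd_or_comp (F := fun n => n + 1) h2).mono (Eventually.of_forall fun x => ?_)
      show G (e x) ≤ G (e x) - 1 + 1
      omega
    obtain ⟨n, hn⟩ := h3
    have h4 := ae_shift hU (p := fun x => G (e x) ≤ n) (measurableSet_rel1 hGm (fun k => k ≤ n)) hn
    exact he.nb ⟨n, (heq.and h4).mono fun x hx => by rw [hx.1]; exact hx.2⟩

/-- The base case: a related function of rank zero gives an infinite clique, or a loop. -/
theorem clique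
    (hU : ∀ A : Set X, MeasurableSet[m] A → A ∈ U → S ⁻¹' A ∈ U) {e : X → ℕ}
    (hem : Measurable[m] e) (he : Rk m S U 0 e) {P : ℕ → ℕ → Prop}
    (h : ∀ᶠ x in (U : Filter X), P (e x) (e (S x))) :
    ∃ a : ℕ → ℕ, ∀ i j, i < j → P (a i) (a j) := by
  classical
  by_cases hb : Bdd U e
  · obtain ⟨n, hn⟩ := exists_const hb
    have hn' := ae_shift hU (p := fun x => e x = n) (measurableSet_rel1 hem (fun k => k = n)) hn
    obtain ⟨x, ⟨hx1, hx2⟩, hx3⟩ := ((h.and hn).and hn').exists
    rw [hx2, hx3] at hx1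
    exact ⟨fun _ => n, fun _ _ _ => hx1⟩
  · have hz : IsZ m S U e := ⟨hem, he, hb⟩
    have hstep : ∀ F : {F : Finset ℕ // ∀ a ∈ F, ∀ᶠ x in (U : Filter X), P a (e x)},
        ∃ b, (∀ a ∈ F.1, P a b) ∧ ∀ᶠ x in (U : Filter X), P b (e x) := fun F =>
      clique_step hU hz h F.1 F.2
    choose nx hnx1 hnx2 using hstep
    let s : ℕ → {F : Finset ℕ // ∀ a ∈ F, ∀ᶠ x in (U : Filter X), P a (e x)} := fun k =>
      Nat.rec ⟨∅, by simp⟩ (fun _ F => ⟨insert (nx F) F.1, fun a ha => by
        rcases Finset.mem_insert.1 ha with rfl | ha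
        · exact hnx2 F
        · exact F.2 a ha⟩) k
    have hs : ∀ k, (s (k + 1)).1 = insert (nx (s k)) (s k).1 := fun k => rfl
    have hmem : ∀ i j, i < j → nx (s i) ∈ (s j).1 := by
      intro i j hij
      induction j, hij using Nat.le_induction with
      | base => rw [hs]; exact Finset.mem_insert_self _ _
      | succ j hj ih => rw [hs]; exact Finset.mem_insert_of_mem ih
    exact ⟨fun k => nx (s k), fun i j hij => hnx1 (s j) _ (hmem i j hij)⟩

end base

/-! ### Enumerating countable ordinals -/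

theorem exists_enum_ordinal {β : Ordinal.{0}} (h : (Iio β).Countable) :
    ∃ o : ℕ → Ordinal.{0}, o 0 = 0 ∧ ∀ α ≤ 3 * (β + 1), ∃ i, o i = α := by
  have h1 : (Iio (3 * (β + 1) + 1)).Countable := by
    rw [← Cardinal.le_aleph0_iff_set_countable, Cardinal.mk_Iio_ordinal,
      Cardinal.lift_le_aleph0] at h ⊢
    rw [Ordinal.card_add, Ordinal.card_mul, Ordinal.card_add]
    have h3 : Ordinal.card 3 ≤ Cardinal.aleph0 := by
      have : (3 : Ordinal.{0}) = ((3 : ℕ) : Ordinal.{0}) := by norm_num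
      rw [this, Ordinal.card_nat]
      exact Cardinal.natCast_lt_aleph0.le
    have h4 : Ordinal.card 1 ≤ Cardinal.aleph0 := by
      rw [Ordinal.card_one]
      exact Cardinal.one_le_aleph0
    refine Cardinal.add_le_aleph0.2 ⟨?_, h4⟩
    refine (mul_le_mul' h3 (Cardinal.add_le_aleph0.2 ⟨h, h4⟩)).trans ?_
    rw [Cardinal.aleph0_mul_aleph0]
  obtain ⟨e, he⟩ := h1.exists_eq_range ⟨0, by simp⟩
  refine ⟨fun n => Nat.casesOn n 0 e, rfl, fun α hα => ?_⟩
  have h2 : α ∈ Iio (3 * (β + 1) + 1) := Order.lt_add_one_iff.2 hα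
  rw [he] at h2
  obtain ⟨n, hn⟩ := h2
  exact ⟨n + 1, hn⟩

/-- **Main theorem on ranks.** If `c` has countable rank with respect to a shift invariant
ultrafilter and is almost everywhere related to its shift, there is a continuous array. -/
theorem array_of_rank {X : Type} {m : MeasurableSpace X} {S : X → X} {U : Ultrafilter X}
    (hS : Measurable[m, m] S)
    (hU : ∀ A : Set X, MeasurableSet[m] A → A ∈ U → S ⁻¹' A ∈ U) {D : ℕ → ℕ → Prop} {c : X → ℕ}
    (hc : Measurable[m] c) (hD : ∀ᶠ x in (U : Filter X), D (c x) (c (S x)))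
    {β : Ordinal.{0}} (hβ : (Iio β).Countable) (hr : Rk m S U β c) :
    ∃ g : Inc → ℕ, Continuous g ∧ ∀ x, D (g x) (g (shift x)) := by
  by_cases hb : Bdd U c
  · obtain ⟨n, hn⟩ := exists_const hb
    have hn' := ae_shift hU (p := fun x => c x = n) (measurableSet_rel1 hc (fun k => k = n)) hn
    obtain ⟨x, ⟨hx1, hx2⟩, hx3⟩ := ((hD.and hn).and hn').exists
    rw [hx2, hx3] at hx1
    exact ⟨fun _ => n, continuous_const, fun _ => hx1⟩
  obtain ⟨o, h0, ho⟩ := exists_enum_ordinal hβ
  obtain ⟨z, hz, hcz⟩ := hardy_bound hS hU hβ ho (exists_isZ hc hr hb) hc hr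
  set α : Ordinal.{0} := 3 * (β + 1) with hα
  have hα0 : α ≠ 0 := by
    rw [hα, mul_add, mul_one]
    simp
  have hoα := ho α le_rfl
  let e : X → ℕ := fun x => W S z o D α (c x) x
  have hem : Measurable[m] e := measurable_W hS hz.meas hc α 0
  have hebd : ∀ x, e x ≤ bnd (cod o α + bnd^[z x + 1] (z x)) := by
    intro x
    show W S z o D α (c x) x ≤ _
    rw [W_pos z hα0]
    have h1 := tau_le o α (z x)
    refine enc_le_bnd (Nat.le_add_right _ _) (h1.trans (Nat.le_add_left _ _))
      (tr_subset.trans (Finset.range_mono ?_))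
    have := h1.trans (Nat.le_add_left _ (cod o α))
    omega
  have her : Rk m S U 0 e :=
    (hz.rk.comp hU (fun n => bnd (cod o α + bnd^[n + 1] n))).mono_left (Eventually.of_forall hebd)
  have hrel : ∀ᶠ x in (U : Filter X), Rel o D (e x) (e (S x)) :=
    ((hcz.and hD).and (hz.ae_monotone hS hU)).mono fun x hx =>
      rel_W h0 z α hoα hoα le_rfl x hx.2 hx.1.1 hx.1.2
  obtain ⟨a, ha⟩ := clique hU hem her hrel
  have hv : Continuous fun x : Inc => a (x.1 0) := by
    have h1 : Continuous fun x : Inc => x.1 0 := (continuous_apply 0).comp continuous_subtype_val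
    exact (continuous_of_discreteTopology (f := a)).comp h1
  exact decode_array continuous_shift hv fun x => ha _ _ (x.2 Nat.zero_lt_one)

end Run7.h471
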