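import Pool.Agent.Run7.h471.Trace

set_option autoImplicit false

/-!
# A shift invariant ultrafilter all of whose Borel functions have countable rank
-/

namespace Run7.h471

open Set Filter Topology MeasureTheory

/-- The first `n` values. -/
def pref (x : Inc) (n : ℕ) : List ℕ := (List.range n).map x.1

theorem pref_length (x : Inc) (n : ℕ) : (pref x n).length = n := by simp [pref]

theorem pref_succ (x : Inc) (n : ℕ) : pref x (n + 1) = pref x n ++ [x.1 n] := by
  simp [pref, List.range_succ]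

theorem pref_cons (x : Inc) (n : ℕ) : pref x (n + 1) = x.1 0 :: pref (shift x) n := by
  simp [pref, List.range_succ_eq_map, Function.comp_def]

theorem pref_take (x : Inc) {j n : ℕ} (h : j ≤ n) : (pref x n).take j = pref x j := by
  rw [pref, pref, ← List.map_take, List.take_range, min_eq_left h]

/-- Points extending `s` and following `σ` from there on. -/
def Cone (s : List ℕ) (σ : List ℕ → Set ℕ) : Set Inc :=
  {x | pref x s.length = s ∧ ∀ n ≥ s.length, x.1 n ∈ σ (pref x n)}

/-- All values of `σ` belong to the ultrafilter. -/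
def Good (V : Filter ℕ) (σ : List ℕ → Set ℕ) : Prop := ∀ s, σ s ∈ V

/-- Homogeneity with respect to trees with nodes branching in `V`. -/
def CRV (V : Filter ℕ) (A : Set Inc) : Prop :=
  ∀ s, ∃ σ, Good V σ ∧ ((∀ x ∈ Cone s σ, x ∈ A) ∨ ∀ x ∈ Cone s σ, x ∉ A)

variable {V : Filter ℕ}

theorem Cone_mono {s : List ℕ} {σ τ : List ℕ → Set ℕ} (h : ∀ t, σ t ⊆ τ t) :
    Cone s σ ⊆ Cone s τ := fun _ hx => ⟨hx.1, fun n hn => h _ (hx.2 n hn)⟩

/-- Gluing strategies of the immediate successors. -/
theorem glue_cones {t : List ℕ} {N : Set ℕ} (hN : N ∈ V) {τ : ℕ → List ℕ → Set ℕ}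
    (hτ : ∀ n, Good V (τ n)) {P : Inc → Prop} (h : ∀ n ∈ N, ∀ x ∈ Cone (t ++ [n]) (τ n), P x) :
    ∃ σ, Good V σ ∧ ∀ x ∈ Cone t σ, P x := by
  classical
  refine ⟨fun u => if u.length ≤ t.length then N else τ (u.getD t.length 0) u, fun u => ?_,
    fun x hx => ?_⟩
  · by_cases h1 : u.length ≤ t.length
    · simp only [h1, if_true]; exact hN
    · simp only [h1, if_false]; exact hτ _ _
  · have h0 : x.1 t.length ∈ N := by
      have h0 := hx.2 t.length le_rfl
      simp only [pref_length, le_refl, if_true] at h0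
      exact h0
    refine h _ h0 x ⟨?_, fun n hn => ?_⟩
    · rw [List.length_append, List.length_singleton, pref_succ, hx.1]
    · rw [List.length_append, List.length_singleton] at hn
      have h1 := hx.2 n (by omega)
      have h2 : ¬ n ≤ t.length := by omega
      simp only [pref_length, h2, if_false] at h1
      have h3 : (pref x n).getD t.length 0 = x.1 t.length := by
        rw [pref, List.getD_eq_getElem?_getD, List.getElem?_map,
          List.getElem?_range (by omega)]
        rfl
      rw [h3] at h1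
      exact h1

theorem CRV.compl {A : Set Inc} (h : CRV V A) : CRV V Aᶜ := by
  intro s
  obtain ⟨σ, hσ, h1⟩ := h s
  refine ⟨σ, hσ, ?_⟩
  rcases h1 with h1 | h1
  · exact Or.inr fun x hx h => h (h1 x hx)
  · exact Or.inl fun x hx => h1 x hx

/-- The fusion lemma. -/
theorem fuse {Q : List ℕ → Prop} {R : ℕ → Inc → Prop} (s : List ℕ) (hs : Q s)
    (hstep : ∀ t, Q t → {n | Q (t ++ [n])} ∈ V)
    (hR : ∀ t, Q t → ∀ k, ∃ σ, Good V σ ∧ ∀ x ∈ Cone t σ, R k x) :
    ∃ σ, Good V σ ∧ ∀ x ∈ Cone s σ, ∀ k, R k x := by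
  classical
  have hR' : ∀ t k, ∃ σ, Good V σ ∧ (Q t → ∀ x ∈ Cone t σ, R k x) := by
    intro t k
    by_cases ht : Q t
    · obtain ⟨σ, h1, h2⟩ := hR t ht k
      exact ⟨σ, h1, fun _ => h2⟩
    · exact ⟨fun _ => univ, fun _ => univ_mem, fun h => absurd h ht⟩
  choose τ hτ1 hτ2 using hR'
  let σ : List ℕ → Set ℕ := fun u => (if Q u then {n | Q (u ++ [n])} else univ) ∩
    ⋂ j ∈ Finset.range (u.length + 1), ⋂ k ∈ Finset.range (u.length + 1), τ (u.take j) k u
  refine ⟨σ, fun u => ?_, fun x hx k => ?_⟩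
  · refine inter_mem ?_ ?_
    · by_cases hu : Q u
      · simp only [hu, if_true]; exact hstep u hu
      · simp only [hu, if_false]; exact univ_mem
    · refine (Finset.iInter_mem_sets _).2 fun j _ => (Finset.iInter_mem_sets _).2 fun k _ => ?_
      exact hτ1 _ _ _
  · have hQ : ∀ n ≥ s.length, Q (pref x n) := by
      intro n hn
      induction n, hn using Nat.le_induction with
      | base => rw [hx.1]; exact hs
      | succ n hn ih =>
        have h1 := (hx.2 n hn).1
        rw [if_pos ih] at h1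
        rw [pref_succ]
        exact h1
    set j := max k s.length with hj
    refine hτ2 (pref x j) k (hQ j (le_max_right _ _)) x ⟨by rw [pref_length], fun n hn => ?_⟩
    rw [pref_length] at hn
    have h1 := (hx.2 n ((le_max_right _ _).trans hn)).2
    rw [mem_iInter₂] at h1
    have h2 := h1 j (Finset.mem_range.2 (by rw [pref_length]; omega))
    rw [mem_iInter₂] at h2
    have h3 := h2 k (Finset.mem_range.2 (by
      rw [pref_length]
      have := le_max_left k s.length
      omega))
    rwa [pref_take x hn] at h3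

theorem CRV.iUnion {V : Ultrafilter ℕ} {A : ℕ → Set Inc} (hA : ∀ n, CRV (V : Filter ℕ) (A n)) :
    CRV (V : Filter ℕ) (⋃ n, A n) := by
  classical
  intro s
  let Q : List ℕ → Prop := fun t => ¬ ∃ σ, Good (V : Filter ℕ) σ ∧ ∀ x ∈ Cone t σ, x ∈ ⋃ n, A n
  by_cases hs : Q s
  swap
  · obtain ⟨σ, h1, h2⟩ := not_not.1 hs
    exact ⟨σ, h1, Or.inl h2⟩
  obtain ⟨σ, h1, h2⟩ := fuse (V := (V : Filter ℕ)) (Q := Q) (R := fun k x => x ∉ A k) s hs
    (fun t ht => by
      by_contra hcon
      have h3 : {n | ¬ Q (t ++ [n])} ∈ V := by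
        have := Ultrafilter.compl_mem_iff_notMem.2 hcon
        exact this
      have h4 : ∀ n, ∃ σ, Good (V : Filter ℕ) σ ∧ (¬ Q (t ++ [n]) →
          ∀ x ∈ Cone (t ++ [n]) σ, x ∈ ⋃ n, A n) := by
        intro n
        by_cases hn : Q (t ++ [n])
        · exact ⟨fun _ => univ, fun _ => univ_mem, fun h => absurd hn h⟩
        · obtain ⟨σ, h5, h6⟩ := not_not.1 hn
          exact ⟨σ, h5, fun _ => h6⟩
      choose τ h5 h6 using h4
      exact ht (glue_cones h3 h5 fun n hn => h6 n hn))
    (fun t ht k => by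
      obtain ⟨σ, h3, h4⟩ := hA k t
      rcases h4 with h4 | h4
      · exact absurd ⟨σ, h3, fun x hx => mem_iUnion.2 ⟨k, h4 x hx⟩⟩ ht
      · exact ⟨σ, h3, h4⟩)
  exact ⟨σ, h1, Or.inr fun x hx hxA => by
    obtain ⟨k, hk⟩ := mem_iUnion.1 hxA
    exact h2 x hx k hk⟩

theorem crv_coord {V : Ultrafilter ℕ} (hV : (V : Filter ℕ) ≤ cofinite) (k m : ℕ) :
    CRV (V : Filter ℕ) {x : Inc | x.1 k = m} := by
  intro s
  by_cases hk : k < s.length
  · refine ⟨fun _ => univ, fun _ => univ_mem, ?_⟩
    have h1 : ∀ x ∈ Cone s (fun _ => univ), x.1 k = s.getD k 0 := by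
      intro x hx
      conv_rhs => rw [← hx.1]
      rw [pref, List.getD_eq_getElem?_getD, List.getElem?_map, List.getElem?_range (by omega)]
      rfl
    by_cases h2 : s.getD k 0 = m
    · exact Or.inl fun x hx => by rw [mem_ofPred_eq, h1 x hx, h2]
    · exact Or.inr fun x hx h3 => h2 (by rw [← h1 x hx]; exact h3)
  · refine ⟨fun _ => {m}ᶜ, fun _ => hV (finite_singleton m).compl_mem_cofinite, Or.inr ?_⟩
    intro x hx h
    exact hx.2 k (not_lt.1 hk) h

/-- Borel sets are homogeneous with respect to `V`-trees. -/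
theorem crv_of_measurable {V : Ultrafilter ℕ} (hV : (V : Filter ℕ) ≤ cofinite) {A : Set Inc}
    (hA : MeasurableSet A) : CRV (V : Filter ℕ) A := by
  let alg : MeasurableSpace Inc :=
    { MeasurableSet' := fun A => CRV (V : Filter ℕ) A
      measurableSet_empty := fun s => ⟨fun _ => univ, fun _ => univ_mem, Or.inr fun _ _ h => h⟩
      measurableSet_compl := fun _ h => h.compl
      measurableSet_iUnion := fun _ h => CRV.iUnion h }
  have h1 : (Subtype.instMeasurableSpace : MeasurableSpace Inc) ≤ alg := by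
    refine MeasurableSpace.comap_le_iff_le_map.2 (iSup_le fun i => ?_)
    rintro _ ⟨T, -, rfl⟩
    have : (Subtype.val ⁻¹' ((fun x : ℕ → ℕ => x i) ⁻¹' T) : Set Inc) =
        ⋃ n ∈ T, {x : Inc | x.1 i = n} := by
      ext x; simp
    change @MeasurableSet _ alg (Subtype.val ⁻¹' ((fun x : ℕ → ℕ => x i) ⁻¹' T))
    rw [this]
    exact @MeasurableSet.biUnion _ _ alg _ _ (to_countable T) fun n _ => crv_coord hV i n
  exact h1 _ hA

end Run7.h471
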