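import Pool.Agent.Run7.h471.Ultra

set_option autoImplicit false

/-!
# A shift invariant ultrafilter all of whose Borel functions have countable rank, continued
-/

namespace Run7.h471

open Set Filter Topology MeasureTheory

/-- Cones are nonempty. -/
theorem cone_nonempty {V : Ultrafilter ℕ} (hV : (V : Filter ℕ) ≤ cofinite)
    {σ : List ℕ → Set ℕ} (hσ : Good (V : Filter ℕ) σ) : (Cone [] σ).Nonempty := by
  classical
  have hbig : ∀ k : ℕ, {n | k < n} ∈ V := fun k => hV (by
    rw [mem_cofinite]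
    exact (finite_Iic k).subset fun n hn => by simpa using hn)
  have hnext : ∀ s : List ℕ, ∃ n, n ∈ σ s ∧ s.getLastD 0 < n := fun s => by
    obtain ⟨n, h1, h2⟩ := V.nonempty_of_mem (inter_mem (hσ s) (hbig (s.getLastD 0)))
    exact ⟨n, h1, h2⟩
  choose nx hnx1 hnx2 using hnext
  let L : ℕ → List ℕ := fun n => Nat.rec [] (fun _ s => s ++ [nx s]) n
  have hL : ∀ n, L (n + 1) = L n ++ [nx (L n)] := fun n => rfl
  have hlt : ∀ n, nx (L n) < nx (L (n + 1)) := fun n => by
    have h := hnx2 (L (n + 1))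
    have h2 : (L (n + 1)).getLastD 0 = nx (L n) := by
      rw [hL]; simp
    rwa [h2] at h
  refine ⟨⟨fun n => nx (L n), strictMono_nat_of_lt_succ hlt⟩, rfl, fun n _ => ?_⟩
  have h3 : ∀ n, pref ⟨fun n => nx (L n), strictMono_nat_of_lt_succ hlt⟩ n = L n := by
    intro n
    induction n with
    | zero => rfl
    | succ n ih => rw [pref_succ, ih, hL]
  rw [h3]
  exact hnx1 _

theorem Good.inter {V : Filter ℕ} {σ τ : List ℕ → Set ℕ} (h : Good V σ) (h' : Good V τ) :
    Good V fun s => σ s ∩ τ s := fun s => inter_mem (h s) (h' s)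

/-- The filter generated by the cones. -/
def coneFilter (V : Ultrafilter ℕ) : Filter Inc where
  sets := {A | ∃ σ, Good (V : Filter ℕ) σ ∧ Cone [] σ ⊆ A}
  univ_sets := ⟨fun _ => univ, fun _ => univ_mem, subset_univ _⟩
  sets_of_superset := fun ⟨σ, h1, h2⟩ h3 => ⟨σ, h1, h2.trans h3⟩
  inter_sets := fun ⟨_, h1, h2⟩ ⟨_, h3, h4⟩ => ⟨_, h1.inter h3,
    fun _ hx => ⟨h2 (Cone_mono (fun _ => inter_subset_left) hx),
      h4 (Cone_mono (fun _ => inter_subset_right) hx)⟩⟩

theorem coneFilter_neBot {V : Ultrafilter ℕ} (hV : (V : Filter ℕ) ≤ cofinite) :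
    (coneFilter V).NeBot := by
  rw [neBot_iff]
  intro h
  have h1 : (∅ : Set Inc) ∈ coneFilter V := by rw [h]; exact mem_bot
  obtain ⟨σ, hσ, h2⟩ := h1
  obtain ⟨x, hx⟩ := cone_nonempty hV hσ
  exact h2 hx

/-- A nonprincipal ultrafilter. -/
noncomputable def V0 : Ultrafilter ℕ := hyperfilter ℕ

theorem V0_le : (V0 : Filter ℕ) ≤ cofinite := hyperfilter_le_cofinite

instance : (coneFilter V0).NeBot := coneFilter_neBot V0_le

/-- The ultrafilter. -/
noncomputable def W0 : Ultrafilter Inc := Ultrafilter.of (coneFilter V0)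

theorem mem_W0_of_cone {A : Set Inc} {σ : List ℕ → Set ℕ} (hσ : Good (V0 : Filter ℕ) σ)
    (h : Cone [] σ ⊆ A) : A ∈ W0 :=
  Ultrafilter.of_le (coneFilter V0) ⟨σ, hσ, h⟩

theorem cone_of_mem_W0 {A : Set Inc} (hA : MeasurableSet A) (h : A ∈ W0) :
    ∃ σ, Good (V0 : Filter ℕ) σ ∧ Cone [] σ ⊆ A := by
  obtain ⟨σ, hσ, h1 | h1⟩ := crv_of_measurable V0_le hA []
  · exact ⟨σ, hσ, h1⟩
  · exfalso
    have h2 : Aᶜ ∈ W0 := mem_W0_of_cone hσ h1
    exact (Ultrafilter.compl_mem_iff_notMem.1 h2) h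

theorem shift_cone {V : Filter ℕ} {σ : List ℕ → Set ℕ} (hσ : Good V σ) :
    ∃ τ, Good V τ ∧ ∀ x ∈ Cone [] τ, shift x ∈ Cone [] σ := by
  refine ⟨fun t => match t with
    | [] => univ
    | _ :: t => σ t, fun t => ?_, fun x hx => ⟨rfl, fun n hn => ?_⟩⟩
  · cases t with
    | nil => exact univ_mem
    | cons a t => exact hσ t
  · have h1 := hx.2 (n + 1) (Nat.zero_le _)
    rw [pref_cons] at h1
    exact h1

theorem W0_shift (A : Set Inc) (hA : MeasurableSet A) (h : A ∈ W0) : shift ⁻¹' A ∈ W0 := by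
  obtain ⟨σ, hσ, h1⟩ := cone_of_mem_W0 hA h
  obtain ⟨τ, hτ, h2⟩ := shift_cone hσ
  exact mem_W0_of_cone hτ fun x hx => h1 (h2 x hx)

/-- Prepending an element. -/
theorem exists_cons {n : ℕ} {y : Inc} (h : n < y.1 0) : ∃ x : Inc, x.1 0 = n ∧ shift x = y := by
  refine ⟨⟨fun k => Nat.casesOn k n y.1, strictMono_nat_of_lt_succ fun k => ?_⟩, rfl, rfl⟩
  cases k with
  | zero => exact h
  | succ k => exact y.2 (Nat.lt_succ_self k)

theorem rk_zero_first : Rk inferInstance shift W0 0 fun x : Inc => x.1 0 := by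
  rw [rk_zero_iff]
  intro g hg h
  have hm : MeasurableSet {x : Inc | g (shift x) < x.1 0} :=
    measurableSet_lt (hg.comp measurable_shift) (measurable_coord 0)
  obtain ⟨σ, hσ, h1⟩ := cone_of_mem_W0 hm h
  obtain ⟨n, hn⟩ := V0.nonempty_of_mem (hσ [])
  refine ⟨n, mem_W0_of_cone (σ := fun t => σ (n :: t) ∩ {k | n < k}) (fun t => ?_)
    fun y hy => ?_⟩
  · refine inter_mem (hσ _) (V0_le ?_)
    rw [mem_cofinite]
    exact (finite_Iic n).subset fun k hk => by simpa using hk
  · have h0 : n < y.1 0 := (hy.2 0 le_rfl).2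
    obtain ⟨x, hx0, rfl⟩ := exists_cons h0
    have hx : x ∈ Cone [] σ := by
      refine ⟨rfl, fun k _ => ?_⟩
      cases k with
      | zero => rw [hx0]; exact hn
      | succ k =>
        rw [pref_cons, hx0]
        exact (hy.2 k (Nat.zero_le _)).1
    have h2 := h1 hx
    have h3 : g (shift x) < x.1 0 := h2
    rw [hx0] at h3
    exact h3.le

/-- `f` is dominated above `s` by a function of the tail of countable rank. -/
def Dom (f : Inc → ℕ) (s : List ℕ) : Prop :=
  ∃ g : Inc → ℕ, Measurable g ∧ (∃ β : Ordinal.{0}, (Iio β).Countable ∧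
    Rk inferInstance shift W0 β g) ∧
    ∃ σ, Good (V0 : Filter ℕ) σ ∧ ∀ x ∈ Cone s σ, f x ≤ g (shift^[s.length] x)

theorem dom_of_bdd {f : Inc → ℕ} {s : List ℕ} {k : ℕ} {σ : List ℕ → Set ℕ}
    (hσ : Good (V0 : Filter ℕ) σ) (h : ∀ x ∈ Cone s σ, f x ≤ k) : Dom f s := by
  refine ⟨fun _ => k, measurable_const, ⟨0, ?_, ?_⟩, σ, hσ, h⟩
  · have : (Iio (0 : Ordinal.{0})) = ∅ := by
      ext a; simp
    rw [this]
    exact countable_empty
  · rw [rk_zero_iff]
    intro g hg h1
    have h2 : ∀ᶠ x in (W0 : Filter Inc), (fun y => g y < k) x :=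
      ae_of_shift W0_shift (p := fun y => g y < k)
        (measurableSet_lt hg measurable_const) h1
    exact ⟨k, h2.mono fun x hx => le_of_lt hx⟩

theorem dom_step {f : Inc → ℕ} {s : List ℕ} (h : {n | Dom f (s ++ [n])} ∈ V0) : Dom f s := by
  classical
  have hex : ∀ n, ∃ g : Inc → ℕ, ∃ β : Ordinal.{0}, ∃ σ, Measurable g ∧ (Iio β).Countable ∧
      Rk inferInstance shift W0 β g ∧ Good (V0 : Filter ℕ) σ ∧
      (Dom f (s ++ [n]) → ∀ x ∈ Cone (s ++ [n]) σ, f x ≤ g (shift^[s.length + 1] x)) := by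
    intro n
    by_cases hn : Dom f (s ++ [n])
    · obtain ⟨g, hg, ⟨β, hβ, hr⟩, σ, hσ, h1⟩ := hn
      refine ⟨g, β, σ, hg, hβ, hr, hσ, fun _ x hx => ?_⟩
      have h2 := h1 x hx
      rwa [List.length_append, List.length_singleton] at h2
    · refine ⟨fun _ => 0, 0, fun _ => univ, measurable_const, ?_, ?_, fun _ => univ_mem,
        fun h => absurd h hn⟩
      · have : (Iio (0 : Ordinal.{0})) = ∅ := by
          ext a; simp
        rw [this]
        exact countable_empty
      · rw [rk_zero_iff]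
        intro g hg h1
        obtain ⟨x, hx⟩ := h1.exists
        exact absurd hx (Nat.not_lt_zero _)
  choose g β σ hgm hβ hr hσ hdom using hex
  obtain ⟨σ', hσ', h1⟩ := glue_cones (V := (V0 : Filter ℕ)) (t := s) (N := {n | Dom f (s ++ [n])})
    h hσ (P := fun x => f x ≤ g (x.1 s.length) (shift^[s.length + 1] x)) (fun n hn x hx => by
      have h2 := hdom n hn x hx
      have h3 : x.1 s.length = n := by
        have h4 := hx.1
        rw [List.length_append, List.length_singleton, pref_succ] at h4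
        have h5 := List.append_inj_right' h4 rfl
        simpa using h5
      show f x ≤ g (x.1 s.length) (shift^[s.length + 1] x)
      rw [h3]
      exact h2)
  have hGm : Measurable fun y : Inc => g (y.1 0) (shift y) :=
    measurable_glue' (F := fun n y => g n (shift y)) (fun n => (hgm n).comp measurable_shift)
      (measurable_coord 0)
  refine ⟨fun y => g (y.1 0) (shift y), hGm, ?_, σ', hσ', fun x hx => ?_⟩
  swap
  · have h2 := h1 x hx
    have h3 : (shift^[s.length] x).1 0 = x.1 s.length := by rw [shift_iter_apply, Nat.add_zero]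
    show f x ≤ g ((shift^[s.length] x).1 0) (shift (shift^[s.length] x))
    rw [h3, ← Function.iterate_succ_apply' shift s.length x]
    exact h2
  -- the rank of the glued function
  have hbd : BddAbove (range fun n => β n + 1) := Ordinal.bddAbove_of_small
  refine ⟨⨆ n, (β n + 1), ?_, ?_⟩
  · have h2 : Iio (⨆ n, (β n + 1)) ⊆ ⋃ n, Iio (β n + 1) := by
      intro a ha
      obtain ⟨n, hn⟩ := (lt_ciSup_iff hbd).1 ha
      exact mem_iUnion.2 ⟨n, hn⟩
    refine (countable_iUnion fun n => ?_).mono h2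
    have h3 : Iio (β n + 1) ⊆ insert (β n) (Iio (β n)) := by
      intro a ha
      have h4 : a < β n + 1 := ha
      rcases (Order.lt_add_one_iff.1 h4).eq_or_lt with h5 | h5
      · exact Or.inl h5
      · exact Or.inr h5
    exact ((hβ n).insert _).mono h3
  rw [rk_iff]
  intro u hu hlt
  right
  have hmem : ∀ n, MeasurableSet {y : Inc | u y < g n y} := fun n => measurableSet_lt hu (hgm n)
  let i : Inc → ℕ := fun y => sInf {n | u y < g n y}
  have hi : Measurable i := by
    refine measurable_of_Iic fun n => ?_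
    have h2 : i ⁻¹' Iic n = (⋃ j ∈ Iic n, {y : Inc | u y < g j y}) ∪
        (⋃ j, {y : Inc | u y < g j y})ᶜ := by
      ext y
      simp only [mem_preimage, mem_Iic, mem_union, mem_iUnion, mem_ofPred_eq, exists_prop,
        mem_compl_iff, not_exists]
      constructor
      · intro h3
        by_cases h4 : ∃ j, u y < g j y
        · exact Or.inl ⟨_, h3, Nat.sInf_mem (s := {n | u y < g n y}) h4⟩
        · exact Or.inr fun j hj => h4 ⟨j, hj⟩
      · rintro (⟨j, h3, h4⟩ | h3)
        · exact (Nat.sInf_le (s := {n | u y < g n y}) h4).trans h3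
        · have h4 : {n | u y < g n y} = ∅ := by
            ext j
            simp only [mem_ofPred_eq, mem_empty_iff_false, iff_false]
            exact h3 j
          show sInf {n | u y < g n y} ≤ n
          rw [h4, Nat.sInf_empty]
          exact Nat.zero_le n
    rw [h2]
    exact (MeasurableSet.biUnion (to_countable _) fun j _ => hmem j).union
      (MeasurableSet.iUnion hmem).compl
  have h2 : ∀ᶠ y in (W0 : Filter Inc), ∃ n, u y < g n y := by
    refine ae_of_shift W0_shift (p := fun y => ∃ n, u y < g n y) ?_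
      (hlt.mono fun x hx => ⟨_, hx⟩)
    have h3 : {y : Inc | ∃ n, u y < g n y} = ⋃ n, {y : Inc | u y < g n y} := by
      ext y; simp
    rw [h3]
    exact MeasurableSet.iUnion hmem
  have h3 : ∀ᶠ x in (W0 : Filter Inc), i (shift x) < x.1 0 + 1 :=
    hlt.mono fun x hx => Nat.lt_succ_of_le (Nat.sInf_le hx)
  have h4 : Rk inferInstance shift W0 0 fun x : Inc => x.1 0 + 1 :=
    rk_zero_first.comp W0_shift (fun n => n + 1)
  obtain ⟨i0, h5⟩ := exists_const (rk_zero_iff.1 h4 i hi h3)
  refine ⟨β i0, (Order.lt_add_one_iff.2 le_rfl).trans_le (le_ciSup hbd i0), ?_⟩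
  refine (hr i0).mono_left ((h2.and h5).mono fun y hy => ?_)
  have h6 : u y < g (i y) y := Nat.sInf_mem (s := {n | u y < g n y}) hy.1
  rw [hy.2] at h6
  exact h6.le

/-- Every Borel function has a countable rank. -/
theorem exists_rank {f : Inc → ℕ} (hf : Measurable f) :
    ∃ β : Ordinal.{0}, (Iio β).Countable ∧ Rk inferInstance shift W0 β f := by
  by_cases h : Dom f []
  · obtain ⟨g, hg, ⟨β, hβ, hr⟩, σ, hσ, h1⟩ := h
    exact ⟨β, hβ, hr.mono_left (mem_W0_of_cone hσ h1)⟩
  · exfalso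
    obtain ⟨σ, hσ, h1⟩ := fuse (V := (V0 : Filter ℕ)) (Q := fun t => ¬ Dom f t)
      (R := fun k x => f x ≠ k) [] h
      (fun t ht => by
        by_contra hcon
        have h3 : {n | ¬ ¬ Dom f (t ++ [n])} ∈ V0 := Ultrafilter.compl_mem_iff_notMem.2 hcon
        refine ht (dom_step ?_)
        filter_upwards [h3] with n hn
        exact not_not.1 hn)
      (fun t ht k => by
        have hm : MeasurableSet {x | f x = k} := hf (measurableSet_singleton k)
        obtain ⟨σ, h3, h4⟩ := crv_of_measurable V0_le hm t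
        rcases h4 with h4 | h4
        · exact absurd (dom_of_bdd h3 fun x hx => le_of_eq (h4 x hx)) ht
        · exact ⟨σ, h3, h4⟩)
    obtain ⟨x, hx⟩ := cone_nonempty V0_le hσ
    exact h1 x hx (f x) rfl

/-- Ranks can be pushed forward. -/
theorem Rk.map {X Y : Type} {mX : MeasurableSpace X} {mY : MeasurableSpace Y} {S : X → X}
    {T : Y → Y} {U : Ultrafilter X} {φ : X → Y} (hφ : Measurable φ)
    (hST : ∀ x, φ (S x) = T (φ x)) {β : Ordinal.{0}} :
    ∀ {f : Y → ℕ}, Rk mX S U β (fun x => f (φ x)) → Rk mY T (U.map φ) β f := by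
  induction β using WellFoundedLT.induction with
  | ind β ih =>
  intro f h
  rw [rk_iff] at h ⊢
  intro g hg hgf
  have h1 : ∀ᶠ x in (U : Filter X), g (T (φ x)) < f (φ x) := hgf
  rcases h (fun x => g (φ x)) (hg.comp hφ) (h1.mono fun x hx => by rw [hST]; exact hx) with
    ⟨n, hn⟩ | ⟨γ, hγ, h2⟩
  · exact Or.inl ⟨n, hn⟩
  · exact Or.inr ⟨γ, hγ, ih γ hγ h2⟩

end Run7.h471
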